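import Pool.Agent.Lib.MP_1a91b9_nuW.CF.Dif

/-!
# The different of a cyclic extension of prime degree and the conductor

PROOF.
dif_unr: `P = w.asIdeal`, `w.under = v` not ramified: `v.asIdeal.ramificationIdxIn (𝓞 L) = 1` (`CF.Ram`), so
`P.ramificationIdx (𝓞 k) = 1` (Galois: `Ideal.ramificationIdxIn_eq_ramificationIdx`); residue fields are finite, so
the residue extension is separable: `Algebra.IsUnramifiedAt (𝓞 k) P` (`Algebra.isUnramifiedAt_iff_map_eq` /
`Ideal.ramificationIdx_eq_one_iff...`; look in Mathlib/NumberTheory/RamificationInertia/Unramified.lean or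
RingTheory/Unramified/Dedekind), and `not_dvd_differentIdeal_iff`. ALTERNATIVE: `not_dvd_differentIdeal_of_isCoprime` (Mathlib
DedekindDomain/Different.lean line 836): `v 𝓞 L = P * J` with `P` and `J` coprime (ramification index `1`).
dif_pow: two nonzero ideals of `𝓞 L` are equal if for all places `w` and all `n`: `w ^ n ∣ I ↔ w ^ n ∣ J` (counts of
normalized factors; `Ideal.eq_of...`; e.g. `dvd_antisymm` with `UniqueFactorizationMonoid.dvd_of_forall_...`,
or `Associates.eq_of_eq_counts`). Write `c_w(I)` for the multiplicity (`emultiplicity w.asIdeal I`): `w ^ n ∣ I ↔ n ≤ c_w(I)`,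
`c_w(I ^ m) = m c_w(I)` (`emultiplicity_pow`, `w` prime). `w` over `v` not ramified: `c_w(different) = 0` (dif_unr), `c_w(f 𝓞 L) = 0`
(`w ∣ f 𝓞 L` iff `f ≤ w.under = v` (`Ideal.map_le_iff_le_comap`)). `w` over `v` ramified: `w = Q` (`uni`), `c_Q(different) = (ℓ-1)(t+1)`
(`Tot.dif`), `c_Q(f 𝓞 L) = ℓ (t + 1)`: `f = v ^ (t+1) * g`, `v` does not divide `g` (`hf`), `f 𝓞 L = (Q ^ ℓ) ^ (t+1) * g 𝓞 L` (`map_eq`), `Q` does
not divide `g 𝓞 L`. So `ℓ (ℓ-1)(t+1) = (ℓ-1) ℓ (t+1)`.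
-/

set_option autoImplicit false

namespace Pool.Agent.Lib.MP_1a91b9_nuW.CF

open NumberField IsDedekindDomain Pool.Agent.Lib.MP_1a91b9_nt
open Pool.Agent.Lib.MP_1a91b9_nuT Pool.Agent.Lib.MP_1a91b9_nuT.CF

universe u

private theorem difG_eq {A : Type*} [CommRing A] [IsDedekindDomain A] (I J : Ideal A) (hI : I ≠ 0)
    (hJ : J ≠ 0) (h : ∀ w : HeightOneSpectrum A,
      emultiplicity w.asIdeal I = emultiplicity w.asIdeal J) : I = J := by
  classical
  have key : UniqueFactorizationMonoid.normalizedFactors I =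
      UniqueFactorizationMonoid.normalizedFactors J := by
    ext P
    by_cases hP : Prime P
    · have h1 := h ⟨P, Ideal.isPrime_of_prime hP, hP.ne_zero⟩
      rw [UniqueFactorizationMonoid.emultiplicity_eq_count_normalizedFactors hP.irreducible hI,
        UniqueFactorizationMonoid.emultiplicity_eq_count_normalizedFactors hP.irreducible hJ,
        Nat.cast_inj, normalize_eq] at h1
      exact h1
    · rw [Multiset.count_eq_zero.2 fun hm =>
        hP (UniqueFactorizationMonoid.prime_of_normalized_factor P hm),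
        Multiset.count_eq_zero.2 fun hm =>
        hP (UniqueFactorizationMonoid.prime_of_normalized_factor P hm)]
  have h2 := (UniqueFactorizationMonoid.prod_normalizedFactors hI).symm.trans
    ((by rw [key] : Associated (UniqueFactorizationMonoid.normalizedFactors I).prod
      (UniqueFactorizationMonoid.normalizedFactors J).prod).trans
      (UniqueFactorizationMonoid.prod_normalizedFactors hJ))
  exact associated_iff_eq.1 h2

section
variable (k L : Type u) [Field k] [NumberField k] [Field L] [NumberField L] [Algebra k L]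
variable [CD] [IsGalois k L] (ℓ : ℕ) [Fact ℓ.Prime]

theorem dif_unr (w : HeightOneSpectrum (𝓞 L)) (hw : ¬ CF.Ram L (w.under (𝓞 k))) :
    ¬ w.asIdeal ∣ differentIdeal (𝓞 k) (𝓞 L) := by
  have i0 : (w.under (𝓞 k)).asIdeal.IsMaximal := (w.under (𝓞 k)).isMaximal
  have i1 : w.asIdeal.IsPrime := w.isPrime
  have i2 : w.asIdeal.LiesOver (w.under (𝓞 k)).asIdeal := ⟨rfl⟩
  unfold CF.Ram at hw
  rw [not_not, Ideal.ramificationIdxIn_eq_ramificationIdx (w.under (𝓞 k)).asIdeal w.asIdeal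
    Gal(L/k)] at hw
  rw [dvd_differentIdeal_iff, not_not]
  exact Ideal.ramificationIdx_eq_one_iff.1 hw

theorem dif_pow (f : Ideal (𝓞 k)) (hne : f ≠ 0)
    (hf0 : ∀ v : HeightOneSpectrum (𝓞 k), ¬ CF.Ram L v → ¬ f ≤ v.asIdeal)
    (hf : ∀ v : HeightOneSpectrum (𝓞 k), CF.Ram L v → ∃ (Q : HeightOneSpectrum (𝓞 L))
      (σ : Gal(L/k)) (ϖ : 𝓞 L) (t : ℕ), Tot ℓ v Q σ ϖ t ∧
        ∀ n : ℕ, f ≤ v.asIdeal ^ n ↔ n ≤ t + 1) :
    differentIdeal (𝓞 k) (𝓞 L) ^ ℓ = (f.map (algebraMap (𝓞 k) (𝓞 L))) ^ (ℓ - 1) := by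
  classical
  have hℓ : ℓ.Prime := Fact.out
  have hd : differentIdeal (𝓞 k) (𝓞 L) ≠ ⊥ := differentIdeal_ne_bot
  have hm : f.map (algebraMap (𝓞 k) (𝓞 L)) ≠ ⊥ := Ideal.map_ne_bot_of_ne_bot hne
  refine difG_eq _ _ (pow_ne_zero _ hd) (pow_ne_zero _ hm) fun w => ?_
  have i1 : w.asIdeal.IsPrime := w.isPrime
  have i2 : w.asIdeal.LiesOver (w.under (𝓞 k)).asIdeal := ⟨rfl⟩
  rw [emultiplicity_pow w.prime, emultiplicity_pow w.prime]
  by_cases hw : CF.Ram L (w.under (𝓞 k))
  · obtain ⟨Q, σ, ϖ, t, hT, hn⟩ := hf _ hw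
    have hQ : w = Q := (hT.uni w).1 rfl
    subst hQ
    have e1 : emultiplicity w.asIdeal (differentIdeal (𝓞 k) (𝓞 L)) =
        (((ℓ - 1) * (t + 1) : ℕ) : ℕ∞) := by
      rw [emultiplicity_eq_coe, hT.dif, hT.dif]
      exact ⟨le_refl _, by omega⟩
    have e2 : emultiplicity (w.under (𝓞 k)).asIdeal f = ((t + 1 : ℕ) : ℕ∞) := by
      rw [emultiplicity_eq_coe, Ideal.dvd_iff_le, Ideal.dvd_iff_le, hn, hn]
      exact ⟨le_refl _, by omega⟩
    have e3 : emultiplicity w.asIdeal (f.map (algebraMap (𝓞 k) (𝓞 L))) =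
        ((ℓ * (t + 1) : ℕ) : ℕ∞) := by
      rw [Ideal.IsDedekindDomain.emultiplicity_map_eq_ramificationIdx'_mul hne
        (w.under (𝓞 k)).irreducible w.irreducible w.ne_bot, e2,
        Ideal.ramificationIdx'_eq_ramificationIdx _ _ (w.under (𝓞 k)).ne_bot, hT.ram, Nat.cast_mul]
    rw [e1, e3, ← Nat.cast_mul, ← Nat.cast_mul]
    congr 1
    ring
  · have e1 : emultiplicity w.asIdeal (differentIdeal (𝓞 k) (𝓞 L)) = 0 :=
      emultiplicity_eq_zero.2 (dif_unr k L w hw)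
    have e3 : emultiplicity w.asIdeal (f.map (algebraMap (𝓞 k) (𝓞 L))) = 0 := by
      rw [emultiplicity_eq_zero, Ideal.dvd_iff_le, Ideal.map_le_iff_le_comap]
      exact hf0 _ hw
    rw [e1, e3, mul_zero, mul_zero]

end

end Pool.Agent.Lib.MP_1a91b9_nuW.CF
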