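import Pool.Agent.Lib.MP_1a91b9_nuG.OfRecip

/-!
# The class field theory data of a cyclic extension of odd prime degree: statement
-/

set_option autoImplicit false

namespace Pool.Agent.Lib.MP_1a91b9_nuW

open NumberField IsDedekindDomain Pool.Agent.Lib.MP_1a91b9_nt
open Pool.Agent.Lib.MP_1a91b9_nuT Pool.Agent.Lib.MP_1a91b9_nuG
open Pool.Agent.Lib.MP_1a91b9_nuT.S4 (Over)

universe u

/-- The class field theory data of a Galois extension `F' / F` of odd prime degree `ℓ`: the function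
`x` on the places of `F` attached to a nontrivial character of the Galois group and its
conductor `f`. -/
structure WX (ℓ : ℕ) {F : Type u} [Field F] [NumberField F] (F' : Type u) [Field F']
    [NumberField F'] [Algebra F F'] (x : HeightOneSpectrum (𝓞 F) → ZMod ℓ) (f : Ideal (𝓞 F)) :
    Prop where
  ne : f ≠ 0
  supp : ∀ v : HeightOneSpectrum (𝓞 F), f ≤ v.asIdeal ↔ Ram F' v
  ram : ∀ v, Ram F' v → x v = 0
  split : ∀ v, ¬ Ram F' v → (x v = 0 ↔ Fintype.card (Over F' v) = ℓ)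
  ray : ∀ z : 𝓞 F, z ≠ 0 → z - 1 ∈ f → addI x (Ideal.span {z}) = 0
  exact : ∀ (v : HeightOneSpectrum (𝓞 F)) (g : Ideal (𝓞 F)), Ram F' v → f = g * v.asIdeal →
    ∃ z : 𝓞 F, z ≠ 0 ∧ z - 1 ∈ g ∧ z ∉ v.asIdeal ∧ addI x (Ideal.span {z}) ≠ 0
  disc : differentIdeal (𝓞 F) (𝓞 F') ^ ℓ = (f.map (algebraMap (𝓞 F) (𝓞 F'))) ^ (ℓ - 1)
  tame : ∀ v : HeightOneSpectrum (𝓞 F), Ram F' v → (ℓ : 𝓞 F) ∉ v.asIdeal →
    ¬ f ≤ v.asIdeal ^ 2

end Pool.Agent.Lib.MP_1a91b9_nuW
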