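import Pool.Agent.Lib.MP_1a91b9_nuW.CF.Exa
import Pool.Agent.Lib.MP_1a91b9_nuW.CF.DifG
import Pool.Agent.Lib.MP_1a91b9_nuW.CF.WX

/-!
# The class field theory data of a cyclic extension of odd prime degree

PROOF. `Fact ℓ.Prime`. For the ramified `v` choose `Q σ ϖ t c` by `exists_lc F F' ℓ hd v` (`choose` with the hypothesis `CF.Ram F' v`); `f v = t v + 1`, `c v` (total functions by `dite`, `0` outside). `recip_w`: `x`, `r`. `f = cnd F F' f`.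
`ram_eq v : nuG.Ram F' v ↔ CF.Ram F' v`, `spl_iff hℓ hL v hv : CF.Spl F' v ↔ Fintype.card (Over F' v) = ℓ` (nuG/OfRecip.lean), `addI x I` and `evI x I` are equal by `rfl` (see the end of `cfData_of`: `exact hr z ..`).
ne: `cnd_ne`. supp: `cnd_le` (`1 ≤ f v`). ram: `RC.zero`. split: `hs` and `spl_iff`. ray: `RC.princ`. exact: `exact_w`. disc: `dif_pow` (`hf0`: `cnd_le`; `hf`: the chosen `Tot` and `cnd_pow`). tame: `cnd_pow hv 2`: `2 ≤ f v = t v + 1` is false as `t v = 0`.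
-/

set_option autoImplicit false

namespace Pool.Agent.Lib.MP_1a91b9_nuW

open NumberField IsDedekindDomain Pool.Agent.Lib.MP_1a91b9_nt
open Pool.Agent.Lib.MP_1a91b9_nuT Pool.Agent.Lib.MP_1a91b9_nuG
open Pool.Agent.Lib.MP_1a91b9_nuT.S4 (Over)

universe u

variable [CD]

/-- **Class field theory for the cyclic extensions of odd prime degree.** -/
theorem exists_wx {ℓ : ℕ} (hℓ : ℓ.Prime) (h2 : ℓ ≠ 2) (F F' : Type u) [Field F] [NumberField F]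
    [Field F'] [NumberField F'] [Algebra F F'] [IsGalois F F'] (hd : Module.finrank F F' = ℓ) :
    ∃ (x : HeightOneSpectrum (𝓞 F) → ZMod ℓ) (f : Ideal (𝓞 F)), WX ℓ F' x f := by
  have hF : Fact ℓ.Prime := ⟨hℓ⟩
  have h0 : ∀ v : HeightOneSpectrum (𝓞 F), ∃ (t : ℕ) (c : Additive Fˣ →+ ZMod ℓ),
      CF.Ram F' v → ∃ (Q : HeightOneSpectrum (𝓞 F')) (σ : Gal(F'/F)) (ϖ : 𝓞 F'),
        CF.Tot ℓ v Q σ ϖ t ∧ CF.LC F F' ℓ v (t + 1) c ∧ ((ℓ : 𝓞 F) ∉ v.asIdeal → t = 0) := by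
    intro v
    by_cases hv : CF.Ram F' v
    · obtain ⟨Q, σ, ϖ, t, c, h1, h2, h3⟩ := CF.exists_lc F F' ℓ hd v hv
      exact ⟨t, c, fun _ => ⟨Q, σ, ϖ, h1, h2, h3⟩⟩
    · exact ⟨0, 0, fun h => absurd h hv⟩
  choose t c htc using h0
  have hc : ∀ v : HeightOneSpectrum (𝓞 F), CF.Ram F' v → CF.LC F F' ℓ v (t v + 1) (c v) := by
    intro v hv
    obtain ⟨Q, σ, ϖ, -, h2, -⟩ := htc v hv
    exact h2
  obtain ⟨x, r, hne, hx, hs, hr⟩ := CF.recip_w F F' ℓ h2 hd (fun v => t v + 1) c hc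
  have hle : ∀ w : HeightOneSpectrum (𝓞 F), CF.cnd F F' (fun v => t v + 1) ≤ w.asIdeal ↔
      CF.Ram F' w := CF.cnd_le F' fun v _ => Nat.le_add_left 1 (t v)
  refine ⟨x, CF.cnd F F' (fun v => t v + 1), ?_⟩
  constructor
  · exact CF.cnd_ne F'
  · intro v
    rw [ram_eq]
    exact hle v
  · intro v hv
    exact hx.zero v ((hle v).mpr ((ram_eq v).mp hv))
  · intro v hv
    rw [hs v (fun h => hv ((ram_eq v).mpr h)), spl_iff hℓ hd v hv]
  · intro z hz hz1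
    exact hx.princ z hz hz1
  · intro v g hv hg
    exact CF.exact_w F F' ℓ h2 hd hc hne hx hs hr v g ((ram_eq v).mp hv) hg
  · refine CF.dif_pow F F' ℓ _ (CF.cnd_ne F') (fun v hv h => hv ((hle v).mp h)) ?_
    intro v hv
    obtain ⟨Q, σ, ϖ, h1, -, -⟩ := htc v hv
    exact ⟨Q, σ, ϖ, t v, h1, fun n => CF.cnd_pow F' hv n⟩
  · intro v hv hlv h
    obtain ⟨Q, σ, ϖ, -, -, h3⟩ := htc v ((ram_eq v).mp hv)
    have h4 := (CF.cnd_pow F' ((ram_eq v).mp hv) 2).mp h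
    have h5 := h3 hlv
    have h6 : 2 ≤ t v + 1 := h4
    omega

end Pool.Agent.Lib.MP_1a91b9_nuW
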