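import Pool.Agent.Lib.MP_1a91b9_nuW.CF.Le

/-!
# The product of the powers of the ramified places

PROOF.
cnd: `cnd f = ∏ v ∈ (ram_finite k L).toFinset, v.asIdeal ^ f v`. cnd_ne: product of nonzero ideals. cnd_le (`1 ≤ f v` at the ramified
places): `cnd f ≤ w ↔ Ram L w` (`IsPrime.prod_le`, `Ideal.IsPrime.pow_le_iff`, two places with `v ≤ w` are equal, see `main_eq` in
nuT/CF/Main.lean). mem_cnd: `z ∈ cnd f ↔ ∀ ramified v, z ∈ v ^ f v` (`Ideal.prod_eq_iInf`-like: `Ideal.prod_le_inf` and coprimality of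
the `v ^ f v`: `Ideal.inf_eq_mul..`/`Ideal.finset_inf_span...`; e.g. `Ideal.prod_eq_iInf...` or
`IsDedekindDomain.inf_prime_pow_eq_prod`). cnd_pow: for ramified `v`: `cnd f ≤ v ^ n ↔ n ≤ f v` (`cnd f = v ^ f v * J`, `J` not `≤ v`:
if `n > f v`, `v ^ n ∣ v ^ f v * J` gives `v ∣ J`).
-/

set_option autoImplicit false

namespace Pool.Agent.Lib.MP_1a91b9_nuW.CF

open NumberField IsDedekindDomain UniqueFactorizationMonoid Pool.Agent.Lib.MP_1a91b9_nt
open Pool.Agent.Lib.MP_1a91b9_nuT Pool.Agent.Lib.MP_1a91b9_nuT.CF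
open Pool.Agent.Lib.MP_1a91b9_nuT.S4

universe u

private theorem cnd_main_eq {F : Type u} [Field F] [NumberField F]
    {v w : HeightOneSpectrum (𝓞 F)} (h : v.asIdeal ≤ w.asIdeal) : v = w :=
  HeightOneSpectrum.ext (v.isMaximal.eq_of_le w.isPrime.ne_top h)

variable [CD]

section
variable (k L : Type u) [Field k] [NumberField k] [Field L] [NumberField L] [Algebra k L]
  [IsGalois k L]

/-- the product of the powers `v ^ f v` of the ramified places -/
noncomputable def cnd (f : HeightOneSpectrum (𝓞 k) → ℕ) : Ideal (𝓞 k) :=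
  ∏ v ∈ (ram_finite k L).toFinset, v.asIdeal ^ f v

variable {k} {f : HeightOneSpectrum (𝓞 k) → ℕ}

theorem cnd_ne : cnd k L f ≠ 0 := by
  unfold cnd
  exact Finset.prod_ne_zero_iff.mpr fun v _ => pow_ne_zero _ v.ne_bot

theorem mem_cnd (z : 𝓞 k) : z ∈ cnd k L f ↔ ∀ v : HeightOneSpectrum (𝓞 k), CF.Ram L v →
    z ∈ v.asIdeal ^ f v := by
  have h : cnd k L f = ⨅ v ∈ (ram_finite k L).toFinset, v.asIdeal ^ f v := by
    unfold cnd
    refine Ideal.prod_eq_iInf_of_pairwise_isCoprime ?_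
    intro v _ w _ hvw
    refine IsCoprime.pow ?_
    rw [Ideal.isCoprime_iff_sup_eq]
    refine v.isMaximal.coprime_of_ne w.isMaximal ?_
    intro h
    exact hvw (HeightOneSpectrum.ext h)
  rw [h]
  simp only [Submodule.mem_iInf, Set.Finite.mem_toFinset, Set.mem_ofPred_eq]

theorem cnd_le (hf : ∀ v : HeightOneSpectrum (𝓞 k), CF.Ram L v → 1 ≤ f v)
    (w : HeightOneSpectrum (𝓞 k)) : cnd k L f ≤ w.asIdeal ↔ CF.Ram L w := by
  unfold cnd
  rw [w.isPrime.prod_le]
  constructor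
  · rintro ⟨v, hv, hvw⟩
    rw [Set.Finite.mem_toFinset] at hv
    have hv1 : CF.Ram L v := hv
    have := w.isPrime
    rw [Ideal.IsPrime.pow_le_iff (by have := hf v hv1; omega)] at hvw
    rwa [← cnd_main_eq hvw]
  · intro hw
    refine ⟨w, (Set.Finite.mem_toFinset _).mpr hw, ?_⟩
    exact Ideal.pow_le_self (by have := hf w hw; omega)

theorem cnd_pow {v : HeightOneSpectrum (𝓞 k)} (hv : CF.Ram L v) (n : ℕ) :
    cnd k L f ≤ v.asIdeal ^ n ↔ n ≤ f v := by
  classical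
  have hvm : v ∈ (ram_finite k L).toFinset := (Set.Finite.mem_toFinset _).mpr hv
  have hsplit : cnd k L f = v.asIdeal ^ f v *
      ∏ w ∈ (ram_finite k L).toFinset.erase v, w.asIdeal ^ f w := by
    unfold cnd
    exact (Finset.mul_prod_erase _ (fun w => w.asIdeal ^ f w) hvm).symm
  constructor
  · intro h
    by_contra hn
    rw [not_le] at hn
    have h1 : v.asIdeal ^ (f v + 1) ∣ v.asIdeal ^ f v *
        ∏ w ∈ (ram_finite k L).toFinset.erase v, w.asIdeal ^ f w := by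
      rw [← hsplit]
      exact (pow_dvd_pow _ hn).trans (Ideal.dvd_iff_le.mpr h)
    rw [pow_succ] at h1
    have h2 : v.asIdeal ∣ ∏ w ∈ (ram_finite k L).toFinset.erase v, w.asIdeal ^ f w :=
      (mul_dvd_mul_iff_left (pow_ne_zero _ v.ne_bot)).mp h1
    rw [Ideal.dvd_iff_le, v.isPrime.prod_le] at h2
    obtain ⟨w, hw, hwv⟩ := h2
    have hne : w ≠ v := (Finset.mem_erase.mp hw).1
    have := v.isPrime
    have h3 : w.asIdeal ≤ v.asIdeal := Ideal.IsPrime.le_of_pow_le hwv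
    exact hne (cnd_main_eq h3)
  · intro h
    rw [hsplit]
    exact Ideal.mul_le_left.trans (Ideal.pow_le_pow_right h)

end

end Pool.Agent.Lib.MP_1a91b9_nuW.CF
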