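import Pool.Agent.Lib.MP_1a91b9_nuW.CF.Tot

/-!
# The action of the generator on the powers of `Q`

PROOF.
exp1: `y = x / ϖ ^ n` (`Le.div` with `h.pi.pow n`): `Le Q 0 y`; `h.apx`: `a` with `Le Q 1 (y - a)`; multiply by
`ϖ ^ n` (order `n`): `x - a ϖ ^ n = (y - a) ϖ ^ n`, `Le Q (1 + n)`.
del_pi: induction on `n`: `n = 0`: `σ 1 - 1 = 0`. `σ (ϖ ^ (n+1)) - ϖ ^ (n+1) = σ ϖ * (σ (ϖ ^ n) - ϖ ^ n) + (σ ϖ - ϖ) * ϖ ^ n`;
`Le Q 1 (σ ϖ)` (`h.inv`), the first term has order `≥ 1 + (n + t)`, the second `≥ (t + 1) + n`.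
del: for all `j : ℕ`, all `n : ℕ` and all `x` with `Le Q n x`: `Le Q (min (n + t) (n + j)) (σ x - x)`, by induction on
`j`: `j = 0`: `σ x` and `x` have order `≥ n` (`h.inv`). Step: `exp1`: `x = a ϖ ^ n + x'`, `Le Q (n + 1) x'`; `σ x - x =
a (σ (ϖ ^ n) - ϖ ^ n) + (σ x' - x')` (`σ` fixes `algebraMap k L a`); first term: `del_pi` (`Le.smul`-like: the element
`algebraMap k L (a : k)` has order `≥ 0`: it is the image of `algebraMap (𝓞 k) (𝓞 L) a`, `Le.int`), second
term: induction hypothesis for `n + 1`: order `≥ min (n + 1 + t) (n + 1 + j)`. Take `j = t`.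
del0: `h.apx`: `x = a + x'`, `Le Q 1 x'`; `σ x - x = σ x' - x'`, `del` with `n = 1`.
dl_iter: induction on `j` (`Function.iterate_succ_apply'`), `del`.
sum_pow_eq: for all `n`: `(σ ^ n) x = ∑ j ∈ range (n + 1), (n.choose j) * (dl σ)^[j] x` (induction on `n`, `σ y = y + dl
σ y`, `dl σ` is additive and commutes with natural multiples; or: in the ring `Module.End ℤ L`, `σ = 1 + δ`,
`add_pow` (Commute.one_left) and `Module.End.pow_apply`). Then induction on `n` with
`(n+1).choose (j+1) = n.choose j + n.choose (j+1)`, `n.choose n.succ = 0`.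
-/

set_option autoImplicit false

namespace Pool.Agent.Lib.MP_1a91b9_nuW.CF

open NumberField IsDedekindDomain Pool.Agent.Lib.MP_1a91b9_nt
open Pool.Agent.Lib.MP_1a91b9_nuT Pool.Agent.Lib.MP_1a91b9_nuT.CF

universe u

section
variable {k L : Type u} [Field k] [NumberField k] [Field L] [NumberField L] [Algebra k L]

/-- the operator `σ - 1` -/
def dl (σ : Gal(L/k)) (x : L) : L := σ x - x

private theorem del_pow (σ : Gal(L/k)) (n : ℕ) : ∀ x : L,
    (σ ^ n) x = ∑ j ∈ Finset.range (n + 1), ((n.choose j : ℕ) : L) * (dl σ)^[j] x := by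
  induction n with
  | zero =>
    intro x
    rw [zero_add, Finset.sum_range_one, Nat.choose_zero_right, Nat.cast_one, one_mul, pow_zero,
      Function.iterate_zero, id_eq, AlgEquiv.one_apply]
  | succ n ih =>
    intro x
    have e1 : (σ ^ (n + 1)) x = (σ ^ n) x + (σ ^ n) (dl σ x) := by
      rw [pow_succ, AlgEquiv.mul_apply, ← map_add]
      congr 1
      unfold dl
      ring
    have e2 : (σ ^ n) x = x + ∑ j ∈ Finset.range (n + 1),
        ((n.choose (j + 1) : ℕ) : L) * (dl σ)^[j + 1] x := by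
      have e3 : ∑ j ∈ Finset.range (n + 2), ((n.choose j : ℕ) : L) * (dl σ)^[j] x = (σ ^ n) x := by
        rw [Finset.sum_range_succ, ← ih x, Nat.choose_succ_self, Nat.cast_zero, zero_mul, add_zero]
      rw [← e3, Finset.sum_range_succ', Nat.choose_zero_right, Nat.cast_one, one_mul,
        Function.iterate_zero, id_eq, add_comm]
    have e4 : (σ ^ n) (dl σ x) = ∑ j ∈ Finset.range (n + 1),
        ((n.choose j : ℕ) : L) * (dl σ)^[j + 1] x := by
      rw [ih]
      refine Finset.sum_congr rfl fun j _ => ?_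
      rw [Function.iterate_succ_apply]
    rw [e1, e2, e4, add_assoc, ← Finset.sum_add_distrib, Finset.sum_range_succ' _ (n + 1),
      Nat.choose_zero_right, Nat.cast_one, one_mul, Function.iterate_zero, id_eq, add_comm]
    congr 1
    refine Finset.sum_congr rfl fun j _ => ?_
    rw [Nat.choose_succ_succ', Nat.cast_add]
    ring

theorem sum_pow_eq (σ : Gal(L/k)) (x : L) (n : ℕ) :
    ∑ i ∈ Finset.range n, (σ ^ i) x =
      ∑ j ∈ Finset.range n, ((n.choose (j + 1) : ℕ) : L) * (dl σ)^[j] x := by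
  induction n with
  | zero => rw [Finset.sum_range_zero, Finset.sum_range_zero]
  | succ n ih =>
    have e1 : ∑ j ∈ Finset.range n, ((n.choose (j + 1) : ℕ) : L) * (dl σ)^[j] x =
        ∑ j ∈ Finset.range (n + 1), ((n.choose (j + 1) : ℕ) : L) * (dl σ)^[j] x := by
      rw [Finset.sum_range_succ, Nat.choose_succ_self, Nat.cast_zero, zero_mul, add_zero]
    rw [Finset.sum_range_succ, ih, e1, del_pow σ n x, ← Finset.sum_add_distrib]
    refine Finset.sum_congr rfl fun j _ => ?_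
    rw [Nat.choose_succ_succ', Nat.cast_add]
    ring

variable [CD] {ℓ : ℕ} {v : HeightOneSpectrum (𝓞 k)} {Q : HeightOneSpectrum (𝓞 L)} {σ : Gal(L/k)}
  {ϖ : 𝓞 L} {t : ℕ} (h : Tot ℓ v Q σ ϖ t)
include h

theorem Tot.exp1 {n : ℕ} {x : L} (hx : Le Q n x) :
    ∃ a : 𝓞 k, Le Q (n + 1) (x - algebraMap k L (a : k) * (ϖ : L) ^ n) := by
  have hp := h.pi.pow n
  have hy : Le Q 0 (x / (ϖ : L) ^ n) := (hx.div hp).mono (by omega)
  obtain ⟨a, ha⟩ := h.apx hy
  refine ⟨a, ?_⟩
  have h1 := (ha.mul hp.le).mono (m := (n : ℤ) + 1) (by omega)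
  have e : (x / (ϖ : L) ^ n - algebraMap k L (a : k)) * (ϖ : L) ^ n =
      x - algebraMap k L (a : k) * (ϖ : L) ^ n := by
    rw [sub_mul, div_mul_cancel₀ _ hp.ne_zero]
  rwa [e] at h1

theorem Tot.del_pi (n : ℕ) : Le Q (n + t) (σ ((ϖ : L) ^ n) - (ϖ : L) ^ n) := by
  induction n with
  | zero => rw [pow_zero, map_one, sub_self]; exact Le.zero
  | succ n ih =>
    have e : σ ((ϖ : L) ^ (n + 1)) - (ϖ : L) ^ (n + 1) =
        σ (ϖ : L) * (σ ((ϖ : L) ^ n) - (ϖ : L) ^ n) + (σ (ϖ : L) - (ϖ : L)) * (ϖ : L) ^ n := by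
      rw [pow_succ, map_mul]
      ring
    have h1 : Le Q 1 (σ (ϖ : L)) := (h.inv σ).2 h.pi.le
    have h2 := (h1.mul ih).mono (m := ((n + 1 : ℕ) : ℤ) + t) (by push_cast; omega)
    have h3 := (h.tt.le.mul (h.pi.pow n).le).mono (m := ((n + 1 : ℕ) : ℤ) + t)
      (by push_cast; omega)
    rw [e]
    exact h2.add h3

private theorem del_aux (j : ℕ) : ∀ (n : ℕ) (x : L), Le Q n x →
    Le Q (min ((n : ℤ) + t) ((n : ℤ) + j)) (σ x - x) := by
  induction j with
  | zero =>
    intro n x hx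
    have h1 : Le Q n (σ x) := (h.inv σ).2 hx
    exact (h1.sub hx).mono (by push_cast; omega)
  | succ j ih =>
    intro n x hx
    obtain ⟨a, ha⟩ := h.exp1 hx
    have h1 := ih (n + 1) _ (by push_cast; exact ha)
    have h2 : Le Q 0 (algebraMap k L (a : k)) :=
      ((h.up (n := 0) (a := (a : k))).2 (Le.int a)).mono (by omega)
    have h3 := (h2.mul (h.del_pi n)).mono (m := min ((n : ℤ) + t) ((n : ℤ) + (j + 1 : ℕ)))
      (by push_cast; omega)
    have h4 := h1.mono (m := min ((n : ℤ) + t) ((n : ℤ) + (j + 1 : ℕ))) (by push_cast; omega)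
    have e : σ x - x = algebraMap k L (a : k) * (σ ((ϖ : L) ^ n) - (ϖ : L) ^ n) +
        (σ (x - algebraMap k L (a : k) * (ϖ : L) ^ n) -
          (x - algebraMap k L (a : k) * (ϖ : L) ^ n)) := by
      rw [map_sub, map_mul, AlgEquiv.commutes]
      ring
    rw [e]
    exact h3.add h4

theorem Tot.del {n : ℕ} {x : L} (hx : Le Q n x) : Le Q (n + t) (σ x - x) :=
  (del_aux h t n x hx).mono (by omega)

theorem Tot.del0 {x : L} (hx : Le Q 0 x) : Le Q (t + 1) (σ x - x) := by
  obtain ⟨a, ha⟩ := h.apx hx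
  have h1 := h.del (n := 1) (by push_cast; exact ha)
  have e : σ (x - algebraMap k L (a : k)) - (x - algebraMap k L (a : k)) = σ x - x := by
    rw [map_sub, AlgEquiv.commutes]
    ring
  rw [e] at h1
  exact h1.mono (by push_cast; omega)

theorem Tot.dl_iter (j : ℕ) {n : ℕ} {x : L} (hx : Le Q n x) :
    Le Q (n + j * t) ((dl σ)^[j] x) := by
  induction j with
  | zero =>
    rw [Function.iterate_zero, id_eq]
    exact hx.mono (by push_cast; omega)
  | succ j ih =>
    rw [Function.iterate_succ_apply']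
    have h1 := h.del (n := n + j * t) (by push_cast; exact ih)
    refine h1.mono (le_of_eq ?_)
    push_cast
    ring

end

end Pool.Agent.Lib.MP_1a91b9_nuW.CF
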