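import Pool.Agent.Lib.MP_1a91b9_nuW.CF.Del

/-!
# The conductor of the ring generated by the uniformiser

PROOF.
map_eq: `v 𝓞 L = Q ^ ℓ`: `Q` is the only place above `v` (`h.uni`), of ramification index `ℓ` (`h.ram`): factorization of `v.asIdeal.map`
(e.g. `Ideal.map_algebraMap_eq_finset_prod_pow`, or `dvd_antisymm` / equality of the multiplicities at all places: a place `w ∣ v 𝓞 L` lies over `v`, so `w = Q`; multiplicity at `Q` =
`ramificationIdx`).
cond: there is `s : 𝓞 L`, `s ∉ Q`, `s ∈ conductor (𝓞 k) ϖ`. `M = 𝓞 L`, `N = Algebra.adjoin (𝓞 k) {ϖ}` as a submodule over `𝓞 k`.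
`N ⊔ v • ⊤ = ⊤`: for `x : 𝓞 L` and all `n`: there are `a_0, …, a_{n-1} : 𝓞 k` with `x - ∑ a_i ϖ ^ i ∈ Q ^ n` (`h.exp1`, induction,
`le_mem`). For `n = ℓ`: `Q ^ ℓ = v 𝓞 L` (`Q` is the only place above `v`, `h.uni`, of ramification index `ℓ`:
`Ideal.map` factorization; e.g. both sides have the same factors: `Ideal.eq_...`, or: `v.asIdeal.map = ∏ P over v, P ^ e(P)`).
Nakayama (`Submodule.exists_sub_one_mem_and_smul_eq_zero_of_fg_of_le_smul` for the `𝓞 k`-module `M ⧸ N`, finitely generated,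
`⊤ ≤ v • ⊤`): `r : 𝓞 k`, `r - 1 ∈ v`, `r • M ≤ N`. `s = algebraMap r`: `s ∉ Q` (`r ∉ v`), and `s ∈ conductor`
(`mem_conductor_iff`: for all `b`, `s b ∈ adjoin`).
-/

set_option autoImplicit false

namespace Pool.Agent.Lib.MP_1a91b9_nuW.CF

open NumberField IsDedekindDomain Pool.Agent.Lib.MP_1a91b9_nt
open Pool.Agent.Lib.MP_1a91b9_nuT Pool.Agent.Lib.MP_1a91b9_nuT.CF

universe u

section
variable {k L : Type u} [Field k] [NumberField k] [Field L] [NumberField L] [Algebra k L]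
variable [CD] {ℓ : ℕ} {v : HeightOneSpectrum (𝓞 k)} {Q : HeightOneSpectrum (𝓞 L)} {σ : Gal(L/k)}
  {ϖ : 𝓞 L} {t : ℕ} (h : Tot ℓ v Q σ ϖ t)
include h

theorem Tot.map_eq : v.asIdeal.map (algebraMap (𝓞 k) (𝓞 L)) = Q.asIdeal ^ ℓ := by
  classical
  have hv0 : v.asIdeal ≠ 0 := v.ne_bot
  haveI := v.isMaximal
  have hQ : Q.under (𝓞 k) = v := (h.uni Q).2 rfl
  have e : v.asIdeal.primesOver (𝓞 L) = {Q.asIdeal} := by
    ext P
    rw [Set.mem_singleton_iff]
    constructor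
    · rintro ⟨hP, hPv⟩
      have hP0 : P ≠ ⊥ := by
        rintro rfl
        exact hv0 (by rw [hPv.over, Ideal.under_bot]; rfl)
      have h1 : (⟨P, hP, hP0⟩ : HeightOneSpectrum (𝓞 L)).under (𝓞 k) = v := by
        apply HeightOneSpectrum.ext
        exact hPv.over.symm
      have h2 := (h.uni _).1 h1
      exact congrArg HeightOneSpectrum.asIdeal h2
    · rintro rfl
      refine ⟨Q.isPrime, ⟨?_⟩⟩
      exact (congrArg HeightOneSpectrum.asIdeal hQ).symm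
  rw [Ideal.map_algebraMap_eq_finsetProd_pow (R := 𝓞 L) hv0]
  have e2 : (v.asIdeal.primesOver (𝓞 L)).toFinset = {Q.asIdeal} := by
    ext P
    rw [Set.mem_toFinset, e, Set.mem_singleton_iff, Finset.mem_singleton]
  rw [e2, Finset.prod_singleton, h.ram]

private theorem difb_exp (n : ℕ) (x : 𝓞 L) :
    ∃ y ∈ Algebra.adjoin (𝓞 k) {ϖ}, x - y ∈ Q.asIdeal ^ n := by
  induction n with
  | zero => exact ⟨0, Subalgebra.zero_mem _, by rw [pow_zero, Ideal.one_eq_top]; trivial⟩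
  | succ n ih =>
    obtain ⟨y, hy, hxy⟩ := ih
    have h1 : Le Q n (((x - y : 𝓞 L)) : L) := (le_mem _ n).2 hxy
    obtain ⟨a, ha⟩ := h.exp1 h1
    refine ⟨y + a • ϖ ^ n, Subalgebra.add_mem _ hy (Subalgebra.smul_mem _
      (Subalgebra.pow_mem _ (Algebra.subset_adjoin (Set.mem_singleton ϖ)) n) a), ?_⟩
    rw [← le_mem]
    have e : ((x - (y + a • ϖ ^ n) : 𝓞 L) : L) =
        ((x - y : 𝓞 L) : L) - algebraMap k L (a : k) * (ϖ : L) ^ n := by
      rw [Algebra.smul_def, ← sub_sub]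
      push_cast
      rfl
    rw [e]
    push_cast
    exact ha

theorem Tot.cond : ∃ s : 𝓞 L, s ∉ Q.asIdeal ∧ s ∈ conductor (𝓞 k) ϖ := by
  classical
  set N : Submodule (𝓞 k) (𝓞 L) := Subalgebra.toSubmodule (Algebra.adjoin (𝓞 k) {ϖ}) with hN
  have h1 : (⊤ : Submodule (𝓞 k) (𝓞 L)) ≤ N ⊔ v.asIdeal • ⊤ := by
    intro x _
    obtain ⟨y, hy, hxy⟩ := difb_exp h ℓ x
    rw [← h.map_eq] at hxy
    refine Submodule.mem_sup.2 ⟨y, hy, x - y, ?_, add_sub_cancel _ _⟩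
    rw [Ideal.smul_top_eq_map]
    exact hxy
  obtain ⟨r, hr1, hr2⟩ := Submodule.exists_sub_one_mem_and_smul_le_of_fg_of_le_sup
    (I := v.asIdeal) (N := N) (N' := ⊤) (P := ⊤) Module.Finite.fg_top le_rfl h1
  have hQ : Q.under (𝓞 k) = v := (h.uni Q).2 rfl
  refine ⟨algebraMap (𝓞 k) (𝓞 L) r, ?_, ?_⟩
  · intro hr
    have h2 : r ∈ v.asIdeal := by
      rw [← hQ]
      exact hr
    have h3 : (1 : 𝓞 k) ∈ v.asIdeal := by
      have h4 := v.asIdeal.sub_mem h2 hr1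
      rwa [sub_sub_cancel] at h4
    exact v.isPrime.ne_top ((Ideal.eq_top_iff_one _).2 h3)
  · rw [mem_conductor_iff]
    intro b
    rw [← Algebra.smul_def]
    exact hr2 (Submodule.smul_mem_pointwise_smul b r ⊤ trivial)

end

end Pool.Agent.Lib.MP_1a91b9_nuW.CF
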