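import Pool.Agent.Lib.MP_1a91b9_nuW.CF.DifA
import Pool.Agent.Lib.MP_1a91b9_nuW.CF.DifB

/-!
# The different at a totally ramified place

PROOF.
dif: `conductor_mul_differentIdeal (𝓞 k) k L ϖ (adjoin k {ϖ} = ⊤)`: `conductor (𝓞 k) ϖ * differentIdeal (𝓞 k) (𝓞 L) = span
{aeval ϖ (derivative (minpoly (𝓞 k) ϖ))}`. The element `d` on the right has image `P'(ϖ)` in `L` (`minpoly.isIntegrallyClosed_
eq_field_fractions`), so `Eo Q ((ℓ-1)(t+1)) d`, so `Q ^ n ∣ span {d} ↔ n ≤ (ℓ-1)(t+1)` (`le_mem`, `Ideal.dvd_span_singleton`,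
`Eo.le_iff`). `Q` does not divide the conductor (`s`), `Q ^ n` is coprime to the conductor (`Q` prime:
`IsCoprime`/`Prime.pow_dvd_of_dvd_mul_left`): `Q ^ n ∣ conductor * different ↔ Q ^ n ∣ different`.
-/

set_option autoImplicit false

namespace Pool.Agent.Lib.MP_1a91b9_nuW.CF

open NumberField IsDedekindDomain Pool.Agent.Lib.MP_1a91b9_nt
open Pool.Agent.Lib.MP_1a91b9_nuT Pool.Agent.Lib.MP_1a91b9_nuT.CF

universe u

section
variable {k L : Type u} [Field k] [NumberField k] [Field L] [NumberField L] [Algebra k L]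
variable [CD] {ℓ : ℕ} {v : HeightOneSpectrum (𝓞 k)} {Q : HeightOneSpectrum (𝓞 L)} {σ : Gal(L/k)}
  {ϖ : 𝓞 L} {t : ℕ} (h : Tot ℓ v Q σ ϖ t)
include h

/-- The generator of the product of the conductor and the different has order `(ℓ - 1) (t + 1)`. -/
private theorem dif_eo : Eo Q (((ℓ - 1) * (t + 1) : ℕ) : ℤ)
    ((Polynomial.aeval ϖ (Polynomial.derivative (minpoly (𝓞 k) ϖ)) : 𝓞 L) : L) := by
  have h1 := h.der
  have hint : IsIntegral (𝓞 k) ϖ := Algebra.IsIntegral.isIntegral ϖ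
  have e : (Polynomial.aeval (ϖ : L) (Polynomial.derivative (minpoly k (ϖ : L))) : L) =
      ((Polynomial.aeval ϖ (Polynomial.derivative (minpoly (𝓞 k) ϖ)) : 𝓞 L) : L) := by
    have e1 : minpoly k (algebraMap (𝓞 L) L ϖ) =
        (minpoly (𝓞 k) ϖ).map (algebraMap (𝓞 k) k) :=
      minpoly.isIntegrallyClosed_eq_field_fractions k L hint
    change Polynomial.aeval (algebraMap (𝓞 L) L ϖ)
      (Polynomial.derivative (minpoly k (algebraMap (𝓞 L) L ϖ))) =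
        algebraMap (𝓞 L) L (Polynomial.aeval ϖ (Polynomial.derivative (minpoly (𝓞 k) ϖ)))
    rw [e1, Polynomial.derivative_map, Polynomial.aeval_map_algebraMap,
      Polynomial.aeval_algebraMap_apply]
  rwa [e] at h1

theorem Tot.dif (n : ℕ) : Q.asIdeal ^ n ∣ differentIdeal (𝓞 k) (𝓞 L) ↔
    n ≤ (ℓ - 1) * (t + 1) := by
  have hgal := h.gal
  have hadj : Algebra.adjoin k {algebraMap (𝓞 L) L ϖ} = ⊤ := h.adj
  have hcd := conductor_mul_differentIdeal (𝓞 k) k L ϖ hadj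
  have hQ : Prime Q.asIdeal := Q.prime
  obtain ⟨s, hs, hsc⟩ := h.cond
  have hnd : ¬ Q.asIdeal ∣ conductor (𝓞 k) ϖ := fun hd => hs (Ideal.le_of_dvd hd hsc)
  have h1 : Q.asIdeal ^ n ∣ differentIdeal (𝓞 k) (𝓞 L) ↔
      Q.asIdeal ^ n ∣ conductor (𝓞 k) ϖ * differentIdeal (𝓞 k) (𝓞 L) :=
    ⟨fun hd => hd.mul_left _, fun hd => hQ.pow_dvd_of_dvd_mul_left n hnd hd⟩
  rw [h1, hcd, Ideal.dvd_span_singleton, ← le_mem, (dif_eo h).le_iff]
  exact Nat.cast_le

end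

end Pool.Agent.Lib.MP_1a91b9_nuW.CF
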