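import Pool.Agent.Lib.MP_1a91b9_nuW.CF.Del

/-!
# The derivative of the minimal polynomial of the uniformiser

PROOF.
aut: for `τ ≠ 1` in `Gal(L/k)`: `Eo Q (t + 1) (τ ϖ - ϖ)`. (Any `ϖ`; `t` of `h`.) (i) for every `τ = σ ^ i`: `Le Q (t+1) (τ x - x)`
for all `x` with `Le Q 0 x`: induction on `i`: `σ ^ (i+1) x - x = σ (σ ^ i x - x) + (σ x - x)`, `h.inv`, `h.del0`. (ii) `τ ≠ 1`:
`τ` generates the group of prime order `ℓ` (`mem_zpowers_of_prime_card` or: `σ ∈ zpowers τ`), so `σ = τ ^ j`; `τ ϖ ≠ ϖ`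
(otherwise `σ ϖ = ϖ`, contradiction with `h.tt`), `Eo Q s (τ ϖ - ϖ)` with `s ≥ t + 1` by (i). `Tot ℓ v Q τ ϖ (s - 1)` holds
(all fields; `gen` for `τ`), so (i) for `τ` and `σ = τ ^ j`: `Le Q s (σ ϖ - ϖ)`, so `s ≤ t + 1`.
der: the minimal polynomial `P` of `(ϖ : L)` over `k`: `ϖ` is not in `k` (`Eo Q 1`; elements of `k` have order divisible by
`ℓ`, `up_eo`), `[L : k] = ℓ` is prime, so `k⟮ϖ⟯ = ⊤` (`IntermediateField.finrank_dvd...`, `Algebra.adjoin k {ϖ} = ⊤`), `P` has degree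
`ℓ` and `P.map = ∏ τ : Gal(L/k), (X - C (τ ϖ))` (all `τ ϖ` are roots (`minpoly` mapped by `τ`), they are distinct (by aut,
`τ ϖ = τ' ϖ` gives `τ⁻¹ τ' ϖ = ϖ`), monic of the same degree: `Polynomial.prod_multiset_X_sub_C_of...` or
`IsGalois`/`minpoly` lemma: `IntermediateField.minpoly...`, or `MulSemiringAction.charpoly`). Derivative at `ϖ`:
`∏ τ ∈ univ.erase 1, (ϖ - τ ϖ)` (`Polynomial.eval_derivative_prod...`, `Polynomial.derivative_prod`), which has order
`(ℓ - 1) (t + 1)` (`Eo.prod`, `Eo.neg`).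
-/

set_option autoImplicit false

namespace Pool.Agent.Lib.MP_1a91b9_nuW.CF

open NumberField IsDedekindDomain Pool.Agent.Lib.MP_1a91b9_nt
open Pool.Agent.Lib.MP_1a91b9_nuT Pool.Agent.Lib.MP_1a91b9_nuT.CF

universe u

section
variable {k L : Type u} [Field k] [NumberField k] [Field L] [NumberField L] [Algebra k L]
variable [CD] {ℓ : ℕ} {v : HeightOneSpectrum (𝓞 k)} {Q : HeightOneSpectrum (𝓞 L)} {σ : Gal(L/k)}
  {ϖ : 𝓞 L} {t : ℕ} (h : Tot ℓ v Q σ ϖ t)
include h

private theorem difa_it (i : ℕ) {x : L} (hx : Le Q 0 x) : Le Q (t + 1) ((σ ^ i) x - x) := by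
  induction i with
  | zero => rw [pow_zero, AlgEquiv.one_apply, sub_self]; exact Le.zero
  | succ i ih =>
    have e : (σ ^ (i + 1)) x - x = σ ((σ ^ i) x - x) + (σ x - x) := by
      rw [pow_succ', AlgEquiv.mul_apply, map_sub]
      ring
    rw [e]
    exact ((h.inv σ).2 ih).add (h.del0 hx)

omit [CD] in
private theorem difa_card : Nat.card Gal(L/k) = ℓ := by
  have := h.gal
  have h0 : 0 < Module.finrank k L := by rw [h.deg]; exact h.pr.pos
  have := Module.finite_of_finrank_pos h0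
  rw [IsGalois.card_aut_eq_finrank, h.deg]

theorem Tot.aut {τ : Gal(L/k)} (hτ : τ ≠ 1) : Eo Q (t + 1) (τ (ϖ : L) - (ϖ : L)) := by
  have hc := difa_card h
  have : Fact ℓ.Prime := ⟨h.pr⟩
  have hpw : ∀ ρ : Gal(L/k), ∃ j : ℕ, τ ^ j = ρ := fun ρ => by
    have h1 : ρ ∈ Submonoid.powers τ := mem_powers_of_prime_card hc hτ
    exact h1
  obtain ⟨j, hj⟩ := hpw σ
  have hne : τ (ϖ : L) - (ϖ : L) ≠ 0 := by
    intro h0
    have h1 : τ (ϖ : L) = (ϖ : L) := sub_eq_zero.1 h0
    have h2 : ∀ j : ℕ, (τ ^ j) (ϖ : L) = (ϖ : L) := by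
      intro j
      induction j with
      | zero => rw [pow_zero, AlgEquiv.one_apply]
      | succ j ih => rw [pow_succ', AlgEquiv.mul_apply, ih, h1]
    have h3 := h2 j
    rw [hj] at h3
    exact h.tt.ne_zero (sub_eq_zero.2 h3)
  obtain ⟨m, hm⟩ := exists_eo (w := Q) hne
  obtain ⟨i, _, hi⟩ := h.gen τ
  have h4 : Le Q (t + 1) (τ (ϖ : L) - (ϖ : L)) := by
    rw [hi]
    exact difa_it h i (Le.int ϖ)
  rw [hm.le_iff] at h4
  obtain ⟨s, rfl⟩ : ∃ s : ℕ, m = (s : ℤ) + 1 := ⟨(m - 1).toNat, by omega⟩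
  have hT : Tot ℓ v Q τ ϖ s :=
    { gal := h.gal
      pr := h.pr
      deg := h.deg
      uni := h.uni
      ram := h.ram
      ine := h.ine
      gen := fun ρ => by
        obtain ⟨r, hr⟩ := hpw ρ
        refine ⟨r % ℓ, Nat.mod_lt _ h.pr.pos, ?_⟩
        rw [← hr, ← hc, pow_mod_natCard]
      pi := h.pi
      tt := hm }
  have h5 : Le Q (s + 1) (σ (ϖ : L) - (ϖ : L)) := by
    rw [← hj]
    exact difa_it hT j (Le.int ϖ)
  rw [h.tt.le_iff] at h5
  have e : (s : ℤ) = t := by omega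
  rw [← e]
  exact hm

private theorem difa_top : IntermediateField.adjoin k {(ϖ : L)} = ⊤ := by
  have hp : (Module.finrank k L).Prime := by rw [h.deg]; exact h.pr
  have := IntermediateField.isSimpleOrder_of_finrank_prime k L hp
  rcases eq_bot_or_eq_top (IntermediateField.adjoin k {(ϖ : L)}) with h1 | h1
  · exfalso
    have h2 : (ϖ : L) ∈ (⊥ : IntermediateField k L) := by
      rw [← h1]
      exact IntermediateField.mem_adjoin_simple_self k _
    obtain ⟨a, ha⟩ := IntermediateField.mem_bot.1 h2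
    have ha0 : a ≠ 0 := by
      rintro rfl
      rw [map_zero] at ha
      exact h.pi.ne_zero ha.symm
    obtain ⟨n, hn⟩ := exists_eo (w := v) ha0
    have h3 := h.up_eo.2 hn
    rw [ha] at h3
    have h4 := h3.unique h.pi
    have h5 : ((ℓ : ℤ)) ∣ 1 := ⟨n, h4.symm⟩
    have h6 : ℓ ∣ 1 := by exact_mod_cast h5
    exact h.pr.one_lt.ne' (Nat.dvd_one.1 h6)
  · exact h1

theorem Tot.adj : Algebra.adjoin k {(ϖ : L)} = ⊤ := by
  have h0 : 0 < Module.finrank k L := by rw [h.deg]; exact h.pr.pos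
  have := Module.finite_of_finrank_pos h0
  exact Algebra.adjoin_eq_top_of_intermediateField
    (fun x _ => Algebra.IsAlgebraic.isAlgebraic x) (difa_top h)

theorem Tot.der : Eo Q (((ℓ - 1) * (t + 1) : ℕ) : ℤ)
    (Polynomial.aeval (ϖ : L) (Polynomial.derivative (minpoly k (ϖ : L)))) := by
  classical
  have h0 : 0 < Module.finrank k L := by rw [h.deg]; exact h.pr.pos
  have := Module.finite_of_finrank_pos h0
  have := h.gal
  have hint : IsIntegral k (ϖ : L) := Algebra.IsIntegral.isIntegral _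
  have hmo := minpoly.monic hint
  have hcd : (Finset.univ : Finset Gal(L/k)).card = ℓ := by
    rw [Finset.card_univ, ← Nat.card_eq_fintype_card]
    exact difa_card h
  have hdg : (minpoly k (ϖ : L)).natDegree = ℓ := by
    rw [← h.deg]
    exact (Field.primitive_element_iff_minpoly_natDegree_eq k (ϖ : L)).1 (difa_top h)
  have hinj : ∀ τ τ' : Gal(L/k), τ (ϖ : L) = τ' (ϖ : L) → τ = τ' := by
    intro τ τ' he
    by_contra hne
    have h1 : τ'⁻¹ * τ ≠ 1 := fun h2 => hne (by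
      have h3 := inv_mul_eq_one.1 h2
      exact h3.symm)
    have h2 := (h.aut h1).ne_zero
    apply h2
    rw [AlgEquiv.mul_apply, he, ← AlgEquiv.mul_apply, inv_mul_cancel, AlgEquiv.one_apply, sub_self]
  have hprod : (minpoly k (ϖ : L)).map (algebraMap k L) =
      ∏ τ : Gal(L/k), (Polynomial.X - Polynomial.C (τ (ϖ : L))) := by
    refine Polynomial.eq_of_monic_of_dvd_of_natDegree_le
      (Polynomial.monic_prod_of_monic Finset.univ
        (fun τ : Gal(L/k) => Polynomial.X - Polynomial.C (τ (ϖ : L)))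
        fun τ _ => Polynomial.monic_X_sub_C _)
      (hmo.map _) ?_ ?_
    · refine Finset.prod_dvd_of_coprime ?_ ?_
      · intro τ _ τ' _ hne
        exact Polynomial.isCoprime_X_sub_C_of_isUnit_sub
          (sub_ne_zero.2 fun he => hne (hinj τ τ' he)).isUnit
      · intro τ _
        have h3 := Polynomial.aeval_algHom_apply (τ : L →ₐ[k] L) (ϖ : L) (minpoly k (ϖ : L))
        rw [minpoly.aeval, map_zero] at h3
        rw [Polynomial.dvd_iff_isRoot, Polynomial.IsRoot.def, Polynomial.eval_map_algebraMap]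
        exact h3
    · rw [Polynomial.natDegree_map, hdg, Polynomial.natDegree_prod_of_monic _ _
        fun τ _ => Polynomial.monic_X_sub_C _]
      simp only [Polynomial.natDegree_X_sub_C, Finset.sum_const, smul_eq_mul, mul_one]
      rw [hcd]
  have hder : Polynomial.aeval (ϖ : L) (Polynomial.derivative (minpoly k (ϖ : L))) =
      ∏ τ ∈ (Finset.univ : Finset Gal(L/k)).erase 1, ((ϖ : L) - τ (ϖ : L)) := by
    rw [← Polynomial.eval_map_algebraMap, ← Polynomial.derivative_map, hprod,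
      ← Finset.mul_prod_erase Finset.univ _ (Finset.mem_univ (1 : Gal(L/k))),
      Polynomial.derivative_mul, Polynomial.eval_add, Polynomial.eval_mul, Polynomial.eval_mul,
      AlgEquiv.one_apply]
    simp only [Polynomial.derivative_X_sub_C, Polynomial.eval_one, one_mul, Polynomial.eval_sub,
      Polynomial.eval_X, Polynomial.eval_C, sub_self, zero_mul, add_zero, Polynomial.eval_prod]
  rw [hder]
  have h1 : Eo Q ((((Finset.univ : Finset Gal(L/k)).erase 1).card : ℤ) * ((t : ℤ) + 1))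
      (∏ τ ∈ (Finset.univ : Finset Gal(L/k)).erase 1, ((ϖ : L) - τ (ϖ : L))) := by
    refine Eo.prod fun τ hτ => ?_
    have h2 := (h.aut (Finset.ne_of_mem_erase hτ)).neg
    rwa [neg_sub] at h2
  have e : (((Finset.univ : Finset Gal(L/k)).erase 1).card : ℤ) * ((t : ℤ) + 1) =
      (((ℓ - 1) * (t + 1) : ℕ) : ℤ) := by
    rw [Finset.card_erase_of_mem (Finset.mem_univ _), hcd]
    push_cast
    ring
  rwa [e] at h1

end

end Pool.Agent.Lib.MP_1a91b9_nuW.CF
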