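import Pool.Agent.Lib.MP_1a91b9_nuW.CF.LCh

/-!
# Existence of the ray class function, any ramification

PROOF. Copy nuT/CF/ExistsX.lean (`existsx_inv`, `existsx_star`, `existsx_char`, `exists_x`; about 300 lines); the local
characters at the ramified places are now the given `c v` instead of those of `loc_ram`.
Changes. existsx_char: for `v` not completely split: `c v` if `v` is ramified (kills norms: `(hc v hr).nm`), otherwise `ord v`
modulo `ℓ` (as there). In `exists_x` `c : J → (Additive kˣ →+ ZMod ℓ)` is `fun j => if Ram L j then c j else ord j mod ℓ` (by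
classical `if`), `r : J → ZMod ℓ` from `exists_relation`; the function `r` of the statement is `fun v => if h : v ∈ J then r ⟨v, h⟩
else 0`. The last conclusion is `star` for the unit `y` (`evI_span x z y hy`): `evI x (span {z}) = ∑ᶠ v, ord v y • x v`, and the sum over
`j : J` with `if j ∈ R` of `star` is the sum over the (finite set of) ramified places (all of them are in `J`: `R ⊆ S` and a
ramified place is not `Spl`: `trichotomy`).
`x ≠ 0`: if `r j0 ≠ 0` with `j0` ramified and `x = 0`: take `z0` from `(hc j0 _).ex`; CRT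
(`IsDedekindDomain.exists_forall_sub_mem_ideal` with exponents `f v`): `z : 𝓞 k`, `z - z0 ∈ j0 ^ f j0`, `z - 1 ∈ v ^ f v` for the other
ramified `v`; `z ∉ j0` (`f j0 ≥ 1`), `c j0 z = c j0 z0 ≠ 0` (`LC.cong`), `c v z = 0` for the others (`LC.one` with `le_mem`),
so the formula gives `0 + r j0 * c j0 z = 0`: contradiction.
-/

set_option autoImplicit false

namespace Pool.Agent.Lib.MP_1a91b9_nuW.CF

open NumberField IsDedekindDomain UniqueFactorizationMonoid Pool.Agent.Lib.MP_1a91b9_nt
open Pool.Agent.Lib.MP_1a91b9_nuT Pool.Agent.Lib.MP_1a91b9_nuT.CF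
open Pool.Agent.Lib.MP_1a91b9_nuT.S4

universe u

variable [CD]

private theorem exw_star {k : Type u} [Field k] [NumberField k] (ℓ : ℕ) [Fact ℓ.Prime]
    (S J : Set (HeightOneSpectrum (𝓞 k))) (hSf : S.Finite) (hJS : J ⊆ S) [Fintype J]
    (R : Set (HeightOneSpectrum (𝓞 k)))
    (c : J → (Additive kˣ →+ ZMod ℓ))
    (hc : ∀ j : J, j.1 ∉ R → ∀ y, c j y = ((ord j.1 y : ℤ) : ZMod ℓ))
    (r : J → ZMod ℓ) (hr : ∀ y ∈ SU S, ∑ j, r j * c j y = 0)
    (π : HeightOneSpectrum (𝓞 k) → Additive kˣ) (hπ1 : ∀ v, v ∉ S → ord v (π v) = 1)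
    (hπ2 : ∀ v, v ∉ S → ∀ v', v' ∉ S → v' ≠ v → ord v' (π v) = 0)
    (x : HeightOneSpectrum (𝓞 k) → ZMod ℓ)
    (hx1 : ∀ v, v ∉ S → x v = -∑ j, r j * c j (π v))
    (hx2 : ∀ j : J, j.1 ∉ R → x j.1 = r j)
    (hx3 : ∀ v ∈ S, (v ∉ J ∨ v ∈ R) → x v = 0)
    (y : Additive kˣ) :
    ∑ᶠ v : HeightOneSpectrum (𝓞 k), ord v y • x v +
      ∑ j : J, (open Classical in if j.1 ∈ R then r j * c j y else 0) = 0 := by
  classical
  have hfin := ord_finite y
  set U : Finset (HeightOneSpectrum (𝓞 k)) := hfin.toFinset ∪ hSf.toFinset with hU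
  have h1 : ∑ᶠ v : HeightOneSpectrum (𝓞 k), ord v y • x v = ∑ v ∈ U, ord v y • x v := by
    apply finsum_eq_sum_of_support_subset
    intro v hv
    rw [hU, Finset.coe_union, Set.Finite.coe_toFinset, Set.Finite.coe_toFinset]
    left
    intro h0
    apply hv
    show ord v y • x v = 0
    rw [h0, zero_smul]
  have h2 : ∑ v ∈ U, ord v y • x v = ∑ v ∈ U.filter (· ∈ S), ord v y • x v +
      ∑ v ∈ U.filter (¬ · ∈ S), ord v y • x v :=
    (Finset.sum_filter_add_sum_filter_not U (· ∈ S) _).symm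
  have h3 : ∑ v ∈ U.filter (· ∈ S), ord v y • x v = ∑ j : J, ord j.1 y • x j.1 := by
    rw [← Finset.sum_subtype (s := J.toFinset) (fun v => Set.mem_toFinset)
      (fun v => ord v y • x v)]
    symm
    apply Finset.sum_subset
    · intro v hv
      rw [Set.mem_toFinset] at hv
      rw [Finset.mem_filter, hU, Finset.mem_union, hSf.mem_toFinset]
      exact ⟨Or.inr (hJS hv), hJS hv⟩
    · intro v hv hv'
      rw [Finset.mem_filter] at hv
      rw [Set.mem_toFinset] at hv'
      rw [hx3 v hv.2 (Or.inl hv'), smul_zero]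
  set T := U.filter (¬ · ∈ S) with hT
  set y' := y - ∑ v ∈ T, ord v y • π v with hy'
  have h4 : y' ∈ SU S := by
    intro w hw
    rw [hy', map_sub, map_sum, sub_eq_zero]
    by_cases hwT : w ∈ T
    · rw [Finset.sum_eq_single_of_mem w hwT]
      · rw [map_zsmul, hπ1 w hw, smul_eq_mul, mul_one]
      · intro v hv hvw
        rw [map_zsmul, hπ2 v ((Finset.mem_filter.1 hv).2) w hw hvw.symm, smul_zero]
    · have h5 : ord w y = 0 := by
        by_contra h6
        apply hwT
        rw [hT, Finset.mem_filter, hU, Finset.mem_union, hfin.mem_toFinset]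
        exact ⟨Or.inl h6, hw⟩
      rw [h5]
      symm
      apply Finset.sum_eq_zero
      intro v hv
      have hvw : w ≠ v := by
        rintro rfl
        exact hwT hv
      rw [map_zsmul, hπ2 v ((Finset.mem_filter.1 hv).2) w hw hvw, smul_zero]
  have h5 : ∑ j, r j * c j y = ∑ v ∈ T, ord v y • ∑ j, r j * c j (π v) := by
    have h6 := hr y' h4
    have h7 : ∀ j, c j y' = c j y - ∑ v ∈ T, ord v y • c j (π v) := by
      intro j
      rw [hy', map_sub, map_sum]
      simp only [map_zsmul]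
    simp only [h7, mul_sub, Finset.sum_sub_distrib] at h6
    rw [sub_eq_zero] at h6
    rw [h6]
    simp only [Finset.mul_sum, Finset.smul_sum]
    rw [Finset.sum_comm]
    refine Finset.sum_congr rfl fun v _ => Finset.sum_congr rfl fun j _ => ?_
    rw [mul_smul_comm]
  have h8 : ∑ v ∈ T, ord v y • x v = -∑ j, r j * c j y := by
    rw [h5, ← Finset.sum_neg_distrib]
    refine Finset.sum_congr rfl fun v hv => ?_
    rw [hx1 v (Finset.mem_filter.1 hv).2, smul_neg]
  rw [h1, h2, h3, h8]
  have h9 : ∑ j : J, ord j.1 y • x j.1 + ∑ j : J, (if j.1 ∈ R then r j * c j y else 0) =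
      ∑ j, r j * c j y := by
    rw [← Finset.sum_add_distrib]
    refine Finset.sum_congr rfl fun j _ => ?_
    by_cases hR : j.1 ∈ R
    · rw [if_pos hR, hx3 _ (hJS j.2) (Or.inr hR), smul_zero, zero_add]
    · rw [if_neg hR, hx2 j hR, hc j hR, add_zero, zsmul_eq_mul, mul_comm]
  linear_combination h9

section
variable (k L : Type u) [Field k] [NumberField k] [Field L] [NumberField L] [Algebra k L]
  [IsGalois k L] (ℓ : ℕ) [Fact ℓ.Prime]

/-- the local characters -/
private theorem exw_char (hdeg : Module.finrank k L = ℓ)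
    (f : HeightOneSpectrum (𝓞 k) → ℕ) (c : HeightOneSpectrum (𝓞 k) → (Additive kˣ →+ ZMod ℓ))
    (hc : ∀ v : HeightOneSpectrum (𝓞 k), CF.Ram L v → LC k L ℓ v (f v) (c v))
    (v : HeightOneSpectrum (𝓞 k)) (hs : ¬ CF.Spl L v) :
    ∃ c' : Additive kˣ →+ ZMod ℓ, (∀ y : Additive Lˣ, c' (nmA k L y) = 0) ∧
      (CF.Ram L v → c' = c v) ∧
      (¬ CF.Ram L v → ∀ y, c' y = ((ord v y : ℤ) : ZMod ℓ)) := by
  by_cases hr : CF.Ram L v
  · exact ⟨c v, (hc v hr).nm, fun _ => rfl, fun h => absurd hr h⟩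
  · refine ⟨(Int.castAddHom (ZMod ℓ)).comp (ord v), fun y => ?_, fun h => absurd h hr,
      fun _ y => rfl⟩
    show ((ord v (nmA k L y) : ℤ) : ZMod ℓ) = 0
    rcases trichotomy k L ℓ hdeg v with h | h | h
    · exact absurd h.1 hr
    · rw [ord_nmA, ZMod.intCast_zmod_eq_zero_iff_dvd]
      refine Finset.dvd_sum fun w _ => ?_
      rw [(h.2.2.2 w).2]
      exact dvd_mul_right _ _
    · exact absurd h.2.1 hs

end

section
variable (k L : Type u) [Field k] [NumberField k] [Field L] [NumberField L] [Algebra k L]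
  [IsGalois k L] (ℓ : ℕ) [Fact ℓ.Prime]

/-- Existence of a nonzero function on the places which vanishes at the completely split places and
at the ramified places, and its values on the principal ideals. -/
theorem exists_xw (h2 : ℓ ≠ 2) (hdeg : Module.finrank k L = ℓ)
    (f : HeightOneSpectrum (𝓞 k) → ℕ) (c : HeightOneSpectrum (𝓞 k) → (Additive kˣ →+ ZMod ℓ))
    (hc : ∀ v : HeightOneSpectrum (𝓞 k), CF.Ram L v → LC k L ℓ v (f v) (c v)) :
    ∃ x r : HeightOneSpectrum (𝓞 k) → ZMod ℓ, (∃ v, x v ≠ 0) ∧ (∀ v, CF.Ram L v → x v = 0) ∧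
      (∀ v, CF.Spl L v → x v = 0) ∧
      ∀ (z : 𝓞 k) (y : kˣ), (y : k) = (z : k) → evI x (Ideal.span {z}) +
        ∑ v ∈ (ram_finite k L).toFinset, r v * c v (Additive.ofMul y) = 0 := by
  classical
  obtain ⟨S, hSf, hRS, hSk, hSL⟩ := exists_S k L {v | CF.Ram L v} (ram_finite k L)
  have hJf : (S ∩ {v : HeightOneSpectrum (𝓞 k) | ¬ CF.Spl L v}).Finite := hSf.inter_of_left _
  generalize hJ : S ∩ {v : HeightOneSpectrum (𝓞 k) | ¬ CF.Spl L v} = J at hJf
  have hJS : J ⊆ S := by
    rw [← hJ]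
    exact Set.inter_subset_left
  have hJn : ∀ j : J, ¬ CF.Spl L j.1 := by
    intro j
    have h1 : j.1 ∈ S ∩ {v : HeightOneSpectrum (𝓞 k) | ¬ CF.Spl L v} := by
      rw [hJ]
      exact j.2
    exact h1.2
  have hRJ : ∀ v, CF.Ram L v → v ∈ J := by
    intro v hv
    rw [← hJ]
    refine ⟨hRS hv, ?_⟩
    rcases trichotomy k L ℓ hdeg v with h | h | h
    · exact h.2.1
    · exact absurd hv h.1
    · exact absurd hv h.1
  have : Fintype J := hJf.fintype
  choose c' hc1 hc2 hc3 using fun j : J => exw_char k L ℓ hdeg f c hc j.1 (hJn j)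
  have hidx := norm_index k L ℓ h2 hdeg S hSf (fun v hv => hRS hv) hSk
  rw [hJ, ← Nat.card_coe_set_eq, Nat.card_eq_fintype_card] at hidx
  obtain ⟨r, hr0, hr⟩ := exists_relation ℓ c' _ (SU S) (by
    intro j y hy
    obtain ⟨y', _, rfl⟩ := AddSubgroup.mem_map.1 hy
    exact hc1 j y') hidx
  choose! π hπ1 hπ2 using hSk
  let x : HeightOneSpectrum (𝓞 k) → ZMod ℓ := fun v =>
    if v ∈ S then (if h : v ∈ J ∧ ¬ CF.Ram L v then r ⟨v, h.1⟩ else 0)
    else -∑ j, r j * c' j (π v)
  have hx1 : ∀ v, v ∉ S → x v = -∑ j, r j * c' j (π v) := fun v hv => if_neg hv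
  have hx2 : ∀ j : J, j.1 ∉ {v : HeightOneSpectrum (𝓞 k) | CF.Ram L v} → x j.1 = r j := by
    intro j hj
    show (if j.1 ∈ S then (if h : j.1 ∈ J ∧ ¬ CF.Ram L j.1 then r ⟨j.1, h.1⟩ else 0)
      else -∑ i, r i * c' i (π j.1)) = r j
    rw [if_pos (hJS j.2), dif_pos ⟨j.2, hj⟩]
  have hx3 : ∀ v ∈ S, (v ∉ J ∨ v ∈ {v : HeightOneSpectrum (𝓞 k) | CF.Ram L v}) → x v = 0 := by
    intro v hv h
    show (if v ∈ S then (if h : v ∈ J ∧ ¬ CF.Ram L v then r ⟨v, h.1⟩ else 0)
      else -∑ j, r j * c' j (π v)) = 0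
    rw [if_pos hv, dif_neg]
    rintro ⟨h1, h3⟩
    rcases h with h | h
    · exact h h1
    · exact h3 h
  have star := exw_star ℓ S J hSf hJS {v | CF.Ram L v} c' (fun j hj => hc3 j hj) r hr π hπ1
    (fun v hv v' hv' hne => hπ2 v hv v' hv' hne) x hx1 hx2 hx3
  -- the function of the statement
  let r' : HeightOneSpectrum (𝓞 k) → ZMod ℓ := fun v => if h : v ∈ J then r ⟨v, h⟩ else 0
  have hr' : ∀ j : J, r' j.1 = r j := fun j => dif_pos j.2
  have hform : ∀ y : Additive kˣ,
      ∑ j : J, (if j.1 ∈ {v : HeightOneSpectrum (𝓞 k) | CF.Ram L v} then r j * c' j y else 0) =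
      ∑ v ∈ (ram_finite k L).toFinset, r' v * c v y := by
    intro y
    have e1 : ∑ j : J, (if j.1 ∈ {v : HeightOneSpectrum (𝓞 k) | CF.Ram L v} then
        r j * c' j y else 0) =
        ∑ j : J, (if j.1 ∈ {v : HeightOneSpectrum (𝓞 k) | CF.Ram L v} then
          r' j.1 * c j.1 y else 0) := by
      refine Finset.sum_congr rfl fun j _ => ?_
      by_cases hjR : CF.Ram L j.1
      · rw [if_pos (show j.1 ∈ {v : HeightOneSpectrum (𝓞 k) | CF.Ram L v} from hjR),
          if_pos (show j.1 ∈ {v : HeightOneSpectrum (𝓞 k) | CF.Ram L v} from hjR), hr' j, hc2 j hjR]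
      · rw [if_neg (show j.1 ∉ {v : HeightOneSpectrum (𝓞 k) | CF.Ram L v} from hjR),
          if_neg (show j.1 ∉ {v : HeightOneSpectrum (𝓞 k) | CF.Ram L v} from hjR)]
    rw [e1, ← Finset.sum_subtype (s := J.toFinset) (fun v => Set.mem_toFinset)
      (fun v => if v ∈ {v : HeightOneSpectrum (𝓞 k) | CF.Ram L v} then r' v * c v y else 0),
      ← Finset.sum_filter]
    refine Finset.sum_congr ?_ fun _ _ => rfl
    ext v
    rw [Finset.mem_filter, Set.mem_toFinset, Set.Finite.mem_toFinset]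
    exact ⟨fun h => h.2, fun h => ⟨hRJ v h, h⟩⟩
  have star' : ∀ y : Additive kˣ, ∑ᶠ v : HeightOneSpectrum (𝓞 k), ord v y • x v +
      ∑ v ∈ (ram_finite k L).toFinset, r' v * c v y = 0 := by
    intro y
    rw [← hform y]
    exact star y
  refine ⟨x, r', ?_, fun v hv => hx3 v (hRS hv) (Or.inr hv), ?_, ?_⟩
  · obtain ⟨j0, hj0⟩ := Function.ne_iff.1 hr0
    rw [Pi.zero_apply] at hj0
    by_cases hR : CF.Ram L j0.1
    · by_contra hcon
      push Not at hcon
      have hL := hc j0.1 hR
      obtain ⟨z0, hz0, _, hcz0⟩ := hL.ex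
      obtain ⟨z, hz⟩ := IsDedekindDomain.exists_forall_sub_mem_ideal (R := 𝓞 k)
        (s := (ram_finite k L).toFinset) (fun v => v.asIdeal) (fun v => f v)
        (fun v _ => v.prime) (fun v _ v' _ hne h => hne (HeightOneSpectrum.ext h))
        (fun v => if v.1 = j0.1 then z0 else 1)
      have hzj : z - z0 ∈ j0.1.asIdeal ^ f j0.1 := by
        have h1 := hz j0.1 ((Set.Finite.mem_toFinset _).2 hR)
        rwa [if_pos rfl] at h1
      have hz1 : ∀ v, CF.Ram L v → v ≠ j0.1 → z - 1 ∈ v.asIdeal ^ f v := by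
        intro v hv hne
        have h1 := hz v ((Set.Finite.mem_toFinset _).2 hv)
        rwa [if_neg hne] at h1
      have hzj1 : z - z0 ∈ j0.1.asIdeal :=
        Ideal.pow_le_self (by have := hL.pos; omega) hzj
      have hzn : z ∉ j0.1.asIdeal := by
        intro h1
        apply hz0
        have h3 := j0.1.asIdeal.sub_mem h1 hzj1
        rwa [sub_sub_cancel] at h3
      have hne : ∀ a : 𝓞 k, a ∉ j0.1.asIdeal → (a : k) ≠ 0 := by
        intro a ha h0
        apply ha
        have h1 : a = 0 := RingOfIntegers.ext h0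
        rw [h1]
        exact j0.1.asIdeal.zero_mem
      have hcc : c j0.1 (Additive.ofMul (Units.mk0 (z : k) (hne z hzn))) ≠ 0 := by
        rw [hL.cong (z := z) (z' := z0) hzn hzj (y := Units.mk0 (z : k) (hne z hzn))
          (y' := Units.mk0 (z0 : k) (hne z0 hz0)) rfl rfl]
        exact hcz0 _ rfl
      have h1 := star' (Additive.ofMul (Units.mk0 (z : k) (hne z hzn)))
      have h3 : ∑ᶠ v : HeightOneSpectrum (𝓞 k),
          ord v (Additive.ofMul (Units.mk0 (z : k) (hne z hzn))) • x v = 0 := by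
        rw [finsum_congr (g := fun _ => 0) (fun v => by rw [hcon v, smul_zero]), finsum_zero]
      rw [h3, zero_add, Finset.sum_eq_single_of_mem j0.1
        ((Set.Finite.mem_toFinset _).2 hR)] at h1
      · rw [hr' j0] at h1
        rcases mul_eq_zero.1 h1 with h4 | h4
        · exact hj0 h4
        · exact hcc h4
      · intro v hv hne'
        have hvR : CF.Ram L v := (Set.Finite.mem_toFinset _).1 hv
        have h5 : ((Units.mk0 (z : k) (hne z hzn) : kˣ) : k) - 1 = ((z - 1 : 𝓞 k) : k) := by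
          rw [Units.val_mk0]
          exact ((map_sub (algebraMap (𝓞 k) k) z 1).trans (by rw [map_one])).symm
        rw [(hc v hvR).one _ (by
          rw [h5]
          exact (le_mem (z - 1) (f v)).2 (hz1 v hvR hne')), mul_zero]
    · exact ⟨j0.1, by rw [hx2 j0 hR]; exact hj0⟩
  · intro v hv
    by_cases hvS : v ∈ S
    · refine hx3 v hvS (Or.inl ?_)
      intro hvJ
      exact hJn ⟨v, hvJ⟩ hv
    · have hcard : 0 < Fintype.card (Over L v) ∧ ∀ w : Over L v,
          w.1.asIdeal.inertiaDeg (𝓞 k) = 1 := by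
        rcases trichotomy k L ℓ hdeg v with h | h | h
        · exact absurd hv h.2.1
        · exact absurd hv h.2.1
        · rw [h.2.2.1]
          exact ⟨(Fact.out : ℓ.Prime).pos, fun w => (h.2.2.2 w).2⟩
      obtain ⟨w⟩ := Fintype.card_pos_iff.1 hcard.1
      have hwv : w.1.under (𝓞 k) = v := HeightOneSpectrum.ext w.2
      obtain ⟨y, hy1, hy2⟩ := hSL w.1 (by rw [hwv]; exact hvS)
      have h1 := star (nmA k L y)
      have h3 : ∑ j : J, (if j.1 ∈ {v : HeightOneSpectrum (𝓞 k) | CF.Ram L v} then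
          r j * c' j (nmA k L y) else 0) = 0 := by
        refine Finset.sum_eq_zero fun j _ => ?_
        rw [hc1, mul_zero, ite_self]
      rw [h3, add_zero, finsum_eq_single _ v] at h1
      · have h4 : ord v (nmA k L y) = 1 := by
          rw [ord_nmA, Finset.sum_eq_single_of_mem w (Finset.mem_univ _), hy1, hcard.2 w]
          · norm_num
          · intro w' _ hne
            rw [hy2 w'.1 (by rw [HeightOneSpectrum.ext (x := w'.1.under (𝓞 k)) (y := v) w'.2]
                             exact hvS) (fun h => hne (Subtype.ext h)), mul_zero]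
        rw [h4, one_smul] at h1
        exact h1
      · intro v' hne
        by_cases hv'S : v' ∈ S
        · by_cases hv'J : v' ∈ J ∧ ¬ CF.Ram L v'
          · have h5 := hc3 ⟨v', hv'J.1⟩ hv'J.2 (nmA k L y)
            rw [hc1] at h5
            rw [zsmul_eq_mul, ← h5, zero_mul]
          · rw [hx3 v' hv'S (by
              by_cases h6 : v' ∈ J
              · right
                by_contra h7
                exact hv'J ⟨h6, h7⟩
              · exact Or.inl h6), smul_zero]
        · have h4 : ord v' (nmA k L y) = 0 := by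
            rw [ord_nmA]
            refine Finset.sum_eq_zero fun w' _ => ?_
            have hw' : w'.1.under (𝓞 k) = v' := HeightOneSpectrum.ext w'.2
            rw [hy2 w'.1 (by rw [hw']; exact hv'S) (by
              intro h
              rw [h, hwv] at hw'
              exact hne hw'.symm), mul_zero]
          rw [h4, zero_smul]
  · intro z y hy
    rw [evI_span x z y hy]
    exact star' (Additive.ofMul y)


end

end Pool.Agent.Lib.MP_1a91b9_nuW.CF
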