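import Pool.Agent.Lib.MP_1a91b9_nuT.CF.AuxF

/-!
# Two Frobenius elements at a ramified place

PROOF (compare with `exists_aux` in nuT/CF/AuxF.lean). `q, a` from `exists_q ℓ (nrm v) (nrm v) (2 ≤ nrm v)`; `q > nrm v`, so `q ∉ v`
(copy the private `auxf_not_mem`, `auxf_two_le`). `N, ζ` from `exists_cyc k L q`, `W` from `exists_over`, `φ₀` from `exists_fr W`
(Frobenius at `W`). The inertia group `I = W.asIdeal.inertia Gal(N/k)` is not trivial: `Nat.card I = ramificationIdxIn v (𝓞 N)`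
(`Ideal.card_inertia_eq_ramificationIdxIn`, used in nuX/TG/Unr.lean `AbT.not_ram` for the shape) and this number is divisible by the
ramification index of `v` in `L` (`W.asIdeal.ramificationIdx (𝓞 k) = W.ramificationIdx (𝓞 L) * (W.under (𝓞 L)).ramificationIdx (𝓞 k)`,
`Ideal.ramificationIdx_tower` or `_algebra_tower`), which is not `1` (`Ram`; Galois: `Ideal.ramificationIdxIn_eq_ramificationIdx`). Take `ι ∈ I`, `ι ≠ 1`:
`ι • x - x ∈ W` for all `x`. For `j = 0, 1, 2`: `φ₀ ι ^ j` is a Frobenius at `W` (`(φ₀ ι^j) • x - x ^ n = φ₀ • (ι^j • x) - (ι^j • x)^n + ((ι^j • x)^n - x^n)`, both in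
`W`). `IsFr.zeta`: every Frobenius at `W` maps `ζ` to `ζ ^ nrm v` (`q ∉ W`), so `φ₀ (ι ζ) = φ₀ ζ`, `ι ζ = ζ`. By the last property of `N`: `ι` is not
trivial on `L`. The restrictions to `L` (`AlgEquiv.restrictNormalHom L`) `φ₀ ι ^ j`, `j = 0, 1, 2`, are different (the restriction
`ι_L ≠ 1` of `ι` has order `ℓ ≥ 3` in the group `Gal(L/k)` of order `ℓ`), so at least two of them are `≠ 1`: these give `φ₁`, `φ₂`.
-/

set_option autoImplicit false

namespace Pool.Agent.Lib.MP_1a91b9_nuW.CF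

open NumberField IsDedekindDomain UniqueFactorizationMonoid Pool.Agent.Lib.MP_1a91b9_nt
open Pool.Agent.Lib.MP_1a91b9_nuT Pool.Agent.Lib.MP_1a91b9_nuT.CF
open Pool.Agent.Lib.MP_1a91b9_nuT.S4

universe u

variable [CD]

section frs
variable {k : Type u} [Field k] [NumberField k]

omit [CD] in
private theorem frs_two_le (v : HeightOneSpectrum (𝓞 k)) : 2 ≤ nrm v := by
  rw [nrm_eq]
  have h0 : Ideal.absNorm v.asIdeal ≠ 0 := by
    rw [Ne, Ideal.absNorm_eq_zero_iff]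
    exact v.ne_bot
  have h1 : Ideal.absNorm v.asIdeal ≠ 1 := by
    rw [Ne, Ideal.absNorm_eq_one_iff]
    exact v.isPrime.ne_top
  omega

private theorem frs_not_mem (v : HeightOneSpectrum (𝓞 k)) (q : ℕ) (hq : q.Prime)
    (h : nrm v < q) : (q : 𝓞 k) ∉ v.asIdeal := by
  intro hm
  have h1 : ((nrm v : ℕ) : 𝓞 k) ∈ v.asIdeal := by
    rw [nrm_eq]
    exact Ideal.absNorm_mem _
  have h2 := frs_two_le v
  have hc : Nat.Coprime (nrm v) q :=
    (Nat.coprime_of_lt_prime (by omega) h hq).symm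
  have hc' : IsCoprime ((nrm v : ℕ) : ℤ) (q : ℤ) := Nat.isCoprime_iff_coprime.mpr hc
  obtain ⟨a, b, hab⟩ := hc'
  apply v.isPrime.ne_top
  rw [Ideal.eq_top_iff_one]
  have e : (1 : 𝓞 k) = (a : 𝓞 k) * ((nrm v : ℕ) : 𝓞 k) + (b : 𝓞 k) * (q : 𝓞 k) := by
    have := congrArg (Int.cast : ℤ → 𝓞 k) hab
    push_cast at this
    exact this.symm
  rw [e]
  exact Ideal.add_mem _ (Ideal.mul_mem_left _ _ h1) (Ideal.mul_mem_left _ _ hm)

omit [CD] [NumberField k] in
private theorem frs_under_nat {N : Type u} [Field N] [NumberField N] [Algebra k N]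
    (W : HeightOneSpectrum (𝓞 N)) (q : ℕ) :
    (q : 𝓞 k) ∈ (W.under (𝓞 k)).asIdeal ↔ (q : 𝓞 N) ∈ W.asIdeal := by
  change algebraMap (𝓞 k) (𝓞 N) (q : 𝓞 k) ∈ W.asIdeal ↔ _
  rw [map_natCast]

/-- an inertial automorphism at a place above a ramified place -/
private theorem frs_inert (L N : Type u) [Field L] [NumberField L] [Field N] [NumberField N]
    [Algebra k L] [Algebra k N] [Algebra L N] [IsScalarTower k L N] [IsGalois k L] [IsGalois k N]
    (v : HeightOneSpectrum (𝓞 k)) (hr : CF.Ram L v) (W : HeightOneSpectrum (𝓞 N))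
    (hW : W.under (𝓞 k) = v) :
    ∃ ι : Gal(N/k), ι ≠ 1 ∧ ∀ x : 𝓞 N, ι • x - x ∈ W.asIdeal := by
  have hgal : IsGalois L N := IsGalois.tower_top_of_isGalois k L N
  have hlo : W.asIdeal.LiesOver v.asIdeal := ⟨by rw [← hW]; rfl⟩
  have hWp : W.asIdeal.IsPrime := W.isPrime
  have hvp : v.asIdeal.IsPrime := v.isPrime
  have hvm : v.asIdeal.IsMaximal := v.isMaximal
  have hVv : (W.under (𝓞 L)).under (𝓞 k) = v := by
    rw [← hW]
    apply HeightOneSpectrum.ext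
    change (W.asIdeal.under (𝓞 L)).under (𝓞 k) = W.asIdeal.under (𝓞 k)
    rw [Ideal.under_under]
  have hlo2 : (W.under (𝓞 L)).asIdeal.LiesOver v.asIdeal := ⟨by rw [← hVv]; rfl⟩
  have hlo3 : W.asIdeal.LiesOver (W.under (𝓞 L)).asIdeal := ⟨rfl⟩
  have hVp : (W.under (𝓞 L)).asIdeal.IsPrime := (W.under (𝓞 L)).isPrime
  have hne : Nonempty ((W.under (𝓞 L)).asIdeal.primesOver (𝓞 N)) :=
    ⟨⟨W.asIdeal, hWp, hlo3⟩⟩
  have ht := Ideal.ramificationIdxIn_mul_ramificationIdxIn (p := v.asIdeal)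
    (W.under (𝓞 L)).asIdeal Gal(L/k) (𝓞 N) Gal(N/k) Gal(N/L)
  have hfin : Finite (𝓞 k ⧸ v.asIdeal) := Ideal.finiteQuotientOfFreeOfNeBot _ v.ne_bot
  have h2 := Ideal.card_inertia_eq_ramificationIdxIn (G := Gal(N/k)) v.asIdeal W.asIdeal
  have h3 : W.asIdeal.inertia Gal(N/k) ≠ ⊥ := by
    intro hb
    rw [hb] at h2
    have h4 : Nat.card (⊥ : Subgroup Gal(N/k)) = 1 := Nat.card_unique
    rw [h4, ← ht] at h2
    exact hr (Nat.eq_one_of_mul_eq_one_right h2.symm)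
  obtain ⟨ι, hι⟩ := Subgroup.ne_bot_iff_exists_ne_one.1 h3
  exact ⟨ι, fun h0 => hι (Subtype.ext h0), fun x => ι.2 x⟩

end frs

theorem exists_frobs (k L : Type u) [Field k] [NumberField k] [Field L] [NumberField L]
    [Algebra k L] [IsGalois k L] (ℓ : ℕ) [Fact ℓ.Prime] (h2 : ℓ ≠ 2)
    (hdeg : Module.finrank k L = ℓ) (v : HeightOneSpectrum (𝓞 k)) (hr : CF.Ram L v) :
    ∃ (q : ℕ) (a : (ZMod q)ˣ) (N : Type u) (_ : Field N) (_ : NumberField N) (_ : Algebra k N)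
      (_ : Algebra L N) (_ : IsScalarTower k L N) (ζ : N) (W : HeightOneSpectrum (𝓞 N))
      (φ₁ φ₂ : Gal(N/k)), q.Prime ∧ ℓ ∣ orderOf a ∧ (q : 𝓞 k) ∉ v.asIdeal ∧
      (nrm v : ZMod q) = a ∧ IsGalois k N ∧ IsPrimitiveRoot ζ q ∧
      (∀ φ : Gal(N/k), (∀ x : L, φ (algebraMap L N x) = algebraMap L N x) → φ ζ = ζ → φ = 1) ∧
      W.under (𝓞 k) = v ∧ IsFr v W φ₁ ∧ IsFr v W φ₂ ∧
      (∃ x : L, φ₁ (algebraMap L N x) ≠ algebraMap L N x) ∧
      (∃ x : L, φ₂ (algebraMap L N x) ≠ algebraMap L N x) ∧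
      (∃ x : L, φ₁ (algebraMap L N x) ≠ φ₂ (algebraMap L N x)) := by
  classical
  have hne2 : ℓ ≠ 2 := h2
  have hℓ : ℓ.Prime := Fact.out
  obtain ⟨q, hq, hBq, a, ha, hord⟩ := exists_q ℓ hℓ (nrm v) (nrm v) (frs_two_le v)
  obtain ⟨N, iN, nN, akN, aLN, tkLN, ζ, hgalN, hζ, hdet⟩ := exists_cyc k L q hq
  obtain ⟨W, hW⟩ := exists_over (N := N) v
  obtain ⟨φ, hφ⟩ := exists_fr (k := k) W
  rw [hW] at hφ
  have hqv : (q : 𝓞 k) ∉ v.asIdeal := frs_not_mem v q hq hBq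
  have hqW : (q : 𝓞 N) ∉ W.asIdeal := by
    rw [← frs_under_nat (k := k), hW]
    exact hqv
  obtain ⟨ι, hι1, hι⟩ := frs_inert L N v hr W hW
  -- products with inertial elements are Frobenius elements
  have hmul : ∀ ψ : Gal(N/k), IsFr v W ψ → IsFr v W (ψ * ι) := by
    intro ψ hψ x
    have e1 := hψ (ι • x)
    have e2 : (ι • x) ^ nrm v - x ^ nrm v ∈ W.asIdeal :=
      W.asIdeal.mem_of_dvd (sub_dvd_pow_sub_pow _ _ _) (hι x)
    have e3 := W.asIdeal.add_mem e1 e2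
    rw [sub_add_sub_cancel] at e3
    rw [mul_smul]
    exact e3
  have h1 := hmul φ hφ
  have h2 := hmul _ h1
  have hz0 : φ ζ = ζ ^ nrm v := hφ.zeta hW q hqW ζ hζ.pow_eq_one
  have hz1 : (φ * ι) ζ = ζ ^ nrm v := h1.zeta hW q hqW ζ hζ.pow_eq_one
  have hιζ : ι ζ = ζ := by
    rw [AlgEquiv.mul_apply, ← hz0] at hz1
    exact φ.injective hz1
  have hιL : ∃ x : L, ι (algebraMap L N x) ≠ algebraMap L N x := by
    by_contra hcon
    push Not at hcon
    exact hι1 (hdet ι hcon hιζ)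
  -- restriction to `L`
  let ρ : Gal(N/k) →* Gal(L/k) := AlgEquiv.restrictNormalHom L
  have hρ : ∀ (ψ : Gal(N/k)) (x : L), algebraMap L N (ρ ψ x) = ψ (algebraMap L N x) :=
    fun ψ x => AlgEquiv.restrictNormal_commutes ψ L x
  have hρne : ∀ ψ ψ' : Gal(N/k), ρ ψ ≠ ρ ψ' →
      ∃ x : L, ψ (algebraMap L N x) ≠ ψ' (algebraMap L N x) := by
    intro ψ ψ' h
    by_contra hcon
    push Not at hcon
    apply h
    ext x
    apply (algebraMap L N).injective
    rw [hρ, hρ]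
    exact hcon x
  have hρne1 : ∀ ψ : Gal(N/k), ρ ψ ≠ 1 →
      ∃ x : L, ψ (algebraMap L N x) ≠ algebraMap L N x := by
    intro ψ h
    have := hρne ψ 1 (by rwa [map_one])
    exact this
  have hι' : ρ ι ≠ 1 := by
    obtain ⟨x, hx⟩ := hιL
    intro h0
    apply hx
    rw [← hρ, h0]
    rfl
  have hι2 : ρ ι * ρ ι ≠ 1 := by
    intro h0
    have hc : Nat.card Gal(L/k) = ℓ := by
      rw [IsGalois.card_aut_eq_finrank, hdeg]
    have ho : orderOf (ρ ι) = ℓ := by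
      rw [← hc]
      have hp : (Nat.card Gal(L/k)).Prime := by rw [hc]; exact hℓ
      have hd : orderOf (ρ ι) ∣ Nat.card Gal(L/k) := orderOf_dvd_natCard _
      rcases (Nat.dvd_prime hp).1 hd with h | h
      · exact absurd (orderOf_eq_one_iff.1 h) hι'
      · exact h
    have h3 : ℓ ∣ 2 := by
      rw [← ho]
      apply orderOf_dvd_of_pow_eq_one
      rw [pow_two]
      exact h0
    rcases (Nat.dvd_prime Nat.prime_two).1 h3 with h | h
    · exact hℓ.one_lt.ne' h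
    · exact hne2 h
  by_cases c0 : ρ φ = 1
  · refine ⟨q, a, N, iN, nN, akN, aLN, tkLN, ζ, W, φ * ι, φ * ι * ι, hq, hord, hqv, ha.symm,
      hgalN, hζ, hdet, hW, h1, h2, ?_, ?_, ?_⟩
    · apply hρne1
      rw [map_mul, c0, one_mul]
      exact hι'
    · apply hρne1
      rw [map_mul, map_mul, c0, one_mul]
      exact hι2
    · apply hρne
      simp only [map_mul, c0, one_mul]
      intro h
      exact hι' (mul_left_cancel (a := ρ ι) (by rw [← h, mul_one]))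
  · by_cases c1 : ρ (φ * ι) = 1
    · refine ⟨q, a, N, iN, nN, akN, aLN, tkLN, ζ, W, φ, φ * ι * ι, hq, hord, hqv, ha.symm,
        hgalN, hζ, hdet, hW, hφ, h2, ?_, ?_, ?_⟩
      · exact hρne1 _ c0
      · apply hρne1
        rw [map_mul, c1, one_mul]
        exact hι'
      · apply hρne
        intro h
        simp only [map_mul, mul_assoc] at h
        exact hι2 (mul_left_cancel (a := ρ φ) (by rw [← h, mul_one]))
    · refine ⟨q, a, N, iN, nN, akN, aLN, tkLN, ζ, W, φ, φ * ι, hq, hord, hqv, ha.symm,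
        hgalN, hζ, hdet, hW, hφ, h1, ?_, ?_, ?_⟩
      · exact hρne1 _ c0
      · exact hρne1 _ c1
      · apply hρne
        intro h
        rw [map_mul] at h
        exact hι' (mul_left_cancel (a := ρ φ) (by rw [← h, mul_one]))


end Pool.Agent.Lib.MP_1a91b9_nuW.CF
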