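import Pool.Agent.Lib.MP_1a91b9_nuW.CF.Le

/-!
# Agreement of ray class functions

PROOF.
rc_agree: `w` with `n ≤ w`: both are `0` (`RC.zero`). Otherwise choose `z : 𝓞 F` with `z - 1 ∈ n`, `z ∈ w`, `z ∉ w ^ 2`, and `z ∉ w'` for all the (finitely
many) places `w' ≠ w` with `m ≤ w'`: CRT (`IsDedekindDomain.exists_forall_sub_mem_ideal`) for the finite set of places `w'`
with `n ≤ w'` or `m ≤ w'` or `w' = w`: modulo `w ^ 2`: `z = ϖ` (`ϖ ∈ w`, `ϖ ∉ w ^ 2`), modulo `w' ^ N` (`N` large with `∏ w' ^ N ≤ n` over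
the places dividing `n`: `n = ∏ w' ^ (count)`, so `z - 1 ∈ w' ^ count` for all gives `z - 1 ∈ n`: e.g. `IsDedekindDomain.inf_prime_pow_eq_prod` and
`Ideal.finprod_heightOneSpectrum_factorization`; or simpler: `n` and `w ^ 2 * ∏ w'` (over the `w' ≠ w` with `m ≤ w'`, `¬ n ≤ w'`) are
coprime ideals, so there is `z` with `z - 1 ∈ n` and `z ≡ ρ` modulo the second, `ρ` from CRT with distinct places). `z ≠ 0`.
`evI x (span {z}) = 0 = evI y (span {z})`. `span {z} = w * J`, `J` not divisible by `w` nor by the `w'` with `m ≤ w'`: `evI_mul`, `evI_place`;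
`evI x J = evI y J` (all the factors `w''` of `J` satisfy `¬ m ≤ w''` or `n ≤ w''`(excluded, as `z - 1 ∈ n`): multiset map congr as in
`RC.le` of nuT/CF/RayFun.lean). So `x w = y w`.
-/

set_option autoImplicit false

namespace Pool.Agent.Lib.MP_1a91b9_nuW.CF

open NumberField IsDedekindDomain UniqueFactorizationMonoid Pool.Agent.Lib.MP_1a91b9_nt
open Pool.Agent.Lib.MP_1a91b9_nuT Pool.Agent.Lib.MP_1a91b9_nuT.CF
open Pool.Agent.Lib.MP_1a91b9_nuT.S4

universe u

variable [CD]

section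
variable {F : Type u} [Field F] [NumberField F] {A : Type*} [CommRing A]

/-- an element congruent to one modulo `n`, of order exactly one at `w`, and prime to the other
places dividing `m` -/
private theorem rcA_elem {n m : Ideal (𝓞 F)} (hn : n ≠ 0) (hm : m ≠ 0)
    (w : HeightOneSpectrum (𝓞 F)) (hw : ¬ n ≤ w.asIdeal) :
    ∃ z : 𝓞 F, z ≠ 0 ∧ z - 1 ∈ n ∧ z ∈ w.asIdeal ∧ z ∉ w.asIdeal * w.asIdeal ∧
      ∀ w' : HeightOneSpectrum (𝓞 F), w' ≠ w → m ≤ w'.asIdeal → z ∉ w'.asIdeal := by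
  classical
  have hfin : {v : HeightOneSpectrum (𝓞 F) | v.asIdeal ∣ m}.Finite := Ideal.finite_factors hm
  set T : Finset (HeightOneSpectrum (𝓞 F)) :=
    insert w (hfin.toFinset.filter fun v => ¬ n ≤ v.asIdeal) with hT
  have hTn : ∀ v ∈ T, ¬ n ≤ v.asIdeal := by
    intro v hv
    rcases Finset.mem_insert.1 hv with rfl | hv
    · exact hw
    · exact (Finset.mem_filter.1 hv).2
  obtain ⟨p, hp1, hp2⟩ := Ideal.exists_mem_pow_notMem_pow_succ w.asIdeal w.ne_bot
    w.isPrime.ne_top 1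
  rw [pow_one] at hp1
  obtain ⟨y, hy⟩ := IsDedekindDomain.exists_forall_sub_mem_ideal (R := 𝓞 F) (s := T)
    (fun v => v.asIdeal) (fun _ => 2) (fun v _ => v.prime)
    (fun v _ v' _ hne he => hne (HeightOneSpectrum.ext he)) (fun v => if v.1 = w then p else 1)
  have hcop : IsCoprime n (∏ v ∈ T, v.asIdeal ^ 2) := by
    refine IsCoprime.prod_right fun v hv => IsCoprime.pow_right ?_
    rw [Ideal.isCoprime_iff_sup_eq]
    by_contra hne
    have hmax : v.asIdeal.IsMaximal := v.isMaximal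
    have := hmax.eq_of_le hne le_sup_right
    exact hTn v hv (by rw [this]; exact le_sup_left)
  obtain ⟨a, ha, b, hb, hab⟩ := Ideal.isCoprime_iff_exists.1 hcop
  have hsub : ∀ v ∈ T, a * y + b - (if v = w then p else 1) ∈ v.asIdeal ^ 2 := by
    intro v hv
    have h1 : y - (if v = w then p else 1) ∈ v.asIdeal ^ 2 := hy v hv
    have h2 : b ∈ v.asIdeal ^ 2 := by
      have : (∏ v ∈ T, v.asIdeal ^ 2) ≤ v.asIdeal ^ 2 :=
        Ideal.le_of_dvd (Finset.dvd_prod_of_mem _ hv)
      exact this hb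
    have e : a * y + b - (if v = w then p else 1) =
        (y - (if v = w then p else 1)) + b * (1 - y) := by
      have : a = 1 - b := by rw [← hab]; ring
      rw [this]
      ring
    rw [e]
    exact Ideal.add_mem _ h1 (Ideal.mul_mem_right _ _ h2)
  have hwT : w ∈ T := Finset.mem_insert_self _ _
  have hw1 : a * y + b - p ∈ w.asIdeal ^ 2 := by
    have := hsub w hwT
    rwa [if_pos rfl] at this
  have hnot : a * y + b ∉ w.asIdeal ^ 2 := by
    intro hmem
    apply hp2
    have e : p = (a * y + b) - (a * y + b - p) := by ring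
    have : p ∈ w.asIdeal ^ 2 := by
      rw [e]
      exact Ideal.sub_mem _ hmem hw1
    exact this
  refine ⟨a * y + b, ?_, ?_, ?_, ?_, ?_⟩
  · intro h0
    apply hnot
    rw [h0]
    exact Ideal.zero_mem _
  · have e : a * y + b - 1 = a * (y - 1) := by
      linear_combination hab
    rw [e]
    exact Ideal.mul_mem_right _ _ ha
  · have e : a * y + b = (a * y + b - p) + p := by ring
    rw [e]
    exact Ideal.add_mem _ (Ideal.pow_le_self two_ne_zero hw1) hp1
  · rw [← pow_two]
    exact hnot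
  · intro w' hne hle hmem
    by_cases hnw : n ≤ w'.asIdeal
    · have h1 : a * y + b - 1 ∈ w'.asIdeal := by
        apply hnw
        have e : a * y + b - 1 = a * (y - 1) := by
          linear_combination hab
        rw [e]
        exact Ideal.mul_mem_right _ _ ha
      apply w'.isPrime.ne_top
      rw [Ideal.eq_top_iff_one]
      have e : (1 : 𝓞 F) = (a * y + b) - (a * y + b - 1) := by ring
      rw [e]
      exact Ideal.sub_mem _ hmem h1
    · have hT' : w' ∈ T := by
        refine Finset.mem_insert_of_mem (Finset.mem_filter.2 ⟨?_, hnw⟩)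
        rw [Set.Finite.mem_toFinset]
        exact Ideal.dvd_iff_le.2 hle
      have h1 : a * y + b - 1 ∈ w'.asIdeal ^ 2 := by
        have := hsub w' hT'
        rwa [if_neg hne] at this
      apply w'.isPrime.ne_top
      rw [Ideal.eq_top_iff_one]
      have e : (1 : 𝓞 F) = (a * y + b) - (a * y + b - 1) := by ring
      rw [e]
      exact Ideal.sub_mem _ hmem (Ideal.pow_le_self two_ne_zero h1)

/-- two ray class functions with the same modulus which agree outside of a finite set are equal -/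
theorem rc_agree {n m : Ideal (𝓞 F)} (hn : n ≠ 0) (hm : m ≠ 0)
    {x y : HeightOneSpectrum (𝓞 F) → A} (hx : RC n x) (hy : RC n y)
    (h : ∀ w : HeightOneSpectrum (𝓞 F), ¬ m ≤ w.asIdeal → x w = y w)
    (w : HeightOneSpectrum (𝓞 F)) : x w = y w := by
  by_cases hw : n ≤ w.asIdeal
  · rw [hx.zero w hw, hy.zero w hw]
  obtain ⟨z, hz0, hz1, hzw, hzw2, hzT⟩ := rcA_elem hn hm w hw
  obtain ⟨J, hJ⟩ := Ideal.dvd_span_singleton.2 hzw
  have hs0 : Ideal.span {z} ≠ (0 : Ideal (𝓞 F)) := by
    rw [Ne, Ideal.zero_eq_bot, Ideal.span_singleton_eq_bot]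
    exact hz0
  have hJ0 : J ≠ 0 := by
    rintro rfl
    exact hs0 (by rw [hJ, mul_zero])
  have hw0 : w.asIdeal ≠ 0 := w.ne_bot
  have hwJ : ¬ w.asIdeal ∣ J := by
    rintro ⟨K, rfl⟩
    apply hzw2
    rw [← Ideal.dvd_span_singleton, hJ]
    exact ⟨K, by ring⟩
  have e1 : x w + evI x J = 0 := by
    rw [← evI_place x w, ← evI_mul x _ _ hw0 hJ0, ← hJ]
    exact hx.princ z hz0 hz1
  have e2 : y w + evI y J = 0 := by
    rw [← evI_place y w, ← evI_mul y _ _ hw0 hJ0, ← hJ]
    exact hy.princ z hz0 hz1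
  have e3 : evI x J = evI y J := by
    unfold evI
    congr 1
    refine Multiset.map_congr rfl (fun P hP => ?_)
    have hPp : P.IsPrime := Ideal.isPrime_of_prime (prime_of_normalized_factor P hP)
    have hP0 : P ≠ ⊥ := (prime_of_normalized_factor P hP).ne_zero
    have hdvd : P ∣ J := dvd_of_mem_normalizedFactors hP
    have hzP : z ∈ P := by
      rw [← Ideal.dvd_span_singleton, hJ]
      exact Dvd.dvd.mul_left hdvd _
    have hne : (⟨P, hPp, hP0⟩ : HeightOneSpectrum (𝓞 F)) ≠ w := by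
      intro he
      apply hwJ
      rw [← he]
      exact hdvd
    have hmP : ¬ m ≤ P := fun hle => hzT ⟨P, hPp, hP0⟩ hne hle hzP
    have a1 : atI x P = x ⟨P, hPp, hP0⟩ := atI_place x (⟨P, hPp, hP0⟩ : HeightOneSpectrum (𝓞 F))
    have a2 : atI y P = y ⟨P, hPp, hP0⟩ := atI_place y (⟨P, hPp, hP0⟩ : HeightOneSpectrum (𝓞 F))
    rw [a1, a2]
    exact h _ hmP
  rw [e3] at e1
  exact add_right_cancel (e1.trans e2.symm)

end

end Pool.Agent.Lib.MP_1a91b9_nuW.CF
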