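import Pool.Agent.Lib.MP_1a91b9_nuW.CF.TrkW
import Pool.Agent.Lib.MP_1a91b9_nuW.CF.RcA

/-!
# The constant of a Frobenius element at a place where `x` has no local component

PROOF. `w₀ = W.under (𝓞 E)`: `w₀.under k = v` (`auxf_under_under`), `f(w₀/k) = 1` (`fr_fix (L := E) W φ (nrm v) 1 v` as in `exists_aux`, first bullet: `φ` fixes `E` by `h.memE`), `nrm w₀ = nrm v = a ^ 1`,
`q ∉ w₀` (`q ∉ v`). `x'E w = f(w/k) x'(w.under k)`: `RC (n 𝓞_E)` (`rc_norm k E n x' hx'`). `A` from `rc_cyc E ℓ q h2 hq a ha (h.nrm ..)`: `RC (q)`. `n_E = (n 𝓞_E) (q) ≠ 0`. `X' w = if n_E ≤ w then 0 else x'E w`, `A' w = if n_E ≤ w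
then 0 else κ * A w`: both `RC n_E` (`RC.le`, `RC.lin`). They agree at all `w` with `¬ m_E ≤ w`, `m_E = (m 𝓞_E)(q) (v.asIdeal 𝓞_E)` (`m_E ≤ w ↔ m ≤ w.under ∨ q ∈ w ∨ v ≤ w.under`): there `w.under ≠ v`, `x' (w.under) = x (w.under)`, and `hκ` with
`A w = i`, `nrm w = a ^ i` (`h.nrm`). `rc_agree`: they agree at `w₀`: `¬ n_E ≤ w₀` (`¬ n ≤ v`, `q ∉ w₀`): `1 * x' v = κ * A w₀ = κ * 1`.
-/

set_option autoImplicit false

namespace Pool.Agent.Lib.MP_1a91b9_nuW.CF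

open NumberField IsDedekindDomain UniqueFactorizationMonoid Pool.Agent.Lib.MP_1a91b9_nt
open Pool.Agent.Lib.MP_1a91b9_nuT Pool.Agent.Lib.MP_1a91b9_nuT.CF
open Pool.Agent.Lib.MP_1a91b9_nuT.S4

universe u

section
variable {k E : Type u} [Field k] [NumberField k] [Field E] [NumberField E] [Algebra k E]

private theorem kae_le (m : Ideal (𝓞 k)) (q : ℕ) (w : HeightOneSpectrum (𝓞 E)) :
    m.map (algebraMap (𝓞 k) (𝓞 E)) * Ideal.span {(q : 𝓞 E)} ≤ w.asIdeal ↔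
      (m ≤ (w.under (𝓞 k)).asIdeal ∨ (q : 𝓞 E) ∈ w.asIdeal) := by
  rw [Ideal.IsPrime.mul_le w.isPrime, Ideal.map_le_iff_le_comap, Ideal.span_singleton_le_iff_mem]
  rfl

private theorem kae_ne (m : Ideal (𝓞 k)) (hm : m ≠ 0) (q : ℕ) (hq : q ≠ 0) :
    m.map (algebraMap (𝓞 k) (𝓞 E)) * Ideal.span {(q : 𝓞 E)} ≠ 0 := by
  refine mul_ne_zero ?_ ?_
  · intro h
    apply hm
    have h1 := (Ideal.map_eq_bot_iff_of_injective
      (FaithfulSMul.algebraMap_injective (𝓞 k) (𝓞 E))).1 h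
    exact h1
  · intro h
    have h1 : (q : 𝓞 E) = 0 := Ideal.span_singleton_eq_bot.1 h
    exact hq (by exact_mod_cast h1)

private theorem kae_norm (w : HeightOneSpectrum (𝓞 E)) :
    nrm w = nrm (w.under (𝓞 k)) ^ w.asIdeal.inertiaDeg (𝓞 k) := by
  have hlo : w.asIdeal.LiesOver (w.under (𝓞 k)).asIdeal := ⟨rfl⟩
  rw [nrm_eq, nrm_eq, Ideal.absNorm_pow_inertiaDeg (w.under (𝓞 k)).asIdeal w.asIdeal]

private theorem kae_nat (q : ℕ) (w : HeightOneSpectrum (𝓞 E)) :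
    (q : 𝓞 k) ∈ (w.under (𝓞 k)).asIdeal ↔ (q : 𝓞 E) ∈ w.asIdeal := by
  show algebraMap (𝓞 k) (𝓞 E) (q : 𝓞 k) ∈ w.asIdeal ↔ _
  rw [map_natCast]

end

section
variable {k E N : Type u} [Field k] [NumberField k] [Field E] [NumberField E] [Field N]
  [NumberField N] [Algebra k E] [Algebra k N] [Algebra E N] [IsScalarTower k E N]

private theorem kae_under_under (W : HeightOneSpectrum (𝓞 N)) :
    (W.under (𝓞 E)).under (𝓞 k) = W.under (𝓞 k) := by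
  apply HeightOneSpectrum.ext
  change (W.asIdeal.under (𝓞 E)).under (𝓞 k) = W.asIdeal.under (𝓞 k)
  rw [Ideal.under_under]

end

section
variable {k L N : Type u} [Field k] [NumberField k] [Field L] [NumberField L]
    [Field N] [NumberField N] [Algebra k L] [Algebra k N] [Algebra L N] [IsScalarTower k L N]
variable {ℓ : ℕ} {φ : Gal(N/k)} {E E1 : Type u} [Field E] [NumberField E] [Field E1]
    [NumberField E1] [Algebra k E] [Algebra k E1] [Algebra E E1] [Algebra E N] [Algebra E1 N]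
    [Algebra L E1] [IsScalarTower k E E1] [IsScalarTower k E N] [IsScalarTower k E1 N]
    [IsScalarTower E E1 N] [IsScalarTower k L E1] [IsScalarTower L E1 N]
    (h : Fx k L N ℓ φ E E1) [CD] [IsGalois k L] [IsGalois k N] [Fact ℓ.Prime]
    {q : ℕ} (hq : q.Prime) {a : (ZMod q)ˣ} (ha : ℓ ∣ orderOf a)
    {v : HeightOneSpectrum (𝓞 k)} (hn : (nrm v : ZMod q) = a) {ζ : N} (hζ : IsPrimitiveRoot ζ q)
    (hφζ : φ ζ = ζ ^ nrm v)

include h hq ha hn hζ hφζ in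
theorem kappa_eq (h2 : ℓ ≠ 2) (hqv : (q : 𝓞 k) ∉ v.asIdeal) {W : HeightOneSpectrum (𝓞 N)}
    (hW : W.under (𝓞 k) = v) (hφ : IsFr v W φ) {m n : Ideal (𝓞 k)} (hm : m ≠ 0) (hn0 : n ≠ 0)
    (hnv : ¬ n ≤ v.asIdeal) {x x' : HeightOneSpectrum (𝓞 k) → ZMod ℓ} (hx' : RC n x')
    (hxx : ∀ w, w ≠ v → x' w = x w) {κ : ZMod ℓ}
    (hκ : ∀ w : HeightOneSpectrum (𝓞 E), (q : 𝓞 E) ∉ w.asIdeal →
      ¬ m ≤ (w.under (𝓞 k)).asIdeal → ∀ i : ℕ,
      (nrm w : ZMod q) = ((a ^ i : (ZMod q)ˣ) : ZMod q) →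
      (w.asIdeal.inertiaDeg (𝓞 k) : ZMod ℓ) * x (w.under (𝓞 k)) = κ * i) : x' v = κ := by
  classical
  have hw₀ : (W.under (𝓞 E)).under (𝓞 k) = v := by rw [kae_under_under, hW]
  have hdeg₀ : (W.under (𝓞 E)).asIdeal.inertiaDeg (𝓞 k) = 1 := by
    have h1 := fr_fix (L := E) W φ (nrm v) 1 v hW (pow_one _).symm one_pos hφ
      (fun x => (h.memE _).mp ⟨x, rfl⟩)
    exact Nat.dvd_one.mp h1
  obtain ⟨A, hA, hAi⟩ := rc_cyc E ℓ q h2 hq a ha (fun w hw => h.nrm hq hn hζ hφζ w hw)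
  have hxE := rc_norm k E n x' hx'
  set nE : Ideal (𝓞 E) := n.map (algebraMap (𝓞 k) (𝓞 E)) * Ideal.span {(q : 𝓞 E)} with hnE
  have hnle : ∀ w : HeightOneSpectrum (𝓞 E), nE ≤ w.asIdeal ↔
      (n ≤ (w.under (𝓞 k)).asIdeal ∨ (q : 𝓞 E) ∈ w.asIdeal) := kae_le (E := E) n q
  have hnE0 : nE ≠ 0 := kae_ne (E := E) n hn0 q hq.ne_zero
  set X : HeightOneSpectrum (𝓞 E) → ZMod ℓ := fun w => if nE ≤ w.asIdeal then 0 else
    (w.asIdeal.inertiaDeg (𝓞 k) : ZMod ℓ) * x' (w.under (𝓞 k)) with hXdef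
  set A' : HeightOneSpectrum (𝓞 E) → ZMod ℓ := fun w => if nE ≤ w.asIdeal then 0 else
    κ * A w + 0 * A w with hAdef
  have hX : RC nE X := hxE.le Ideal.mul_le_left (fun w hw => by
    simp only [hXdef]
    rw [if_neg hw]) (fun w hw => by
    simp only [hXdef]
    rw [if_pos hw])
  have hA' : RC nE A' := (RC.lin hA hA κ 0).le Ideal.mul_le_right (fun w hw => by
    simp only [hAdef]
    rw [if_neg hw]) (fun w hw => by
    simp only [hAdef]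
    rw [if_pos hw])
  have hmv0 : m * v.asIdeal ≠ 0 := mul_ne_zero hm v.ne_bot
  have hmE0 : (m * v.asIdeal).map (algebraMap (𝓞 k) (𝓞 E)) * Ideal.span {(q : 𝓞 E)} ≠ 0 :=
    kae_ne (E := E) (m * v.asIdeal) hmv0 q hq.ne_zero
  have hw₀n : ¬ nE ≤ (W.under (𝓞 E)).asIdeal := by
    rw [hnle, hw₀]
    rintro (h3 | h3)
    · exact hnv h3
    · exact hqv (by rw [← hw₀, kae_nat]; exact h3)
  have hqw₀ : (q : 𝓞 E) ∉ (W.under (𝓞 E)).asIdeal := fun h3 => hw₀n ((hnle _).2 (Or.inr h3))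
  have key := rc_agree hnE0 hmE0 hX hA' (fun w hw => by
    rw [kae_le, Ideal.IsPrime.mul_le (w.under (𝓞 k)).isPrime] at hw
    push Not at hw
    obtain ⟨⟨hw1, hw2⟩, hw3⟩ := hw
    simp only [hXdef, hAdef]
    by_cases h4 : nE ≤ w.asIdeal
    · rw [if_pos h4, if_pos h4]
    · rw [if_neg h4, if_neg h4]
      obtain ⟨i, hi⟩ := h.nrm hq hn hζ hφζ w hw3
      have hwv : w.under (𝓞 k) ≠ v := by
        intro h5
        rw [h5] at hw2
        exact hw2 le_rfl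
      rw [hxx _ hwv, hκ w hw3 hw1 i hi, hAi w hw3 i hi, zero_mul, add_zero]) (W.under (𝓞 E))
  simp only [hXdef, hAdef] at key
  rw [if_neg hw₀n, if_neg hw₀n, hdeg₀, hw₀, hAi _ hqw₀ 1 (by
    rw [kae_norm (k := k) (W.under (𝓞 E)), hdeg₀, pow_one, hw₀, hn, pow_one])] at key
  simpa using key

end

end Pool.Agent.Lib.MP_1a91b9_nuW.CF
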