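import Pool.Agent.Lib.MP_1a91b9_nuW.CF.Le

/-!
# Extension of a ray class function to a place

PROOF.
ext_at: `π : 𝓞 F` with `π ∈ v`, `π ∉ v ^ 2`, `π - 1 ∈ n` (`n` and `v ^ 2` are coprime as `¬ n ≤ v`). `x' w = x w` for `w ≠ v`, `x' v = - evI x (span {π})`.
For an ideal `I ≠ 0` with `I = v ^ j * J`, `v` not dividing `J`: `evI x' I = j * x' v + evI x J` and `evI x I = evI x J` (`x v = 0`).
RC.zero: `n ≤ w`, so `w ≠ v`. princ: `z ≠ 0`, `z - 1 ∈ n`, `j` = multiplicity of `v` in `span {z}`. The ideal `span {π ^ j} = v ^ j * A`, `v` not dividing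
`A`; `A` is coprime to `n` (contains... `π ^ j - 1 ∈ n`) and to `v`. CRT: `s : 𝓞 F` with `s ∈ A`, `s - 1 ∈ n`, `s - 1 ∈ v` (`A` coprime to `n * v`).
`s z ∈ A * v ^ j = span {π ^ j}`: `s z = π ^ j t`. Then `s ∉ v`, `t ∉ v` (`s z` has multiplicity exactly `j` at `v`), `t - 1 ∈ n`
(`π ^ j t - 1 = s z - 1 ∈ n` and `π ^ j - 1 ∈ n`), `s, t ≠ 0`: hypothesis `h`: `evI x (span {s}) = 0 = evI x (span {t})`, so `evI x (span {z}) = j *
evI x (span {π})`, and `evI x' (span {z}) = evI x (span {z}) + j * x' v = 0`.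
-/

set_option autoImplicit false

namespace Pool.Agent.Lib.MP_1a91b9_nuW.CF

open NumberField IsDedekindDomain UniqueFactorizationMonoid Pool.Agent.Lib.MP_1a91b9_nt
open Pool.Agent.Lib.MP_1a91b9_nuT Pool.Agent.Lib.MP_1a91b9_nuT.CF
open Pool.Agent.Lib.MP_1a91b9_nuT.S4

universe u

variable [CD]

section
variable {F : Type u} [Field F] [NumberField F] {A : Type*} [CommRing A]

private theorem rce_cop {n : Ideal (𝓞 F)} {v : HeightOneSpectrum (𝓞 F)} (hv : ¬ n ≤ v.asIdeal) :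
    IsCoprime n v.asIdeal := by
  rw [Ideal.isCoprime_iff_sup_eq]
  apply v.isMaximal.1.2
  refine lt_of_le_of_ne le_sup_right ?_
  intro h
  apply hv
  rw [h]
  exact le_sup_left

private theorem rce_pi {n : Ideal (𝓞 F)} {v : HeightOneSpectrum (𝓞 F)} (hv : ¬ n ≤ v.asIdeal) :
    ∃ p : 𝓞 F, p ∈ v.asIdeal ∧ p ∉ v.asIdeal ^ 2 ∧ p - 1 ∈ n := by
  obtain ⟨p, hp1, hp2⟩ := Ideal.exists_mem_pow_notMem_pow_succ v.asIdeal v.ne_bot
    v.isMaximal.ne_top 1
  rw [pow_one] at hp1
  have hc : IsCoprime n (v.asIdeal ^ 2) := (rce_cop hv).pow_right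
  rw [Ideal.isCoprime_iff_exists] at hc
  obtain ⟨a, ha, b, hb, hab⟩ := hc
  have h1 : p * a + b - 1 = (p - 1) * a := by
    have : b = 1 - a := by rw [← hab]; ring
    rw [this]
    ring
  have h2 : p * a + b - p = (1 - p) * b := by
    have : a = 1 - b := by rw [← hab]; ring
    rw [this]
    ring
  have h3 : p * a + b - p ∈ v.asIdeal ^ 2 := by
    rw [h2]
    exact Ideal.mul_mem_left _ _ hb
  refine ⟨p * a + b, ?_, ?_, ?_⟩
  · exact Ideal.add_mem _ (Ideal.mul_mem_right _ _ hp1) (Ideal.pow_le_self (by omega) hb)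
  · intro h4
    apply hp2
    have h5 := Ideal.sub_mem _ h4 h3
    have h6 : p * a + b - (p * a + b - p) = p := by ring
    rw [h6] at h5
    exact h5
  · rw [h1]
    exact Ideal.mul_mem_left _ _ ha

private theorem rce_s {n : Ideal (𝓞 F)} {v : HeightOneSpectrum (𝓞 F)} (hv : ¬ n ≤ v.asIdeal)
    {p : 𝓞 F} (hp1 : p ∈ v.asIdeal) (hp2 : p ∉ v.asIdeal ^ 2) (hp3 : p - 1 ∈ n) :
    ∃ s : 𝓞 F, s ∉ v.asIdeal ∧ s - 1 ∈ n ∧ ∀ z ∈ v.asIdeal, ∃ y : 𝓞 F, s * z = p * y := by
  obtain ⟨A, hA⟩ := Ideal.dvd_span_singleton.2 hp1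
  have hAv : ¬ A ≤ v.asIdeal := by
    intro h
    obtain ⟨B, hB⟩ := Ideal.dvd_iff_le.2 h
    apply hp2
    rw [← Ideal.dvd_span_singleton, hA, hB, pow_two]
    exact ⟨B, by rw [mul_assoc]⟩
  have hcv : IsCoprime A v.asIdeal := rce_cop hAv
  have hpA : p ∈ A := by
    have h1 : p ∈ Ideal.span {p} := Ideal.mem_span_singleton_self p
    rw [hA] at h1
    exact (Ideal.mul_le_right : v.asIdeal * A ≤ A) h1
  have hcn : IsCoprime A n := by
    rw [Ideal.isCoprime_iff_exists]
    refine ⟨p, hpA, -(p - 1), Ideal.neg_mem_iff _ |>.2 hp3, ?_⟩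
    ring
  have hc : IsCoprime A (n * v.asIdeal) := hcn.mul_right hcv
  rw [Ideal.isCoprime_iff_exists] at hc
  obtain ⟨s, hs, b, hb, hsb⟩ := hc
  have h1 : s - 1 = -b := by rw [← hsb]; ring
  refine ⟨s, ?_, ?_, ?_⟩
  · intro h2
    have h3 : b ∈ v.asIdeal := (Ideal.mul_le_right : n * v.asIdeal ≤ v.asIdeal) hb
    have h4 : (1 : 𝓞 F) ∈ v.asIdeal := by
      rw [← hsb]
      exact Ideal.add_mem _ h2 h3
    exact v.isMaximal.ne_top ((Ideal.eq_top_iff_one _).2 h4)
  · rw [h1]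
    exact (Ideal.neg_mem_iff _).2 ((Ideal.mul_le_left : n * v.asIdeal ≤ n) hb)
  · intro z hz
    have h2 : s * z ∈ Ideal.span {p} := by
      rw [hA, mul_comm v.asIdeal A]
      exact Ideal.mul_mem_mul hs hz
    obtain ⟨y, hy⟩ := Ideal.mem_span_singleton'.1 h2
    exact ⟨y, by rw [← hy, mul_comm]⟩

private theorem rce_congr {x y : HeightOneSpectrum (𝓞 F) → A} {v : HeightOneSpectrum (𝓞 F)}
    (hxy : ∀ w, w ≠ v → y w = x w) {z : 𝓞 F} (hz : z ∉ v.asIdeal) :
    evI y (Ideal.span {z}) = evI x (Ideal.span {z}) := by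
  unfold evI
  refine congrArg Multiset.sum (Multiset.map_congr rfl ?_)
  intro P hP
  have hd : P ∣ Ideal.span {z} := dvd_of_mem_normalizedFactors hP
  unfold atI
  by_cases h : P.IsPrime ∧ P ≠ ⊥
  · rw [dif_pos h, dif_pos h]
    apply hxy
    intro h1
    apply hz
    have h2 : v.asIdeal = P := by rw [← h1]
    rw [h2]
    exact Ideal.dvd_span_singleton.1 hd
  · rw [dif_neg h, dif_neg h]

/-- extension of a ray class function to a place where it has no local component -/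
theorem ext_at {x : HeightOneSpectrum (𝓞 F) → A} {v : HeightOneSpectrum (𝓞 F)}
    {n : Ideal (𝓞 F)} (hn : n ≠ 0) (hv : ¬ n ≤ v.asIdeal)
    (hx0 : ∀ w : HeightOneSpectrum (𝓞 F), n ≤ w.asIdeal → x w = 0) (hxv : x v = 0)
    (h : ∀ z : 𝓞 F, z ≠ 0 → z ∉ v.asIdeal → z - 1 ∈ n → evI x (Ideal.span {z}) = 0) :
    ∃ x' : HeightOneSpectrum (𝓞 F) → A, (∀ w, w ≠ v → x' w = x w) ∧ RC n x' := by
  classical
  obtain ⟨p, hp1, hp2, hp3⟩ := rce_pi hv
  obtain ⟨s, hs1, hs2, hs3⟩ := rce_s hv hp1 hp2 hp3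
  have hp0 : p ≠ 0 := by
    rintro rfl
    exact hp2 (Ideal.zero_mem _)
  have hs0 : s ≠ 0 := by
    rintro rfl
    exact hs1 (Ideal.zero_mem _)
  set c : A := - evI x (Ideal.span {p}) with hc
  set x' : HeightOneSpectrum (𝓞 F) → A := Function.update x v c with hx'
  have hx'v : x' v = c := Function.update_self _ _ _
  have hx'w : ∀ w, w ≠ v → x' w = x w := fun w hw => Function.update_of_ne hw _ _
  have hne : ∀ z : 𝓞 F, z ≠ 0 → (Ideal.span {z} : Ideal (𝓞 F)) ≠ 0 := by
    intro z hz h0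
    apply hz
    rw [← Ideal.span_singleton_eq_bot]
    exact h0
  have hmul : ∀ (y : HeightOneSpectrum (𝓞 F) → A) (a b : 𝓞 F), a ≠ 0 → b ≠ 0 →
      evI y (Ideal.span {a * b}) = evI y (Ideal.span {a}) + evI y (Ideal.span {b}) := by
    intro y a b ha hb
    rw [← Ideal.span_singleton_mul_span_singleton]
    exact evI_mul y _ _ (hne a ha) (hne b hb)
  -- the value at p
  have hpv : evI x' (Ideal.span {p}) = 0 := by
    obtain ⟨B, hB⟩ := Ideal.dvd_span_singleton.2 hp1
    have hB0 : B ≠ 0 := by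
      rintro rfl
      rw [mul_zero] at hB
      exact hne p hp0 hB
    have hBv : ¬ B ≤ v.asIdeal := by
      intro h
      obtain ⟨D, hD⟩ := Ideal.dvd_iff_le.2 h
      apply hp2
      rw [← Ideal.dvd_span_singleton, hB, hD, pow_two]
      exact ⟨D, by rw [mul_assoc]⟩
    have hcB : evI x' B = evI x B := by
      unfold evI
      refine congrArg Multiset.sum (Multiset.map_congr rfl ?_)
      intro P hP
      have hd : P ∣ B := dvd_of_mem_normalizedFactors hP
      unfold atI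
      by_cases h : P.IsPrime ∧ P ≠ ⊥
      · rw [dif_pos h, dif_pos h]
        apply hx'w
        intro h1
        apply hBv
        have h2 : v.asIdeal = P := by rw [← h1]
        rw [h2]
        exact Ideal.dvd_iff_le.1 hd
      · rw [dif_neg h, dif_neg h]
    have h1 : evI x (Ideal.span {p}) = evI x B := by
      rw [hB, evI_mul x _ _ v.ne_bot hB0, evI_place, hxv, zero_add]
    rw [hB, evI_mul x' _ _ v.ne_bot hB0, evI_place, hx'v, hcB, hc, h1]
    ring
  have hoff : ∀ z : 𝓞 F, z ≠ 0 → z ∉ v.asIdeal → z - 1 ∈ n →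
      evI x' (Ideal.span {z}) = 0 := by
    intro z hz0 hz hzn
    rw [rce_congr hx'w hz]
    exact h z hz0 hz hzn
  have key : ∀ (m : ℕ) (z : 𝓞 F), z ≠ 0 → z ∉ v.asIdeal ^ (m + 1) → z - 1 ∈ n →
      evI x' (Ideal.span {z}) = 0 := by
    intro m
    induction m with
    | zero =>
      intro z hz0 hz hzn
      rw [zero_add, pow_one] at hz
      exact hoff z hz0 hz hzn
    | succ m ih =>
      intro z hz0 hz hzn
      by_cases hzv : z ∈ v.asIdeal
      · obtain ⟨y, hy⟩ := hs3 z hzv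
        have hy0 : y ≠ 0 := by
          rintro rfl
          rw [mul_zero] at hy
          rcases mul_eq_zero.1 hy with h1 | h1
          · exact hs0 h1
          · exact hz0 h1
        have hyn : y - 1 ∈ n := by
          have h1 : y - 1 = (s * z - 1) - (p - 1) * y := by rw [hy]; ring
          rw [h1]
          refine Ideal.sub_mem _ ?_ (Ideal.mul_mem_right _ _ hp3)
          have h2 : s * z - 1 = (s - 1) * z + (z - 1) := by ring
          rw [h2]
          exact Ideal.add_mem _ (Ideal.mul_mem_right _ _ hs2) hzn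
        have hyv : y ∉ v.asIdeal ^ (m + 1) := by
          intro h1
          have h2 : s * z ∈ v.asIdeal ^ (m + 1 + 1) := by
            rw [hy, pow_succ, mul_comm p y]
            exact Ideal.mul_mem_mul h1 hp1
          have hpr : v.asIdeal.IsPrime := v.isPrime
          rcases Ideal.IsPrime.mul_mem_pow v.asIdeal h2 with h3 | h3
          · exact hs1 h3
          · exact hz h3
        have h1 := hmul x' s z hs0 hz0
        rw [hy, hmul x' p y hp0 hy0, hpv, ih y hy0 hyv hyn, hoff s hs0 hs1 hs2] at h1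
        rw [zero_add, zero_add] at h1
        exact h1.symm
      · exact hoff z hz0 hzv hzn
  refine ⟨x', hx'w, ⟨?_, ?_⟩⟩
  · intro w hw
    have hwv : w ≠ v := by
      rintro rfl
      exact hv hw
    rw [hx'w w hwv]
    exact hx0 w hw
  · intro z hz0 hzn
    have h1 : ∃ m : ℕ, z ∉ v.asIdeal ^ m := by
      by_contra hcon
      push Not at hcon
      have h2 : (z : F) = 0 := by
        apply eq_zero_of_le (w := v)
        intro m
        exact (le_mem z m).2 (hcon m)
      exact hz0 (RingOfIntegers.ext h2)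
    obtain ⟨m, hm⟩ := h1
    apply key m z hz0 _ hzn
    intro h2
    exact hm (Ideal.pow_le_pow_right (Nat.le_succ m) h2)

end

end Pool.Agent.Lib.MP_1a91b9_nuW.CF
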