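import Pool.Agent.Lib.MP_1a91b9_nuW.CF.ExW
import Pool.Agent.Lib.MP_1a91b9_nuW.CF.Cnd

/-!
# Reciprocity for the cyclic extensions of odd prime degree, any ramification

PROOF.
rc_xw: `RC (cnd f) x`: zero: `cnd_le`; princ: `z - 1 ∈ cnd f`, `z ≠ 0`: the formula of `x` with `y = z`: `c v z = 0` (`LC.one`, `le_mem`).
recip_w: copy nuT/CF/Main.lean (theorem `reciprocity`) with `exists_xw` instead of `exists_x` and `m0 = cnd f` instead of the product of
the ramified places (`hm0le` is `cnd_le`, `hRC0` is `rc_xw`).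
-/

set_option autoImplicit false

namespace Pool.Agent.Lib.MP_1a91b9_nuW.CF

open NumberField IsDedekindDomain UniqueFactorizationMonoid Pool.Agent.Lib.MP_1a91b9_nt
open Pool.Agent.Lib.MP_1a91b9_nuT Pool.Agent.Lib.MP_1a91b9_nuT.CF
open Pool.Agent.Lib.MP_1a91b9_nuT.S4

universe u

private theorem recw_place (F : Type u) [Field F] [NumberField F] (q : ℕ) (hq : q.Prime) :
    ∃ v : HeightOneSpectrum (𝓞 F), (q : 𝓞 F) ∈ v.asIdeal := by
  have hp : (Ideal.span {(q : ℤ)}).IsPrime :=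
    (Ideal.span_singleton_prime (by exact_mod_cast hq.ne_zero)).mpr
      (Nat.prime_iff_prime_int.mp hq)
  obtain ⟨⟨P, hP, hPo⟩⟩ :=
    (inferInstance : Nonempty (Ideal.primesOver (Ideal.span {(q : ℤ)}) (𝓞 F)))
  have hmem : (q : 𝓞 F) ∈ P := by
    have h1 : (q : ℤ) ∈ Ideal.span {(q : ℤ)} := Ideal.mem_span_singleton_self _
    rw [hPo.over] at h1
    have h2 : algebraMap ℤ (𝓞 F) (q : ℤ) ∈ P := h1
    rwa [map_natCast] at h2
  have hne : P ≠ ⊥ := by
    intro h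
    rw [h, Ideal.mem_bot] at hmem
    exact hq.ne_zero (by exact_mod_cast hmem)
  exact ⟨⟨P, hP, hne⟩, hmem⟩

private theorem recw_infinite (F : Type u) [Field F] [NumberField F] :
    Infinite (HeightOneSpectrum (𝓞 F)) := by
  choose f hf using fun q : Nat.Primes => recw_place F q.1 q.2
  refine Infinite.of_injective f fun q1 q2 h => ?_
  by_contra hne
  have hne' : (q1 : ℕ) ≠ (q2 : ℕ) := fun h3 => hne (Subtype.ext h3)
  have hc : Nat.Coprime (q1 : ℕ) (q2 : ℕ) := (Nat.coprime_primes q1.2 q2.2).mpr hne'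
  obtain ⟨a, b, hab⟩ := (Nat.isCoprime_iff_coprime.mpr hc)
  have h1 := hf q1
  have h2 := hf q2
  rw [← h] at h2
  have h4 : ((a : 𝓞 F) * ((q1 : ℕ) : 𝓞 F) + (b : 𝓞 F) * ((q2 : ℕ) : 𝓞 F)) = 1 := by
    exact_mod_cast congrArg (Int.cast : ℤ → 𝓞 F) hab
  have h5 : (1 : 𝓞 F) ∈ (f q1).asIdeal := by
    rw [← h4]
    exact Ideal.add_mem _ (Ideal.mul_mem_left _ _ h1) (Ideal.mul_mem_left _ _ h2)
  exact (f q1).isPrime.ne_top ((Ideal.eq_top_iff_one _).mpr h5)

private theorem recw_eq {F : Type u} [Field F] [NumberField F] {v w : HeightOneSpectrum (𝓞 F)}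
    (h : v.asIdeal ≤ w.asIdeal) : v = w :=
  HeightOneSpectrum.ext (v.isMaximal.eq_of_le w.isPrime.ne_top h)

variable [CD]

section
variable (k L : Type u) [Field k] [NumberField k] [Field L] [NumberField L] [Algebra k L]
  [IsGalois k L] (ℓ : ℕ) [Fact ℓ.Prime]

private theorem recw_rc (f : HeightOneSpectrum (𝓞 k) → ℕ)
    (c : HeightOneSpectrum (𝓞 k) → (Additive kˣ →+ ZMod ℓ))
    (hc : ∀ v : HeightOneSpectrum (𝓞 k), CF.Ram L v → LC k L ℓ v (f v) (c v))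
    (x r : HeightOneSpectrum (𝓞 k) → ZMod ℓ) (hr : ∀ v, CF.Ram L v → x v = 0)
    (hp : ∀ (z : 𝓞 k) (y : kˣ), (y : k) = (z : k) → evI x (Ideal.span {z}) +
        ∑ v ∈ (ram_finite k L).toFinset, r v * c v (Additive.ofMul y) = 0) :
    RC (cnd k L f) x := by
  refine ⟨fun v hv => hr v ((cnd_le L (fun v hv => (hc v hv).pos) v).mp hv), fun z hz hz1 => ?_⟩
  have hz0 : (z : k) ≠ 0 := by
    intro h
    exact hz (RingOfIntegers.coe_eq_zero_iff.mp h)
  have h1 := hp z (Units.mk0 (z : k) hz0) rfl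
  have h2 : ∑ v ∈ (ram_finite k L).toFinset, r v * c v (Additive.ofMul (Units.mk0 (z : k) hz0)) =
      0 := by
    refine Finset.sum_eq_zero fun v hv => ?_
    have hv1 : CF.Ram L v := (Set.Finite.mem_toFinset _).mp hv
    rw [(hc v hv1).one (Units.mk0 (z : k) hz0) ?_, mul_zero]
    have h3 : z - 1 ∈ v.asIdeal ^ f v := (mem_cnd L (z - 1)).mp hz1 v hv1
    have h4 := (le_mem (w := v) (z - 1) (f v)).mpr h3
    have h5 : ((z - 1 : 𝓞 k) : k) = ((Units.mk0 (z : k) hz0 : kˣ) : k) - 1 := by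
      rw [Units.val_mk0]
      push_cast
      rfl
    rwa [h5] at h4
  rwa [h2, add_zero] at h1

theorem recip_w (h2 : ℓ ≠ 2) (hdeg : Module.finrank k L = ℓ)
    (f : HeightOneSpectrum (𝓞 k) → ℕ) (c : HeightOneSpectrum (𝓞 k) → (Additive kˣ →+ ZMod ℓ))
    (hc : ∀ v : HeightOneSpectrum (𝓞 k), CF.Ram L v → LC k L ℓ v (f v) (c v)) :
    ∃ x r : HeightOneSpectrum (𝓞 k) → ZMod ℓ, (∃ v, x v ≠ 0) ∧ RC (cnd k L f) x ∧
      (∀ v, ¬ CF.Ram L v → (x v = 0 ↔ CF.Spl L v)) ∧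
      ∀ (z : 𝓞 k) (y : kˣ), (y : k) = (z : k) → evI x (Ideal.span {z}) +
        ∑ v ∈ (ram_finite k L).toFinset, r v * c v (Additive.ofMul y) = 0 := by
  classical
  obtain ⟨x, r, ⟨v1, hv1⟩, hr, hs, hp⟩ := exists_xw k L ℓ h2 hdeg f c hc
  have hRC0 : RC (cnd k L f) x := recw_rc k L ℓ f c hc x r hr hp
  refine ⟨x, r, ⟨v1, hv1⟩, hRC0, fun v0 hv0 => ⟨fun hx0 => ?_, fun h => hs v0 h⟩, hp⟩
  by_contra hns
  obtain ⟨R, hR⟩ : ∃ R : Finset (HeightOneSpectrum (𝓞 k)), R = (ram_finite k L).toFinset :=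
    ⟨_, rfl⟩
  have hRm : ∀ v, v ∈ R ↔ CF.Ram L v := fun v => by
    rw [hR, Set.Finite.mem_toFinset]
    exact Iff.rfl
  have := recw_infinite k
  obtain ⟨p, hp0⟩ := Infinite.exists_notMem_finset (insert v0 (insert v1 R))
  rw [Finset.mem_insert, Finset.mem_insert, not_or, not_or] at hp0
  obtain ⟨hpv0, hpv1, hpR⟩ := hp0
  obtain ⟨m0, hm0⟩ : ∃ m0 : Ideal (𝓞 k), m0 = cnd k L f := ⟨_, rfl⟩
  have hm0le : ∀ w : HeightOneSpectrum (𝓞 k), m0 ≤ w.asIdeal ↔ w ∈ R := fun w => by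
    rw [hm0, cnd_le L (fun v hv => (hc v hv).pos) w, hRm]
  obtain ⟨m, hm⟩ : ∃ m : Ideal (𝓞 k), m = p.asIdeal * m0 := ⟨_, rfl⟩
  have hmle : ∀ w : HeightOneSpectrum (𝓞 k), m ≤ w.asIdeal ↔ (w = p ∨ w ∈ R) := fun w => by
    rw [hm, w.isPrime.mul_le, hm0le]
    constructor
    · rintro (h | h)
      · exact Or.inl (recw_eq h).symm
      · exact Or.inr h
    · rintro (h | h)
      · rw [h]
        exact Or.inl le_rfl
      · exact Or.inr h
  have hm00 : m0 ≠ 0 := by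
    rw [hm0]
    exact cnd_ne L
  have hmne : m ≠ 0 := by
    rw [hm]
    exact mul_ne_zero p.ne_bot hm00
  have hmp : m ≤ p.asIdeal := (hmle p).mpr (Or.inl rfl)
  have hm1 : m ≠ 1 := by
    intro h
    rw [h, Ideal.one_eq_top, top_le_iff] at hmp
    exact p.isPrime.ne_top hmp
  have hmm0 : m ≤ m0 := by
    rw [hm]
    exact (Ideal.mul_le_inf (I := p.asIdeal) (J := m0)).trans inf_le_right
  rw [← hm0] at hRC0
  obtain ⟨x', hx'⟩ : ∃ x' : HeightOneSpectrum (𝓞 k) → ZMod ℓ,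
      x' = fun v => if v = p then 0 else x v := ⟨_, rfl⟩
  have hx'p : x' p = 0 := by
    rw [hx']
    exact if_pos rfl
  have hx'n : ∀ v, v ≠ p → x' v = x v := fun v hv => by
    rw [hx']
    exact if_neg hv
  have hRC : RC m x' := by
    refine RC.le hRC0 hmm0 (fun v hv => ?_) (fun v hv => ?_)
    · refine hx'n v fun h => hv ?_
      exact (hmle v).mpr (Or.inl h)
    · rcases (hmle v).mp hv with h | h
      · rw [h, hx'p]
      · by_cases hvp : v = p
        · rw [hvp, hx'p]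
        · rw [hx'n v hvp]
          exact hr v ((hRm v).mp h)
  have hfinal := ne_zero_of_inert k L ℓ h2 hdeg m hmne hm1
    (fun v hv => (hmle v).mpr (Or.inr ((hRm v).mpr hv))) x' hRC
    ⟨v1, by
      rw [hx'n v1 (fun h => hpv1 h.symm)]
      exact hv1⟩
    (fun v hv => by
      by_cases hvp : v = p
      · rw [hvp, hx'p]
      · rw [hx'n v hvp]
        exact hs v hv) v0
    (fun h => by
      rcases (hmle v0).mp h with h | h
      · exact hpv0 h.symm
      · exact hv0 ((hRm v0).mp h)) hns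
  rw [hx'n v0 (fun h => hpv0 h.symm)] at hfinal
  exact hfinal hx0

end

end Pool.Agent.Lib.MP_1a91b9_nuW.CF
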