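import Pool.Agent.Lib.MP_1a91b9_nuW.CF.Grd
import Pool.Agent.Lib.MP_1a91b9_nuW.CF.KaE
import Pool.Agent.Lib.MP_1a91b9_nuW.CF.Frs
import Pool.Agent.Lib.MP_1a91b9_nuW.CF.RecW
import Pool.Agent.Lib.MP_1a91b9_nuW.CF.RcE

/-!
# The conductor is exact

PROOF.
r_ne: suppose `r v = 0`. `n = ∏ v' ∈ (ram_finite k L).toFinset.erase v, v' ^ f v'`: `n ≠ 0`, `¬ n ≤ v` (prime ideals), `n ≤ w` implies `w` ramified (so `x w = 0`: `RC.zero` with `cnd_le`), `w ≠ v`. For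
`z ≠ 0`, `z ∉ v`, `z - 1 ∈ n`: the formula: `evI x (span {z}) = - ∑ r c`; the term of `v` is `0` (`r v = 0`), the others vanish (`LC.one`, `z - 1 ∈ v' ^ f v'`, `le_mem`). `ext_at`: `x'` with `RC n x'`,
`x' w = x w` for `w ≠ v`. `exists_frobs k L ℓ h2 hdeg v hr`: `q a N ζ W φ₁ φ₂`; `exists_Fx` for `φ₁` and for `φ₂`; `φ_b ζ = ζ ^ nrm v` (`IsFr.zeta`, `q ∉ W`). `m = cnd k L f` (`≠ 0`, `≠ 1` as `m ≤ v`, `Ram → m ≤ `). `trk_w`: `κ₁`, `κ₂`.
`kappa_eq`: `x' v = κ₁`, `x' v = κ₂`: contradiction with `kappa_ne` (`hspl` from the reciprocity: a completely split place is not ramified, `x v = 0`).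
exact_w: `z₀` from `(hc v hr).ex`, CRT (`IsDedekindDomain.exists_forall_sub_mem_ideal`, as in `exists_xw`): `z - z₀ ∈ v ^ f v`, `z - 1 ∈ v' ^ f v'` for the other ramified `v'`. `z ∉ v`, so `z ≠ 0`. `z - 1 ∈ v ^ (f v - 1)`. `z - 1 ∈ g`: `cnd f = v ^ f v * J =
g * v` with `J` the product of the others, so `g = v ^ (f v - 1) * J` (cancel `v`), and `z - 1` is in `v ^ (f v - 1)` and in all the `v' ^ f v'` (coprime: product = intersection; as for `mem_cnd`). The formula: `evI x (span {z}) = - r v * c v z`, `c v z = c v z₀ ≠ 0`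
(`LC.cong`), `r v ≠ 0`, `ZMod ℓ` is a field.
-/

set_option autoImplicit false

namespace Pool.Agent.Lib.MP_1a91b9_nuW.CF

open NumberField IsDedekindDomain UniqueFactorizationMonoid Pool.Agent.Lib.MP_1a91b9_nt
open Pool.Agent.Lib.MP_1a91b9_nuT Pool.Agent.Lib.MP_1a91b9_nuT.CF
open Pool.Agent.Lib.MP_1a91b9_nuT.S4

universe u

variable [CD]

private theorem exa_eq {F : Type u} [Field F] [NumberField F] {v w : HeightOneSpectrum (𝓞 F)}
    (h : v.asIdeal ≤ w.asIdeal) : v = w :=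
  HeightOneSpectrum.ext (v.isMaximal.eq_of_le w.isPrime.ne_top h)

section
variable (k L : Type u) [Field k] [NumberField k] [Field L] [NumberField L] [Algebra k L]
  [IsGalois k L] (ℓ : ℕ) [Fact ℓ.Prime] (h2 : ℓ ≠ 2) (hdeg : Module.finrank k L = ℓ)
  {f : HeightOneSpectrum (𝓞 k) → ℕ} {c : HeightOneSpectrum (𝓞 k) → (Additive kˣ →+ ZMod ℓ)}
  (hc : ∀ v : HeightOneSpectrum (𝓞 k), CF.Ram L v → LC k L ℓ v (f v) (c v))
  {x r : HeightOneSpectrum (𝓞 k) → ZMod ℓ} (hne : ∃ v, x v ≠ 0) (hx : RC (cnd k L f) x)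
  (hs : ∀ v, ¬ CF.Ram L v → (x v = 0 ↔ CF.Spl L v))
  (hr : ∀ (z : 𝓞 k) (y : kˣ), (y : k) = (z : k) → evI x (Ideal.span {z}) +
        ∑ v ∈ (ram_finite k L).toFinset, r v * c v (Additive.ofMul y) = 0)

include hc in
/-- a local character is trivial on `z` congruent to `1` -/
private theorem exa_c {v : HeightOneSpectrum (𝓞 k)} (hv : CF.Ram L v) {z : 𝓞 k}
    (hz : z - 1 ∈ v.asIdeal ^ f v) {y : kˣ} (hy : (y : k) = (z : k)) :
    c v (Additive.ofMul y) = 0 := by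
  refine (hc v hv).one y ?_
  have h1 := (le_mem (w := v) (z - 1) (f v)).mpr hz
  have e : ((z - 1 : 𝓞 k) : k) = (y : k) - 1 := by
    rw [hy]
    exact map_sub (algebraMap (𝓞 k) k) z 1 |>.trans (by rw [map_one])
  rw [e] at h1
  exact h1

include h2 hdeg hc hne hx hs hr

theorem r_ne (v : HeightOneSpectrum (𝓞 k)) (hv : CF.Ram L v) : r v ≠ 0 := by
  classical
  intro hr0
  have hf1 : ∀ v : HeightOneSpectrum (𝓞 k), CF.Ram L v → 1 ≤ f v := fun v hv => (hc v hv).pos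
  have hle := cnd_le L hf1
  have hmem : ∀ w : HeightOneSpectrum (𝓞 k), w ∈ (ram_finite k L).toFinset ↔ CF.Ram L w :=
    fun w => by
      rw [Set.Finite.mem_toFinset]
      exact Iff.rfl
  obtain ⟨n, hn⟩ : ∃ n : Ideal (𝓞 k),
      n = ∏ w ∈ (ram_finite k L).toFinset.erase v, w.asIdeal ^ f w := ⟨_, rfl⟩
  have hn0 : n ≠ 0 := by
    rw [hn]
    exact Finset.prod_ne_zero_iff.mpr fun w _ => pow_ne_zero _ w.ne_bot
  have hnw : ∀ w : HeightOneSpectrum (𝓞 k), n ≤ w.asIdeal → w ≠ v ∧ CF.Ram L w := by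
    intro w hw
    rw [hn, w.isPrime.prod_le] at hw
    obtain ⟨u, hu, huw⟩ := hw
    have h3 : u = w := exa_eq (w.isPrime.le_of_pow_le huw)
    rw [h3, Finset.mem_erase, hmem] at hu
    exact hu
  have hnv : ¬ n ≤ v.asIdeal := fun h => (hnw v h).1 rfl
  have hx0 : ∀ w : HeightOneSpectrum (𝓞 k), n ≤ w.asIdeal → x w = 0 := fun w hw =>
    hx.zero w ((hle w).mpr (hnw w hw).2)
  have hxv : x v = 0 := hx.zero v ((hle v).mpr hv)
  have hev : ∀ z : 𝓞 k, z ≠ 0 → z ∉ v.asIdeal → z - 1 ∈ n → evI x (Ideal.span {z}) = 0 := by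
    intro z hz _ hz1
    have hz0 : (z : k) ≠ 0 := fun h => hz (RingOfIntegers.ext h)
    have h3 := hr z (Units.mk0 (z : k) hz0) rfl
    rw [Finset.sum_eq_zero (fun w hw => ?_), add_zero] at h3
    · exact h3
    · by_cases hwv : w = v
      · rw [hwv, hr0, zero_mul]
      · rw [exa_c k L ℓ hc ((hmem w).mp hw) (?_ : z - 1 ∈ w.asIdeal ^ f w) rfl, mul_zero]
        have h4 : w.asIdeal ^ f w ∣ n := by
          rw [hn]
          exact Finset.dvd_prod_of_mem _ (Finset.mem_erase.mpr ⟨hwv, hw⟩)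
        exact Ideal.le_of_dvd h4 hz1
  obtain ⟨x', hx'1, hx'⟩ := ext_at hn0 hnv hx0 hxv hev
  obtain ⟨q, a, N, iN1, iN2, iN3, iN4, iN5, ζ, W, φ₁, φ₂, hq, ha, hqv, hna, hG, hζ, hdet, hW, hf₁,
    hf₂, hφ₁, hφ₂, hφ⟩ := exists_frobs k L ℓ h2 hdeg v hv
  obtain ⟨E₁, B₁, i1, i2, i3, i4, i5, i6, i7, i8, i9, i10, i11, i12, i13, i14, i15, i16, H₁⟩ :=
    exists_Fx k L N ℓ hdeg φ₁ hφ₁
  obtain ⟨E₂, B₂, j1, j2, j3, j4, j5, j6, j7, j8, j9, j10, j11, j12, j13, j14, j15, j16, H₂⟩ :=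
    exists_Fx k L N ℓ hdeg φ₂ hφ₂
  have hqW : (q : 𝓞 N) ∉ W.asIdeal := by
    intro h
    apply hqv
    rw [← hW]
    change algebraMap (𝓞 k) (𝓞 N) (q : 𝓞 k) ∈ W.asIdeal
    rwa [map_natCast]
  have hζ₁ : φ₁ ζ = ζ ^ nrm v := hf₁.zeta hW q hqW ζ hζ.pow_eq_one
  have hζ₂ : φ₂ ζ = ζ ^ nrm v := hf₂.zeta hW q hqW ζ hζ.pow_eq_one
  have hm0 : cnd k L f ≠ 0 := cnd_ne L
  have hm1 : cnd k L f ≠ 1 := by
    intro h
    have h3 := (hle v).mpr hv
    rw [h, Ideal.one_eq_top, top_le_iff] at h3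
    exact v.isPrime.ne_top h3
  have hram : ∀ w, CF.Ram L w → cnd k L f ≤ w.asIdeal := fun w hw => (hle w).mpr hw
  have hspl : ∀ w, CF.Spl L w → x w = 0 := by
    intro w hw
    by_cases hrw : CF.Ram L w
    · exact hx.zero w ((hle w).mpr hrw)
    · exact (hs w hrw).mpr hw
  obtain ⟨κ₁, -, hκ₁⟩ := trk_w H₁ hdeg hφ₁ hq ha hna hζ hζ₁ h2 (cnd k L f) hm0 hm1 hram x hx hne
    hspl
  obtain ⟨κ₂, -, hκ₂⟩ := trk_w H₂ hdeg hφ₂ hq ha hna hζ hζ₂ h2 (cnd k L f) hm0 hm1 hram x hx hne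
    hspl
  have e₁ : x' v = κ₁ := kappa_eq H₁ hq ha hna hζ hζ₁ h2 hqv hW hf₁ hm0 hn0 hnv hx' hx'1 hκ₁
  have e₂ : x' v = κ₂ := kappa_eq H₂ hq ha hna hζ hζ₂ h2 hqv hW hf₂ hm0 hn0 hnv hx' hx'1 hκ₂
  exact kappa_ne H₁ H₂ hdeg hq ha hna hζ hdet hζ₁ hζ₂ hφ₁ hφ₂ hφ h2 (cnd k L f) hm0 hm1 x hx hne
    hspl hκ₁ hκ₂ (e₁.symm.trans e₂)

theorem exact_w (v : HeightOneSpectrum (𝓞 k)) (g : Ideal (𝓞 k)) (hv : CF.Ram L v)
    (hg : cnd k L f = g * v.asIdeal) :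
    ∃ z : 𝓞 k, z ≠ 0 ∧ z - 1 ∈ g ∧ z ∉ v.asIdeal ∧ evI x (Ideal.span {z}) ≠ 0 := by
  classical
  have hrv := r_ne k L ℓ h2 hdeg hc hne hx hs hr v hv
  have hf1 : 1 ≤ f v := (hc v hv).pos
  have hmem : ∀ w : HeightOneSpectrum (𝓞 k), w ∈ (ram_finite k L).toFinset ↔ CF.Ram L w :=
    fun w => by
      rw [Set.Finite.mem_toFinset]
      exact Iff.rfl
  obtain ⟨z₀, hz₀, hz₀1, hz₀c⟩ := (hc v hv).ex
  obtain ⟨z, hz⟩ := IsDedekindDomain.exists_forall_sub_mem_ideal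
    (s := (ram_finite k L).toFinset) (fun w => w.asIdeal) (fun w => f w)
    (fun w _ => w.prime) (fun w _ w' _ hww h => hww (HeightOneSpectrum.ext h))
    (fun w => if (w : HeightOneSpectrum (𝓞 k)) = v then z₀ else 1)
  have hzv : z - z₀ ∈ v.asIdeal ^ f v := by
    have h3 := hz v ((hmem v).mpr hv)
    simpa using h3
  have hzw : ∀ w : HeightOneSpectrum (𝓞 k), CF.Ram L w → w ≠ v → z - 1 ∈ w.asIdeal ^ f w := by
    intro w hw hwv
    have h3 := hz w ((hmem w).mpr hw)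
    simpa [hwv] using h3
  have hpow : v.asIdeal ^ f v ≤ v.asIdeal ^ (f v - 1) := Ideal.pow_le_pow_right (Nat.sub_le _ _)
  have hpow1 : v.asIdeal ^ f v ≤ v.asIdeal := Ideal.pow_le_self (by omega)
  have hzv0 : z ∉ v.asIdeal := by
    intro h
    apply hz₀
    have h3 := sub_mem h (hpow1 hzv)
    rwa [sub_sub_cancel] at h3
  have hz0 : z ≠ 0 := by
    rintro rfl
    exact hzv0 (zero_mem _)
  have hzv1 : z - 1 ∈ v.asIdeal ^ (f v - 1) := by
    have h3 := add_mem (hpow hzv) hz₀1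
    rwa [sub_add_sub_cancel] at h3
  -- the ideal `g`
  obtain ⟨f', hf'⟩ : ∃ f' : HeightOneSpectrum (𝓞 k) → ℕ, f' = Function.update f v (f v - 1) :=
    ⟨_, rfl⟩
  have hf'v : f' v = f v - 1 := by
    rw [hf']
    exact Function.update_self _ _ _
  have hf'w : ∀ w, w ≠ v → f' w = f w := fun w hw => by
    rw [hf']
    exact Function.update_of_ne hw _ _
  have hgf : cnd k L f' = g := by
    have h3 : cnd k L f' * v.asIdeal = g * v.asIdeal := by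
      rw [← hg]
      unfold cnd
      rw [← Finset.mul_prod_erase _ _ ((hmem v).mpr hv),
        ← Finset.mul_prod_erase (ram_finite k L).toFinset (fun w => w.asIdeal ^ f w)
          ((hmem v).mpr hv), hf'v]
      rw [Finset.prod_congr rfl (fun w hw => by
        rw [hf'w w (Finset.ne_of_mem_erase hw)] :
          ∀ w ∈ (ram_finite k L).toFinset.erase v, w.asIdeal ^ f' w = w.asIdeal ^ f w)]
      have h4 : v.asIdeal ^ f v = v.asIdeal ^ (f v - 1) * v.asIdeal := by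
        rw [← pow_succ, Nat.sub_add_cancel hf1]
      rw [h4]
      ring
    exact mul_right_cancel₀ v.ne_bot h3
  refine ⟨z, hz0, ?_, hzv0, ?_⟩
  · rw [← hgf, mem_cnd]
    intro w hw
    by_cases hwv : w = v
    · rw [hwv, hf'v]
      exact hzv1
    · rw [hf'w w hwv]
      exact hzw w hw hwv
  · have hz0' : (z : k) ≠ 0 := fun h => hz0 (RingOfIntegers.ext h)
    have hz₀0' : (z₀ : k) ≠ 0 := by
      intro h
      apply hz₀
      have h3 : z₀ = 0 := RingOfIntegers.ext h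
      rw [h3]
      exact zero_mem _
    intro hev
    have h3 := hr z (Units.mk0 (z : k) hz0') rfl
    rw [hev, zero_add, Finset.sum_eq_single v (fun w hw hwv => by
      rw [exa_c k L ℓ hc ((hmem w).mp hw) (hzw w ((hmem w).mp hw) hwv) rfl, mul_zero])
      (fun h => absurd ((hmem v).mpr hv) h)] at h3
    rcases mul_eq_zero.mp h3 with h4 | h4
    · exact hrv h4
    · have h5 := (hc v hv).cong hzv0 hzv (y := Units.mk0 (z : k) hz0')
        (y' := Units.mk0 (z₀ : k) hz₀0') rfl rfl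
      rw [h4] at h5
      exact hz₀c _ rfl h5.symm

end

end Pool.Agent.Lib.MP_1a91b9_nuW.CF
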