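import Pool.Agent.Lib.MP_1a91b9_nuT.CF.AuxF

/-!
# The fields attached to one automorphism

PROOF. This is `exists_aux` of nuT/CF/AuxF.lean (copy from line 290) for a given `φ`.
exists_Fx: `exists_fixed k L N ℓ hdeg φ hφ` (nuT/CF/FixedF.lean).
Fx.nrm: `w` a place of `E` with `q ∉ w`: `W` above `w` in `N`, `hfrob` of that proof: a Frobenius `σ ∈ Gal(N/E)` at `W` is `φ ^ i` (`h.pow`), `σ ζ = ζ ^ nrm w`
(`IsFr.zeta`) and `φ ζ = ζ ^ n₀`, so `nrm w = n₀ ^ i = a ^ i` modulo `q` (`auxf_norm_eq`).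
Fx.ins: third bullet of that proof (`q ∉ w`, `nrm w = a ^ i` in `ZMod q` with `ℓ ∣ i` and `v` neither ramified nor split: `ℓ ∣ f(w/k)`): there `i` is
the exponent found for the Frobenius; for an arbitrary `j` with `nrm w = a ^ j`: `a ^ i = a ^ j`, so `i = j` modulo `orderOf a`, so modulo `ℓ`.
Fx.deg: fourth bullet (places of `E1` of degree one over `k`, not ramified in `L`).
Fx.spl: fifth bullet (`spl_up`).
-/

set_option autoImplicit false

namespace Pool.Agent.Lib.MP_1a91b9_nuW.CF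

open NumberField IsDedekindDomain UniqueFactorizationMonoid Pool.Agent.Lib.MP_1a91b9_nt
open Pool.Agent.Lib.MP_1a91b9_nuT Pool.Agent.Lib.MP_1a91b9_nuT.CF
open Pool.Agent.Lib.MP_1a91b9_nuT.S4

universe u

section fxa
variable {k N : Type u} [Field k] [NumberField k] [Field N] [NumberField N] [Algebra k N]

private theorem fx_nrm_pow (W : HeightOneSpectrum (𝓞 N)) (v : HeightOneSpectrum (𝓞 k))
    (h : W.under (𝓞 k) = v) : nrm W = nrm v ^ W.asIdeal.inertiaDeg (𝓞 k) := by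
  have i1 : W.asIdeal.IsPrime := W.isPrime
  have i2 : W.asIdeal.LiesOver v.asIdeal := ⟨by rw [← h]; rfl⟩
  rw [nrm_eq, nrm_eq, Ideal.absNorm_pow_inertiaDeg v.asIdeal W.asIdeal]

private theorem fx_deg_pos (W : HeightOneSpectrum (𝓞 N)) : 0 < W.asIdeal.inertiaDeg (𝓞 k) := by
  have i1 : W.asIdeal.IsPrime := W.isPrime
  exact Ideal.inertiaDeg_pos _ _

private theorem fx_pow_sub (v : HeightOneSpectrum (𝓞 k)) (x : 𝓞 k) :
    x ^ nrm v - x ∈ v.asIdeal := by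
  classical
  have hmax : v.asIdeal.IsMaximal := v.isMaximal
  let _ : Field (𝓞 k ⧸ v.asIdeal) := Ideal.Quotient.field _
  have hfin : Finite (𝓞 k ⧸ v.asIdeal) := v.asIdeal.finiteQuotientOfFreeOfNeBot v.ne_bot
  have := Fintype.ofFinite (𝓞 k ⧸ v.asIdeal)
  have hcard : Fintype.card (𝓞 k ⧸ v.asIdeal) = nrm v := by
    rw [nrm_eq, Ideal.absNorm_apply, Submodule.cardQuot_apply, Nat.card_eq_fintype_card]
  rw [← Ideal.Quotient.eq_zero_iff_mem, map_sub, map_pow, ← hcard, FiniteField.pow_card, sub_self]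

private theorem fx_under_nat (W : HeightOneSpectrum (𝓞 N)) (q : ℕ) :
    (q : 𝓞 k) ∈ (W.under (𝓞 k)).asIdeal ↔ (q : 𝓞 N) ∈ W.asIdeal := by
  change algebraMap (𝓞 k) (𝓞 N) (q : 𝓞 k) ∈ W.asIdeal ↔ _
  rw [map_natCast]

end fxa

section fxb
variable {k E N : Type u} [Field k] [NumberField k] [Field E] [NumberField E] [Field N]
  [NumberField N] [Algebra k E] [Algebra k N] [Algebra E N] [IsScalarTower k E N]

private theorem fx_under_under (W : HeightOneSpectrum (𝓞 N)) :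
    (W.under (𝓞 E)).under (𝓞 k) = W.under (𝓞 k) := by
  apply HeightOneSpectrum.ext
  change (W.asIdeal.under (𝓞 E)).under (𝓞 k) = W.asIdeal.under (𝓞 k)
  rw [Ideal.under_under]

/-- powers of the Frobenius and roots of unity -/
private theorem fx_norm_eq (q : ℕ) (hq : q.Prime) (ζ : N) (hζ : IsPrimitiveRoot ζ q) (φ : Gal(N/k))
    (n m i : ℕ) (h1 : φ ζ = ζ ^ n) (h2 : (φ ^ i) ζ = ζ ^ m) :
    ((m : ℕ) : ZMod q) = ((n : ℕ) : ZMod q) ^ i := by
  have h3 : ∀ j : ℕ, (φ ^ j) ζ = ζ ^ (n ^ j) := by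
    intro j
    induction j with
    | zero => simp
    | succ j ih =>
      rw [pow_succ', AlgEquiv.mul_apply, ih, map_pow, h1, ← pow_mul, pow_succ']
  have h4 : ζ ^ m = ζ ^ (n ^ i) := by rw [← h2, h3]
  have hz : ζ ≠ 0 := hζ.ne_zero hq.ne_zero
  have h5 : (IsPrimitiveRoot.isUnit hζ hq.ne_zero).unit ^ m =
      (IsPrimitiveRoot.isUnit hζ hq.ne_zero).unit ^ (n ^ i) := by
    apply Units.ext
    simpa using h4
  rw [pow_eq_pow_iff_modEq] at h5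
  have h6 : orderOf (IsPrimitiveRoot.isUnit hζ hq.ne_zero).unit = q := by
    rw [← orderOf_units, IsUnit.unit_spec]
    exact hζ.eq_orderOf.symm
  rw [h6] at h5
  have h7 := (ZMod.natCast_eq_natCast_iff _ _ _).mpr h5
  rw [h7]
  push_cast
  rfl

end fxb

section
variable (k L N : Type u) [Field k] [NumberField k] [Field L] [NumberField L]
    [Field N] [NumberField N] [Algebra k L] [Algebra k N] [Algebra L N] [IsScalarTower k L N]

/-- `E` is the fixed field of `φ` and `E1` that of `φ ^ ℓ` -/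
structure Fx (ℓ : ℕ) (φ : Gal(N/k)) (E E1 : Type u) [Field E] [NumberField E] [Field E1]
    [NumberField E1] [Algebra k E] [Algebra k E1] [Algebra E E1] [Algebra E N] [Algebra E1 N]
    [Algebra L E1] [IsScalarTower k E E1] [IsScalarTower k E N] [IsScalarTower k E1 N]
    [IsScalarTower E E1 N] [IsScalarTower k L E1] [IsScalarTower L E1 N] : Prop where
  gal1 : IsGalois E E1
  deg1 : Module.finrank E E1 = ℓ
  galN : IsGalois E N
  memE : ∀ x : N, x ∈ Set.range (algebraMap E N) ↔ φ x = x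
  memE1 : ∀ x : N, x ∈ Set.range (algebraMap E1 N) ↔ (φ ^ ℓ) x = x
  pow : ∀ τ : Gal(N/E), ∃ i : ℕ, ∀ x : N, τ x = (φ ^ i) x
  tau : ∃ τ : Gal(E1/E), ∀ x : E1, algebraMap E1 N (τ x) = φ (algebraMap E1 N x)

variable [CD]

theorem exists_Fx [IsGalois k L] [IsGalois k N] (ℓ : ℕ) [Fact ℓ.Prime]
    (hdeg : Module.finrank k L = ℓ)
    (φ : Gal(N/k)) (hφ : ∃ x : L, φ (algebraMap L N x) ≠ algebraMap L N x) :
    ∃ (E E1 : Type u) (_ : Field E) (_ : NumberField E) (_ : Field E1) (_ : NumberField E1)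
      (_ : Algebra k E) (_ : Algebra k E1) (_ : Algebra E E1) (_ : Algebra E N) (_ : Algebra E1 N)
      (_ : Algebra L E1) (_ : IsScalarTower k E E1) (_ : IsScalarTower k E N)
      (_ : IsScalarTower k E1 N) (_ : IsScalarTower E E1 N) (_ : IsScalarTower k L E1)
      (_ : IsScalarTower L E1 N), Fx k L N ℓ φ E E1 := by
  obtain ⟨E, E1, iE, nE, iE1, nE1, akE, akE1, aEE1, aEN, aE1N, aLE1, s1, s2, s3, s4, s5, s6,
    hgal1, hdeg1, hgalE, hE, hE1, hpow, hτ⟩ := exists_fixed k L N ℓ hdeg φ hφ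
  exact ⟨E, E1, iE, nE, iE1, nE1, akE, akE1, aEE1, aEN, aE1N, aLE1, s1, s2, s3, s4, s5, s6,
    ⟨hgal1, hdeg1, hgalE, hE, hE1, hpow, hτ⟩⟩

end

section
variable {k L N : Type u} [Field k] [NumberField k] [Field L] [NumberField L]
    [Field N] [NumberField N] [Algebra k L] [Algebra k N] [Algebra L N] [IsScalarTower k L N]
variable {ℓ : ℕ} {φ : Gal(N/k)} {E E1 : Type u} [Field E] [NumberField E] [Field E1]
    [NumberField E1] [Algebra k E] [Algebra k E1] [Algebra E E1] [Algebra E N] [Algebra E1 N]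
    [Algebra L E1] [IsScalarTower k E E1] [IsScalarTower k E N] [IsScalarTower k E1 N]
    [IsScalarTower E E1 N] [IsScalarTower k L E1] [IsScalarTower L E1 N]
    (h : Fx k L N ℓ φ E E1) [CD] [IsGalois k L] [IsGalois k N] [Fact ℓ.Prime]
    (hdeg : Module.finrank k L = ℓ) (hφ : ∃ x : L, φ (algebraMap L N x) ≠ algebraMap L N x)
    {q : ℕ} (hq : q.Prime) {a : (ZMod q)ˣ} (ha : ℓ ∣ orderOf a) {n₀ : ℕ}
    (hn : (n₀ : ZMod q) = a) {ζ : N} (hζ : IsPrimitiveRoot ζ q) (hφζ : φ ζ = ζ ^ n₀)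

omit [CD] [IsGalois k L] [IsGalois k N] [Fact ℓ.Prime] in
include h in
private theorem fx_fixl (x : L) : (φ ^ ℓ) (algebraMap L N x) = algebraMap L N x := by
  rw [← h.memE1]
  exact ⟨algebraMap L E1 x, (IsScalarTower.algebraMap_apply L E1 N x).symm⟩

omit [CD] [IsGalois k L] [IsGalois k N] [Fact ℓ.Prime] in
include h in
private theorem fx_mem (i : ℕ) (hi : ℓ ∣ i) (x : L) :
    (φ ^ i) (algebraMap L N x) = algebraMap L N x := by
  obtain ⟨j, rfl⟩ := hi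
  rw [pow_mul]
  induction j with
  | zero => rw [pow_zero, AlgEquiv.one_apply]
  | succ j ih => rw [pow_succ, AlgEquiv.mul_apply, fx_fixl h, ih]

omit [CD] [IsGalois k L] [IsGalois k N] in
include h hφ in
private theorem fx_dvd (i : ℕ) (hi : ∀ x : L, (φ ^ i) (algebraMap L N x) = algebraMap L N x) :
    ℓ ∣ i := by
  have hℓ : ℓ.Prime := Fact.out
  let H : Subgroup Gal(N/k) :=
    { carrier := {σ | ∀ x : L, σ (algebraMap L N x) = algebraMap L N x}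
      mul_mem' := by
        intro σ σ' h h' x
        rw [AlgEquiv.mul_apply, h' x, h x]
      one_mem' := fun x => rfl
      inv_mem' := by
        intro σ h x
        have h1 : σ.symm (σ (algebraMap L N x)) = algebraMap L N x := σ.symm_apply_apply _
        rw [h x] at h1
        exact h1 }
  have hH : ∀ σ : Gal(N/k), σ ∈ H ↔ ∀ x : L, σ (algebraMap L N x) = algebraMap L N x :=
    fun σ => Iff.rfl
  have hφℓ : φ ^ ℓ ∈ H := (hH _).2 (fx_fixl h)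
  have hφn : φ ∉ H := by
    rw [hH]
    push Not
    exact hφ
  have hi' : φ ^ i ∈ H := (hH _).2 hi
  by_contra hnd
  have hc : Nat.Coprime ℓ i := (Nat.Prime.coprime_iff_not_dvd hℓ).mpr hnd
  have hc' : IsCoprime (ℓ : ℤ) (i : ℤ) := Nat.isCoprime_iff_coprime.mpr hc
  obtain ⟨u, w, huw⟩ := hc'
  apply hφn
  have e : φ = (φ ^ ℓ) ^ u * (φ ^ i) ^ w := by
    rw [← zpow_natCast φ ℓ, ← zpow_natCast φ i, ← zpow_mul, ← zpow_mul, ← zpow_add,
      mul_comm (ℓ : ℤ) u, mul_comm (i : ℤ) w, huw, zpow_one]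
  rw [e]
  exact H.mul_mem (H.zpow_mem hφℓ u) (H.zpow_mem hi' w)

omit [IsGalois k L] [IsGalois k N] [Fact ℓ.Prime] in
include h hq hn hζ hφζ in
private theorem fx_frob (W : HeightOneSpectrum (𝓞 N)) (hW : (q : 𝓞 N) ∉ W.asIdeal) : ∃ i : ℕ,
    (MP_1a91b9_nt.nrm (W.under (𝓞 E)) : ZMod q) = ((a ^ i : (ZMod q)ˣ) : ZMod q) ∧
      ∀ x : 𝓞 N, (φ ^ i) • x - x ^ MP_1a91b9_nt.nrm (W.under (𝓞 E)) ∈ W.asIdeal := by
  have hgalE : IsGalois E N := h.galN
  obtain ⟨σ, hσ⟩ := exists_fr (k := E) W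
  obtain ⟨i, hi⟩ := h.pow σ
  refine ⟨i, ?_, ?_⟩
  · have h1 : σ ζ = ζ ^ MP_1a91b9_nt.nrm (W.under (𝓞 E)) := hσ.zeta rfl q hW ζ hζ.pow_eq_one
    rw [hi] at h1
    rw [fx_norm_eq q hq ζ hζ φ n₀ _ i hφζ h1, Units.val_pow_eq_pow_val, hn]
  · intro x
    have h1 := hσ x
    have h2 : σ • x = (φ ^ i) • x := by
      apply RingOfIntegers.ext
      exact hi x
    rw [h2] at h1
    exact h1

omit [IsGalois k N] in
include hdeg in
private theorem fx_inert (V : HeightOneSpectrum (𝓞 L)) (h1 : ¬ CF.Ram L (V.under (𝓞 k)))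
    (h2 : ¬ CF.Spl L (V.under (𝓞 k))) : V.asIdeal.inertiaDeg (𝓞 k) = ℓ := by
  rcases trichotomy k L ℓ hdeg (V.under (𝓞 k)) with h | h | h
  · exact absurd h.1 h1
  · exact (h.2.2.2 ⟨V, rfl⟩).2
  · exact absurd h.2.1 h2

include h hq hn hζ hφζ in
theorem Fx.nrm (w : HeightOneSpectrum (𝓞 E)) (hw : (q : 𝓞 E) ∉ w.asIdeal) :
    ∃ i : ℕ, (MP_1a91b9_nt.nrm w : ZMod q) = ((a ^ i : (ZMod q)ˣ) : ZMod q) := by
  have hgalE : IsGalois E N := h.galN
  obtain ⟨W, hWw⟩ := exists_over (N := N) w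
  have hqW : (q : 𝓞 N) ∉ W.asIdeal := by
    rw [← fx_under_nat (k := E), hWw]
    exact hw
  obtain ⟨i, hi1, -⟩ := fx_frob h hq hn hζ hφζ W hqW
  rw [hWw] at hi1
  exact ⟨i, hi1⟩

include h hdeg hφ hq ha hn hζ hφζ in
theorem Fx.ins (w : HeightOneSpectrum (𝓞 E)) (hw : (q : 𝓞 E) ∉ w.asIdeal) (i : ℕ)
    (hi : (MP_1a91b9_nt.nrm w : ZMod q) = ((a ^ i : (ZMod q)ˣ) : ZMod q)) (hli : ℓ ∣ i)
    (hr : ¬ CF.Ram L (w.under (𝓞 k))) (hs : ¬ CF.Spl L (w.under (𝓞 k))) :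
    ℓ ∣ w.asIdeal.inertiaDeg (𝓞 k) := by
  have hgalE : IsGalois E N := h.galN
  obtain ⟨W, hWw⟩ := exists_over (N := N) w
  have hqW : (q : 𝓞 N) ∉ W.asIdeal := by
    rw [← fx_under_nat (k := E), hWw]
    exact hw
  obtain ⟨j, hj1, hj2⟩ := fx_frob h hq hn hζ hφζ W hqW
  rw [hWw] at hj1 hj2
  have hlj : ℓ ∣ j := by
    have e1 : a ^ i = a ^ j := by
      apply Units.ext
      rw [← hi, ← hj1]
    rw [pow_eq_pow_iff_modEq] at e1
    exact (Nat.ModEq.dvd_iff (Nat.ModEq.of_dvd ha e1) dvd_rfl).1 hli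
  have hWk : W.under (𝓞 k) = w.under (𝓞 k) := by rw [← fx_under_under (E := E), hWw]
  have h1 := fr_fix (L := L) W (φ ^ j) (MP_1a91b9_nt.nrm w) (w.asIdeal.inertiaDeg (𝓞 k))
    (w.under (𝓞 k)) hWk (fx_nrm_pow w _ rfl) (fx_deg_pos w) hj2 (fx_mem h j hlj)
  have h2 : (W.under (𝓞 L)).under (𝓞 k) = w.under (𝓞 k) := by rw [fx_under_under, hWk]
  rw [fx_inert hdeg (W.under (𝓞 L)) (by rw [h2]; exact hr) (by rw [h2]; exact hs)] at h1
  exact h1

include h hdeg hφ hq ha hn hζ hφζ in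
theorem Fx.deg (w : HeightOneSpectrum (𝓞 E1)) (hw : (q : 𝓞 E1) ∉ w.asIdeal)
    (hr : ¬ CF.Ram L (w.under (𝓞 k))) (hd : w.asIdeal.inertiaDeg (𝓞 k) = 1) :
    ∃ i : ℕ, ℓ ∣ i ∧ (MP_1a91b9_nt.nrm (w.under (𝓞 E)) : ZMod q) =
      ((a ^ i : (ZMod q)ˣ) : ZMod q) := by
  have hgalE1 : IsGalois E1 N := IsGalois.tower_top_of_isGalois k E1 N
  obtain ⟨W, hWw⟩ := exists_over (N := N) w
  have hqW : (q : 𝓞 N) ∉ W.asIdeal := by
    rw [← fx_under_nat (k := E1), hWw]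
    exact hw
  obtain ⟨i, hi1, hi2⟩ := fx_frob h hq hn hζ hφζ W hqW
  have hWE : W.under (𝓞 E) = w.under (𝓞 E) := by rw [← fx_under_under (E := E1), hWw]
  rw [hWE] at hi1 hi2
  have hWk : W.under (𝓞 k) = w.under (𝓞 k) := by rw [← fx_under_under (E := E1), hWw]
  refine ⟨i, ?_, hi1⟩
  have hn1 : MP_1a91b9_nt.nrm w = MP_1a91b9_nt.nrm (w.under (𝓞 k)) := by
    rw [fx_nrm_pow w (w.under (𝓞 k)) rfl, hd, pow_one]
  have hn2 : MP_1a91b9_nt.nrm (w.under (𝓞 E)) = MP_1a91b9_nt.nrm w := by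
    have h3 : MP_1a91b9_nt.nrm w =
        MP_1a91b9_nt.nrm (w.under (𝓞 E)) ^ w.asIdeal.inertiaDeg (𝓞 E) := fx_nrm_pow w _ rfl
    have h4 : MP_1a91b9_nt.nrm (w.under (𝓞 E)) = MP_1a91b9_nt.nrm (w.under (𝓞 k)) ^
        (w.under (𝓞 E)).asIdeal.inertiaDeg (𝓞 k) :=
      fx_nrm_pow (w.under (𝓞 E)) _ (fx_under_under w)
    have h5 := fx_deg_pos (k := E) w
    have h6 := fx_deg_pos (k := k) (w.under (𝓞 E))
    have h7 : MP_1a91b9_nt.nrm (w.under (𝓞 E)) ≤ MP_1a91b9_nt.nrm w := by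
      conv_rhs => rw [h3]
      exact Nat.le_self_pow h5.ne' _
    have h8 : MP_1a91b9_nt.nrm w ≤ MP_1a91b9_nt.nrm (w.under (𝓞 E)) := by
      rw [hn1, h4]
      exact Nat.le_self_pow h6.ne' _
    omega
  have h1 : ∀ x : 𝓞 L,
      (φ ^ i) • (algebraMap (𝓞 L) (𝓞 N) x) - algebraMap (𝓞 L) (𝓞 N) x ∈ W.asIdeal := by
    intro x
    have h2 := hi2 (algebraMap (𝓞 L) (𝓞 N) x)
    have h3 : (algebraMap (𝓞 L) (𝓞 N) x) ^ MP_1a91b9_nt.nrm (w.under (𝓞 E)) -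
        algebraMap (𝓞 L) (𝓞 N) x ∈ W.asIdeal := by
      have h4 := fx_pow_sub w (algebraMap (𝓞 L) (𝓞 E1) x)
      rw [← hWw] at h4
      have h5 : algebraMap (𝓞 E1) (𝓞 N) ((algebraMap (𝓞 L) (𝓞 E1) x) ^
        MP_1a91b9_nt.nrm (W.under (𝓞 E1)) - algebraMap (𝓞 L) (𝓞 E1) x) ∈ W.asIdeal := h4
      have h6 : algebraMap (𝓞 E1) (𝓞 N) (algebraMap (𝓞 L) (𝓞 E1) x) =
          algebraMap (𝓞 L) (𝓞 N) x := by
        rw [← IsScalarTower.algebraMap_apply (𝓞 L) (𝓞 E1) (𝓞 N)]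
      rw [map_sub, map_pow, h6, hWw, ← hn2] at h5
      exact h5
    have h7 := Ideal.add_mem _ h2 h3
    rw [sub_add_sub_cancel] at h7
    exact h7
  exact fx_dvd h hφ i (fix_of_triv W (φ ^ i) (by rw [hWk]; exact hr) h1)

include h hdeg hφ in
theorem Fx.spl (w : HeightOneSpectrum (𝓞 E)) (hw : CF.Spl L (w.under (𝓞 k))) :
    CF.Spl E1 w := by
  obtain ⟨x, hx⟩ := hφ
  obtain ⟨τ, hτ⟩ := h.tau
  have hgal : IsGalois E E1 := h.gal1
  refine spl_up k L E E1 ℓ hdeg h.deg1 τ ⟨x, ?_⟩ w hw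
  intro hcon
  apply hx
  have h1 := hτ (algebraMap L E1 x)
  rw [hcon, ← IsScalarTower.algebraMap_apply L E1 N] at h1
  exact h1.symm

end

end Pool.Agent.Lib.MP_1a91b9_nuW.CF
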