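import Pool.Agent.Lib.MP_1a91b9_nuW.CF.Fx
import Pool.Agent.Lib.MP_1a91b9_nuT.CF.Trick

/-!
# The function `x` over the fixed field of an automorphism

PROOF. This is `ne_zero_of_inert` of nuT/CF/Trick.lean (copy it with its private lemmas `trick_*`), where `exists_aux` is replaced by the
statements `Fx.nrm` (for `hAw`), `Fx.ins` (second half of `hAw`), `Fx.deg` (for `hE1`), `Fx.spl` (for `hup`). `A` from `rc_cyc E ℓ q h2 hq a ha Fx.nrm`. `n = (m 𝓞_E)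
(q)`, `X`, `A'` as there. `hxy`, `hlow` as there. `A' ≠ 0` somewhere is needed for `first_ineq`: there `w₀` was used; here: if `A' = 0`
everywhere then `hxy` gives `X w = 0` for all `w` with `¬ n ≤ w`, contradiction with `norm_ne_zero`. `first_ineq` gives `κ` with `X = κ A'`, `κ ≠ 0` by
`norm_ne_zero` as there. Conclusion: for `w` with `q ∉ w`, `¬ m ≤ w.under`, `nrm w = a ^ i`: `¬ n ≤ w`, `X w = f(w) x(w.under)`, `A' w = A w = i`.
-/

set_option autoImplicit false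

namespace Pool.Agent.Lib.MP_1a91b9_nuW.CF

open NumberField IsDedekindDomain UniqueFactorizationMonoid Pool.Agent.Lib.MP_1a91b9_nt
open Pool.Agent.Lib.MP_1a91b9_nuT Pool.Agent.Lib.MP_1a91b9_nuT.CF
open Pool.Agent.Lib.MP_1a91b9_nuT.S4

universe u

section
variable [CD]
variable {k E : Type u} [Field k] [NumberField k] [Field E] [NumberField E] [Algebra k E]

omit [CD] [NumberField k] [NumberField E] in
private theorem trkw_le (m : Ideal (𝓞 k)) (q : ℕ) (w : HeightOneSpectrum (𝓞 E)) :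
    m.map (algebraMap (𝓞 k) (𝓞 E)) * Ideal.span {(q : 𝓞 E)} ≤ w.asIdeal ↔
      (m ≤ (w.under (𝓞 k)).asIdeal ∨ (q : 𝓞 E) ∈ w.asIdeal) := by
  rw [Ideal.IsPrime.mul_le w.isPrime, Ideal.map_le_iff_le_comap, Ideal.span_singleton_le_iff_mem]
  rfl

omit [CD] [NumberField k] in
private theorem trkw_ne (m : Ideal (𝓞 k)) (hm : m ≠ 0) (q : ℕ) (hq : q ≠ 0) :
    m.map (algebraMap (𝓞 k) (𝓞 E)) * Ideal.span {(q : 𝓞 E)} ≠ 0 := by
  refine mul_ne_zero ?_ ?_
  · intro h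
    apply hm
    have h1 := (Ideal.map_eq_bot_iff_of_injective
      (FaithfulSMul.algebraMap_injective (𝓞 k) (𝓞 E))).1 h
    exact h1
  · intro h
    have h1 : (q : 𝓞 E) = 0 := Ideal.span_singleton_eq_bot.1 h
    exact hq (by exact_mod_cast h1)

omit [CD] [NumberField k] in
private theorem trkw_one (m : Ideal (𝓞 k)) (q : ℕ) (hq : q.Prime) :
    m.map (algebraMap (𝓞 k) (𝓞 E)) * Ideal.span {(q : 𝓞 E)} ≠ 1 := by
  intro h
  have h1 : Ideal.span {(q : 𝓞 E)} = ⊤ := by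
    rw [eq_top_iff, ← Ideal.one_eq_top, ← h]
    exact Ideal.mul_le_right
  have h2 := Ideal.absNorm_span_natCast (S := 𝓞 E) q
  rw [h1, Ideal.absNorm_top] at h2
  have h3 : Module.finrank ℤ (𝓞 E) ≠ 0 := by
    rw [RingOfIntegers.rank]
    exact Module.finrank_pos.ne'
  have h4 := (Nat.pow_eq_one.1 h2.symm).resolve_right h3
  exact hq.one_lt.ne' h4

omit [CD] [NumberField k] [NumberField E] in
private theorem trkw_nat (q : ℕ) (w : HeightOneSpectrum (𝓞 E)) :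
    (q : 𝓞 k) ∈ (w.under (𝓞 k)).asIdeal ↔ (q : 𝓞 E) ∈ w.asIdeal := by
  show algebraMap (𝓞 k) (𝓞 E) (q : 𝓞 k) ∈ w.asIdeal ↔ _
  rw [map_natCast]

end

section
variable [CD]
variable (k E E1 : Type u) [Field k] [NumberField k] [Field E] [NumberField E] [Field E1]
  [NumberField E1] [Algebra k E] [Algebra k E1] [Algebra E E1] [IsScalarTower k E E1]

omit [CD] [NumberField k] [NumberField E] [NumberField E1] in
private theorem trkw_under (w : HeightOneSpectrum (𝓞 E1)) :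
    (w.under (𝓞 E)).under (𝓞 k) = w.under (𝓞 k) := by
  apply HeightOneSpectrum.ext
  show Ideal.under (𝓞 k) (Ideal.under (𝓞 E) w.asIdeal) = Ideal.under (𝓞 k) w.asIdeal
  exact Ideal.under_under _

omit [CD] [NumberField k] [NumberField E] [NumberField E1] in
private theorem trkw_deg (w : HeightOneSpectrum (𝓞 E1)) (h : w.asIdeal.inertiaDeg (𝓞 k) = 1) :
    w.asIdeal.inertiaDeg (𝓞 E) = 1 := by
  have hlo : w.asIdeal.LiesOver (w.under (𝓞 E)).asIdeal := ⟨rfl⟩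
  have h1 := Ideal.inertiaDeg_tower (R := 𝓞 k) (q := (w.under (𝓞 E)).asIdeal) (r := w.asIdeal)
  rw [h] at h1
  exact Nat.eq_one_of_mul_eq_one_left h1.symm

private theorem trkw_low (m : Ideal (𝓞 k)) (hm : m ≠ 0) (q : ℕ) (hq : q ≠ 0)
    (Z : Set (HeightOneSpectrum (𝓞 E)))
    (hZ : ∀ w : HeightOneSpectrum (𝓞 E1), (q : 𝓞 E1) ∉ w.asIdeal →
      ¬ m ≤ (w.under (𝓞 k)).asIdeal → w.asIdeal.inertiaDeg (𝓞 k) = 1 → w.under (𝓞 E) ∈ Z) :
    ∃ B : ℝ, ∀ s : ℝ, 1 < s → s ≤ 2 → Real.log (1 / (s - 1)) - B ≤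
      (Module.finrank E E1 : ℝ) * PZ Z s := by
  obtain ⟨B₁, hB₁⟩ := prime_sum E1
  obtain ⟨B₂, hB₂⟩ := PZ_high_deg k E1
  have hfin : {w : HeightOneSpectrum (𝓞 E1) |
      m.map (algebraMap (𝓞 k) (𝓞 E1)) * Ideal.span {(q : 𝓞 E1)} ≤ w.asIdeal}.Finite := by
    refine (Ideal.finite_factors (trkw_ne (E := E1) m hm q hq)).subset fun w hw => ?_
    exact Ideal.dvd_iff_le.2 hw
  obtain ⟨B₃, hB₃⟩ := PZ_finite _ hfin
  refine ⟨B₁ + B₂ + B₃, fun s hs hs2 => ?_⟩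
  have h1 : PZ (Set.univ : Set (HeightOneSpectrum (𝓞 E1))) s ≤
      PZ {w : HeightOneSpectrum (𝓞 E1) | (q : 𝓞 E1) ∉ w.asIdeal ∧
        ¬ m ≤ (w.under (𝓞 k)).asIdeal ∧ w.asIdeal.inertiaDeg (𝓞 k) = 1} s +
      (PZ {w : HeightOneSpectrum (𝓞 E1) | w.asIdeal.inertiaDeg (𝓞 k) ≠ 1} s +
        PZ {w : HeightOneSpectrum (𝓞 E1) |
          m.map (algebraMap (𝓞 k) (𝓞 E1)) * Ideal.span {(q : 𝓞 E1)} ≤ w.asIdeal} s) := by
    refine (PZ_mono ?_ s hs).trans ((PZ_union _ _ s hs).trans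
      (add_le_add le_rfl (PZ_union _ _ s hs)))
    intro w _
    by_cases h2 : w.asIdeal.inertiaDeg (𝓞 k) = 1
    · by_cases h3 : m.map (algebraMap (𝓞 k) (𝓞 E1)) * Ideal.span {(q : 𝓞 E1)} ≤ w.asIdeal
      · exact Or.inr (Or.inr h3)
      · left
        rw [trkw_le] at h3
        push Not at h3
        exact ⟨h3.2, h3.1, h2⟩
    · exact Or.inr (Or.inl h2)
  have h4 : PZ {w : HeightOneSpectrum (𝓞 E1) | (q : 𝓞 E1) ∉ w.asIdeal ∧
        ¬ m ≤ (w.under (𝓞 k)).asIdeal ∧ w.asIdeal.inertiaDeg (𝓞 k) = 1} s ≤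
      (Module.finrank E E1 : ℝ) * PZ Z s := by
    refine PZ_down E E1 Z _ ?_ s hs
    rintro w ⟨hw1, hw2, hw3⟩
    exact ⟨hZ w hw1 hw2 hw3, trkw_deg k E E1 w hw3⟩
  have h5 := (abs_le.1 (hB₁ s hs hs2)).1
  have h6 := hB₂ s hs
  have h7 := hB₃ s hs
  linarith

end

section
variable {k L N : Type u} [Field k] [NumberField k] [Field L] [NumberField L]
    [Field N] [NumberField N] [Algebra k L] [Algebra k N] [Algebra L N] [IsScalarTower k L N]
variable {ℓ : ℕ} {φ : Gal(N/k)} {E E1 : Type u} [Field E] [NumberField E] [Field E1]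
    [NumberField E1] [Algebra k E] [Algebra k E1] [Algebra E E1] [Algebra E N] [Algebra E1 N]
    [Algebra L E1] [IsScalarTower k E E1] [IsScalarTower k E N] [IsScalarTower k E1 N]
    [IsScalarTower E E1 N] [IsScalarTower k L E1] [IsScalarTower L E1 N]
    (h : Fx k L N ℓ φ E E1) [CD] [IsGalois k L] [IsGalois k N] [Fact ℓ.Prime]
    (hdeg : Module.finrank k L = ℓ) (hφ : ∃ x : L, φ (algebraMap L N x) ≠ algebraMap L N x)
    {q : ℕ} (hq : q.Prime) {a : (ZMod q)ˣ} (ha : ℓ ∣ orderOf a) {n₀ : ℕ}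
    (hn : (n₀ : ZMod q) = a) {ζ : N} (hζ : IsPrimitiveRoot ζ q) (hφζ : φ ζ = ζ ^ n₀)

include h hdeg hφ hq ha hn hζ hφζ in
theorem trk_w (h2 : ℓ ≠ 2) (m : Ideal (𝓞 k)) (hm0 : m ≠ 0) (hm1 : m ≠ 1)
    (hram : ∀ v, CF.Ram L v → m ≤ v.asIdeal) (x : HeightOneSpectrum (𝓞 k) → ZMod ℓ) (hx : RC m x)
    (hne : ∃ v, x v ≠ 0) (hspl : ∀ v, CF.Spl L v → x v = 0) :
    ∃ κ : ZMod ℓ, κ ≠ 0 ∧ ∀ w : HeightOneSpectrum (𝓞 E), (q : 𝓞 E) ∉ w.asIdeal →
      ¬ m ≤ (w.under (𝓞 k)).asIdeal → ∀ i : ℕ,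
      (nrm w : ZMod q) = ((a ^ i : (ZMod q)ˣ) : ZMod q) →
      (w.asIdeal.inertiaDeg (𝓞 k) : ZMod ℓ) * x (w.under (𝓞 k)) = κ * i := by
  classical
  have hgal := h.gal1
  have hdegE := h.deg1
  have hn0 := trkw_ne (E := E) m hm0 q hq.ne_zero
  have hn1 := trkw_one (E := E) m q hq
  have hnle := trkw_le (E := E) m q
  set n : Ideal (𝓞 E) := m.map (algebraMap (𝓞 k) (𝓞 E)) * Ideal.span {(q : 𝓞 E)} with hndef
  have hxE := rc_norm k E m x hx
  have hAw := fun w hw => Fx.nrm h hq hn hζ hφζ w hw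
  obtain ⟨A, hA, hAi⟩ := rc_cyc E ℓ q h2 hq a ha hAw
  set X : HeightOneSpectrum (𝓞 E) → ZMod ℓ := fun w => if n ≤ w.asIdeal then 0 else
    (w.asIdeal.inertiaDeg (𝓞 k) : ZMod ℓ) * x (w.under (𝓞 k)) with hXdef
  set A' : HeightOneSpectrum (𝓞 E) → ZMod ℓ := fun w => if n ≤ w.asIdeal then 0 else A w with hAdef
  have hX : RC n X := hxE.le Ideal.mul_le_left (fun w hw => by
    simp only [hXdef]
    rw [if_neg hw]) (fun w hw => by
    simp only [hXdef]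
    rw [if_pos hw])
  have hA' : RC n A' := hA.le Ideal.mul_le_right (fun w hw => by
    simp only [hAdef]
    rw [if_neg hw]) (fun w hw => by
    simp only [hAdef]
    rw [if_pos hw])
  have hxy : ∀ w : HeightOneSpectrum (𝓞 E), ¬ n ≤ w.asIdeal → A' w = 0 → X w = 0 := by
    intro w hw hAz
    have hw' := hw
    rw [hnle w] at hw'
    push Not at hw'
    obtain ⟨i, hi⟩ := hAw w hw'.2
    simp only [hAdef] at hAz
    rw [if_neg hw, hAi w hw'.2 i hi] at hAz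
    have hli : ℓ ∣ i := (ZMod.natCast_eq_zero_iff i ℓ).1 hAz
    simp only [hXdef]
    rw [if_neg hw]
    have hnr : ¬ CF.Ram L (w.under (𝓞 k)) := fun h => hw'.1 (hram _ h)
    by_cases hsp : CF.Spl L (w.under (𝓞 k))
    · rw [hspl _ hsp, mul_zero]
    · have h3 := Fx.ins h hdeg hφ hq ha hn hζ hφζ w hw'.2 i hi hli hnr hsp
      rw [(ZMod.natCast_eq_zero_iff _ ℓ).2 h3, zero_mul]
  have hlow : ∃ B : ℝ, ∀ s : ℝ, 1 < s → s ≤ 2 → Real.log (1 / (s - 1)) - B ≤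
      (ℓ : ℝ) * PZ {w : HeightOneSpectrum (𝓞 E) | ¬ n ≤ w.asIdeal ∧ A' w = 0} s := by
    have h3 := trkw_low k E E1 m hm0 q hq.ne_zero
      {w : HeightOneSpectrum (𝓞 E) | ¬ n ≤ w.asIdeal ∧ A' w = 0} (by
        intro w hw1 hw2 hw3
        have hu := trkw_under k E E1 w
        have hq1 : (q : 𝓞 E) ∉ (w.under (𝓞 E)).asIdeal := by
          rw [trkw_nat]
          exact hw1
        have hnw : ¬ n ≤ (w.under (𝓞 E)).asIdeal := by
          rw [hnle, hu]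
          rintro (h | h)
          · exact hw2 h
          · exact hq1 h
        refine ⟨hnw, ?_⟩
        obtain ⟨i, hi1, hi2⟩ := Fx.deg h hdeg hφ hq ha hn hζ hφζ w hw1
          (fun h => hw2 (hram _ h)) hw3
        simp only [hAdef]
        rw [if_neg hnw, hAi _ hq1 i hi2]
        exact (ZMod.natCast_eq_zero_iff i ℓ).2 hi1)
    rw [hdegE] at h3
    exact h3
  obtain ⟨w1, hw1, hw1'⟩ := norm_ne_zero k L ℓ E E1 hdegE m hm0 x
    (dens_zero k L ℓ hdeg m hm0 hm1 x hx hne hspl) (fun w hw => Fx.spl h hdeg hφ w hw) n hn0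
  have hXw1 : X w1 ≠ 0 := by
    simp only [hXdef]
    rw [if_neg hw1]
    exact hw1'
  obtain ⟨κ, hκ⟩ := first_ineq ℓ n hn0 hn1 A' X hA' hX ⟨w1, fun h0 => hXw1 (hxy w1 hw1 h0)⟩
    hxy hlow
  refine ⟨κ, ?_, ?_⟩
  · rintro rfl
    apply hXw1
    rw [hκ w1, zero_mul]
  · intro w hw hmw i hi
    have hnw : ¬ n ≤ w.asIdeal := by
      rw [hnle]
      rintro (h | h)
      · exact hmw h
      · exact hw h
    have h4 := hκ w
    simp only [hXdef, hAdef] at h4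
    rw [if_neg hnw, if_neg hnw, hAi w hw i hi] at h4
    exact h4

end

end Pool.Agent.Lib.MP_1a91b9_nuW.CF
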