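import Pool.Agent.Lib.MP_1a91b9_nuW.CF.Grf
import Pool.Agent.Lib.MP_1a91b9_nuW.CF.TrkW

/-!
# The constants of two different automorphisms are different

PROOF. Suppose `κ₁ = κ₂ = κ`. Fields `k0`, `M` from `exists_grid`. Notation `f(w/k) = w.asIdeal.inertiaDeg (𝓞 k)`, `nrm w = nrm u ^ f(w/k0)` for `u = w.under k0` (private `trick_norm`
of nuT/CF/Trick.lean), `f(w/k) = f(w/k0) f(u/k)` (`Ideal.inertiaDeg_tower`, as in `trick_deg`), `(w.under k0).under k = w.under k` (`trick_under`).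
(0) For `u` a place of `k0` with `q ∉ u` there is `i` with `nrm u = a ^ i` in `ZMod q`: `U` above `u` in `N`, `τ ∈ Gal(N/k0)` a Frobenius at `U` (`exists_fr`): `τ ζ = ζ ^ nrm u` (`IsFr.zeta`)
`= ζ ^ (n₀ ^ i)`, so `nrm u = n₀ ^ i = a ^ i` modulo `q` (`hζ.pow_inj`-like: `IsPrimitiveRoot.pow_eq_pow_iff_modEq`). `A₀` from `rc_cyc k0 ℓ q h2 hq a ha`.
`n0 = (m 𝓞_{k0}) * (q)` (`≠ 0`: `trick_ne`; `n0 ≤ u ↔ m ≤ u.under k ∨ q ∈ u`: `trick_le`; `n0 ≠ 1`: `trick_one`). `z u = if n0 ≤ u then 0 else f(u/k) x(u.under k) - κ A₀ u`: `RC n0 z`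
(`rc_norm`, `RC.le`, `RC.lin` with coefficients `1, -κ` as `X`, `A'` in `ne_zero_of_inert`).
(i) for `b = 1, 2` and `w` a place of `E_b` with `¬ n0 ≤ w.under k0 = u`: `f(w/k0) z(u) = 0`: `q ∉ u`, `q ∉ w`, `nrm u = a ^ i`, `nrm w = a ^ (i f(w/k0))`, `hκ_b`: `f(w/k) x(w.under k) = κ (i f(w/k0))`,
and `A₀ u = i`.
(ii) Suppose `z u ≠ 0` for some `u`. `dens_zero k0 E₁ ℓ hdeg0 n0 _ _ z hz _ hspl`, `hspl`: `Spl E₁ u → z u = 0`: if `n0 ≤ u`: `RC.zero`; otherwise take `w` of `E₁` above `u` (`exists_over`), `f(w/k0) = 1` (`trichotomy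
k0 E₁ ℓ`), (i). `norm_ne_zero k0 E₁ ℓ E₂ B₂ h₂.deg1 n0 _ z hT hup n` with `n = n0.map (algebraMap (𝓞 k0) (𝓞 E₂))`, `hup : Spl E₁ (w.under k0) → Spl B₂ w` from `spl_up k0 E₁ E₂ B₂ ℓ hdeg0 h₂.deg1 τ _`
(`IsGalois E₂ B₂` is `h₂.gal1`): there is `w` of `E₂` with `¬ n ≤ w`, so `¬ n0 ≤ w.under k0` (`Ideal.map_le_iff_le_comap`) and `f(w/k0) z(w.under k0) ≠ 0`: contradiction with (i), `b = 2`.
(iii) So `z = 0`. `norm_ne_zero k L ℓ M N hMN m hm0 x (dens_zero k L ℓ hdeg m hm0 hm1 x hx hne hspl) hup n` with `n = (m 𝓞_M) (q)` and `hup` from `spl_up k L M N ℓ hdeg hMN τ _`: a place `w` of `M`, `¬ n ≤ w`,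
`f(w/k) x(w.under k) ≠ 0`. `u = w.under k0`: `¬ n0 ≤ u`, `z u = 0`: `f(u/k) x(u.under k) = κ i`, `nrm u = a ^ i`. `nrm w = nrm u ^ f' = a ^ (i f')`, `f' = f(w/k0)`. `nrm w = 1` modulo `q`: `W` above `w` in `N`, `σ ∈ Gal(N/M)` a
Frobenius: `σ ζ = ζ` (`ζ` in the range of `M`) `= ζ ^ nrm w`. So `a ^ (i f') = 1`, `ℓ ∣ orderOf a ∣ i f'`, and `f(w/k) x(w.under k) = f' f(u/k) x = f' κ i = 0` in `ZMod ℓ`: contradiction.
-/

set_option autoImplicit false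

namespace Pool.Agent.Lib.MP_1a91b9_nuW.CF

open NumberField IsDedekindDomain UniqueFactorizationMonoid Pool.Agent.Lib.MP_1a91b9_nt
open Pool.Agent.Lib.MP_1a91b9_nuT Pool.Agent.Lib.MP_1a91b9_nuT.CF
open Pool.Agent.Lib.MP_1a91b9_nuT.S4

universe u

section
variable {k E : Type u} [Field k] [NumberField k] [Field E] [NumberField E] [Algebra k E]

private theorem grd_le (m : Ideal (𝓞 k)) (q : ℕ) (w : HeightOneSpectrum (𝓞 E)) :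
    m.map (algebraMap (𝓞 k) (𝓞 E)) * Ideal.span {(q : 𝓞 E)} ≤ w.asIdeal ↔
      (m ≤ (w.under (𝓞 k)).asIdeal ∨ (q : 𝓞 E) ∈ w.asIdeal) := by
  rw [Ideal.IsPrime.mul_le w.isPrime, Ideal.map_le_iff_le_comap, Ideal.span_singleton_le_iff_mem]
  rfl

private theorem grd_map (m : Ideal (𝓞 k)) (hm : m ≠ 0) :
    m.map (algebraMap (𝓞 k) (𝓞 E)) ≠ 0 := by
  intro h
  apply hm
  have h1 := (Ideal.map_eq_bot_iff_of_injective
    (FaithfulSMul.algebraMap_injective (𝓞 k) (𝓞 E))).1 h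
  exact h1

private theorem grd_ne (m : Ideal (𝓞 k)) (hm : m ≠ 0) (q : ℕ) (hq : q ≠ 0) :
    m.map (algebraMap (𝓞 k) (𝓞 E)) * Ideal.span {(q : 𝓞 E)} ≠ 0 := by
  refine mul_ne_zero (grd_map m hm) ?_
  intro h
  have h1 : (q : 𝓞 E) = 0 := Ideal.span_singleton_eq_bot.1 h
  exact hq (by exact_mod_cast h1)

private theorem grd_one (m : Ideal (𝓞 k)) (q : ℕ) (hq : q.Prime) :
    m.map (algebraMap (𝓞 k) (𝓞 E)) * Ideal.span {(q : 𝓞 E)} ≠ 1 := by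
  intro h
  have h1 : Ideal.span {(q : 𝓞 E)} = ⊤ := by
    rw [eq_top_iff, ← Ideal.one_eq_top, ← h]
    exact Ideal.mul_le_right
  have h2 := Ideal.absNorm_span_natCast (S := 𝓞 E) q
  rw [h1, Ideal.absNorm_top] at h2
  have h3 : Module.finrank ℤ (𝓞 E) ≠ 0 := by
    rw [RingOfIntegers.rank]
    exact Module.finrank_pos.ne'
  have h4 := (Nat.pow_eq_one.1 h2.symm).resolve_right h3
  exact hq.one_lt.ne' h4

private theorem grd_norm (w : HeightOneSpectrum (𝓞 E)) :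
    nrm w = nrm (w.under (𝓞 k)) ^ w.asIdeal.inertiaDeg (𝓞 k) := by
  have hlo : w.asIdeal.LiesOver (w.under (𝓞 k)).asIdeal := ⟨rfl⟩
  rw [nrm_eq, nrm_eq, Ideal.absNorm_pow_inertiaDeg (w.under (𝓞 k)).asIdeal w.asIdeal]

private theorem grd_nat (q : ℕ) (w : HeightOneSpectrum (𝓞 E)) :
    (q : 𝓞 k) ∈ (w.under (𝓞 k)).asIdeal ↔ (q : 𝓞 E) ∈ w.asIdeal := by
  show algebraMap (𝓞 k) (𝓞 E) (q : 𝓞 k) ∈ w.asIdeal ↔ _
  rw [map_natCast]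

private theorem grd_mod {q : ℕ} (hq : q.Prime) {ζ : E} (hζ : IsPrimitiveRoot ζ q) (m n : ℕ)
    (h4 : ζ ^ m = ζ ^ n) : ((m : ℕ) : ZMod q) = ((n : ℕ) : ZMod q) := by
  have h5 : (IsPrimitiveRoot.isUnit hζ hq.ne_zero).unit ^ m =
      (IsPrimitiveRoot.isUnit hζ hq.ne_zero).unit ^ n := by
    apply Units.ext
    simpa using h4
  rw [pow_eq_pow_iff_modEq] at h5
  have h6 : orderOf (IsPrimitiveRoot.isUnit hζ hq.ne_zero).unit = q := by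
    rw [← orderOf_units, IsUnit.unit_spec]
    exact hζ.eq_orderOf.symm
  rw [h6] at h5
  exact (ZMod.natCast_eq_natCast_iff _ _ _).mpr h5

private theorem grd_fr [CD] [IsGalois k E] {q : ℕ} {ζ : E} (hζ : IsPrimitiveRoot ζ q)
    (u : HeightOneSpectrum (𝓞 k)) (hu : (q : 𝓞 k) ∉ u.asIdeal) :
    ∃ τ : Gal(E/k), τ ζ = ζ ^ nrm u := by
  obtain ⟨U, hU⟩ := exists_over (N := E) u
  obtain ⟨τ, hτ⟩ := exists_fr (k := k) U
  rw [hU] at hτ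
  refine ⟨τ, hτ.zeta hU q ?_ ζ hζ.pow_eq_one⟩
  rw [← grd_nat (k := k), hU]
  exact hu

end

section
variable {k k0 E : Type u} [Field k] [NumberField k] [Field k0] [NumberField k0] [Field E]
  [NumberField E] [Algebra k k0] [Algebra k E] [Algebra k0 E] [IsScalarTower k k0 E]

private theorem grd_under (w : HeightOneSpectrum (𝓞 E)) :
    (w.under (𝓞 k0)).under (𝓞 k) = w.under (𝓞 k) := by
  apply HeightOneSpectrum.ext
  show Ideal.under (𝓞 k) (Ideal.under (𝓞 k0) w.asIdeal) = Ideal.under (𝓞 k) w.asIdeal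
  exact Ideal.under_under _

private theorem grd_deg (w : HeightOneSpectrum (𝓞 E)) :
    w.asIdeal.inertiaDeg (𝓞 k) =
      (w.under (𝓞 k0)).asIdeal.inertiaDeg (𝓞 k) * w.asIdeal.inertiaDeg (𝓞 k0) := by
  have hlo : w.asIdeal.LiesOver (w.under (𝓞 k0)).asIdeal := ⟨rfl⟩
  exact Ideal.inertiaDeg_tower (R := 𝓞 k) (q := (w.under (𝓞 k0)).asIdeal) (r := w.asIdeal)

private theorem grd_i {ℓ q : ℕ} (a : (ZMod q)ˣ) (m : Ideal (𝓞 k))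
    (x : HeightOneSpectrum (𝓞 k) → ZMod ℓ) (κ : ZMod ℓ) (A₀ : HeightOneSpectrum (𝓞 k0) → ZMod ℓ)
    (hA : ∀ u : HeightOneSpectrum (𝓞 k0), (q : 𝓞 k0) ∉ u.asIdeal →
      ∃ i : ℕ, (nrm u : ZMod q) = ((a ^ i : (ZMod q)ˣ) : ZMod q) ∧ A₀ u = i)
    (hκ : ∀ w : HeightOneSpectrum (𝓞 E), (q : 𝓞 E) ∉ w.asIdeal →
      ¬ m ≤ (w.under (𝓞 k)).asIdeal → ∀ i : ℕ,
      (nrm w : ZMod q) = ((a ^ i : (ZMod q)ˣ) : ZMod q) →
      (w.asIdeal.inertiaDeg (𝓞 k) : ZMod ℓ) * x (w.under (𝓞 k)) = κ * i)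
    (w : HeightOneSpectrum (𝓞 E)) (hw1 : ¬ m ≤ ((w.under (𝓞 k0)).under (𝓞 k)).asIdeal)
    (hw2 : (q : 𝓞 k0) ∉ (w.under (𝓞 k0)).asIdeal) :
    (w.asIdeal.inertiaDeg (𝓞 k0) : ZMod ℓ) *
      (((w.under (𝓞 k0)).asIdeal.inertiaDeg (𝓞 k) : ZMod ℓ) * x ((w.under (𝓞 k0)).under (𝓞 k)) -
        κ * A₀ (w.under (𝓞 k0))) = 0 := by
  obtain ⟨i, hi, hAi⟩ := hA _ hw2
  have hu : (w.under (𝓞 k0)).under (𝓞 k) = w.under (𝓞 k) := grd_under w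
  have h1 := hκ w (fun h => hw2 ((grd_nat (k := k0) q w).2 h)) (by rw [← hu]; exact hw1)
    (i * w.asIdeal.inertiaDeg (𝓞 k0)) (by
      rw [grd_norm (k := k0) w, Nat.cast_pow, hi, pow_mul, ← Units.val_pow_eq_pow_val])
  rw [grd_deg (k := k) (k0 := k0) w] at h1
  push_cast at h1
  rw [hu, hAi]
  linear_combination h1

end

section
variable {k k0 : Type u} [Field k] [NumberField k] [Field k0] [NumberField k0] [Algebra k k0]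

private theorem grd_z [CD] {ℓ q : ℕ} [Fact ℓ.Prime] (m : Ideal (𝓞 k))
    (x : HeightOneSpectrum (𝓞 k) → ZMod ℓ) (hx : RC m x) (κ : ZMod ℓ)
    (A₀ : HeightOneSpectrum (𝓞 k0) → ZMod ℓ) (hA₀ : RC (Ideal.span {(q : 𝓞 k0)}) A₀) :
    ∃ z : HeightOneSpectrum (𝓞 k0) → ZMod ℓ,
      RC (m.map (algebraMap (𝓞 k) (𝓞 k0)) * Ideal.span {(q : 𝓞 k0)}) z ∧
      ∀ u : HeightOneSpectrum (𝓞 k0),
        ¬ m.map (algebraMap (𝓞 k) (𝓞 k0)) * Ideal.span {(q : 𝓞 k0)} ≤ u.asIdeal →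
        z u = (u.asIdeal.inertiaDeg (𝓞 k) : ZMod ℓ) * x (u.under (𝓞 k)) - κ * A₀ u := by
  classical
  have hxE := rc_norm k k0 m x hx
  set n : Ideal (𝓞 k0) := m.map (algebraMap (𝓞 k) (𝓞 k0)) * Ideal.span {(q : 𝓞 k0)} with hn
  set X : HeightOneSpectrum (𝓞 k0) → ZMod ℓ := fun w => if n ≤ w.asIdeal then 0 else
    (w.asIdeal.inertiaDeg (𝓞 k) : ZMod ℓ) * x (w.under (𝓞 k)) with hXdef
  set A' : HeightOneSpectrum (𝓞 k0) → ZMod ℓ := fun w => if n ≤ w.asIdeal then 0 else A₀ w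
    with hAdef
  have hX : RC n X := hxE.le Ideal.mul_le_left (fun w hw => by
    simp only [hXdef]
    rw [if_neg hw]) (fun w hw => by
    simp only [hXdef]
    rw [if_pos hw])
  have hA' : RC n A' := hA₀.le Ideal.mul_le_right (fun w hw => by
    simp only [hAdef]
    rw [if_neg hw]) (fun w hw => by
    simp only [hAdef]
    rw [if_pos hw])
  refine ⟨_, hX.lin hA' 1 (-κ), fun u hu => ?_⟩
  simp only [hXdef, hAdef]
  rw [if_neg hu, if_neg hu]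
  ring

end

section
variable {k L N : Type u} [Field k] [NumberField k] [Field L] [NumberField L]
    [Field N] [NumberField N] [Algebra k L] [Algebra k N] [Algebra L N] [IsScalarTower k L N]
variable {ℓ : ℕ} {φ₁ φ₂ : Gal(N/k)} {E₁ B₁ E₂ B₂ : Type u}
    [Field E₁] [NumberField E₁] [Field B₁]
    [NumberField B₁] [Algebra k E₁] [Algebra k B₁] [Algebra E₁ B₁] [Algebra E₁ N] [Algebra B₁ N]
    [Algebra L B₁] [IsScalarTower k E₁ B₁] [IsScalarTower k E₁ N] [IsScalarTower k B₁ N]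
    [IsScalarTower E₁ B₁ N] [IsScalarTower k L B₁] [IsScalarTower L B₁ N]
    [Field E₂] [NumberField E₂] [Field B₂]
    [NumberField B₂] [Algebra k E₂] [Algebra k B₂] [Algebra E₂ B₂] [Algebra E₂ N] [Algebra B₂ N]
    [Algebra L B₂] [IsScalarTower k E₂ B₂] [IsScalarTower k E₂ N] [IsScalarTower k B₂ N]
    [IsScalarTower E₂ B₂ N] [IsScalarTower k L B₂] [IsScalarTower L B₂ N]
    (h₁ : Fx k L N ℓ φ₁ E₁ B₁) (h₂ : Fx k L N ℓ φ₂ E₂ B₂) [CD] [IsGalois k L] [IsGalois k N]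
    [Fact ℓ.Prime] (hdeg : Module.finrank k L = ℓ)
    {q : ℕ} (hq : q.Prime) {a : (ZMod q)ˣ} (ha : ℓ ∣ orderOf a) {n₀ : ℕ}
    (hn : (n₀ : ZMod q) = a) {ζ : N} (hζ : IsPrimitiveRoot ζ q)
    (hdet : ∀ φ : Gal(N/k), (∀ x : L, φ (algebraMap L N x) = algebraMap L N x) → φ ζ = ζ → φ = 1)
    (hφζ₁ : φ₁ ζ = ζ ^ n₀) (hφζ₂ : φ₂ ζ = ζ ^ n₀)
    (hφ₁ : ∃ x : L, φ₁ (algebraMap L N x) ≠ algebraMap L N x)
    (hφ₂ : ∃ x : L, φ₂ (algebraMap L N x) ≠ algebraMap L N x)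
    (hφ : ∃ x : L, φ₁ (algebraMap L N x) ≠ φ₂ (algebraMap L N x))

include h₁ h₂ hdeg hq ha hn hζ hdet hφζ₁ hφζ₂ hφ₁ hφ₂ hφ in
theorem kappa_ne (h2 : ℓ ≠ 2) (m : Ideal (𝓞 k)) (hm0 : m ≠ 0) (hm1 : m ≠ 1)
    (x : HeightOneSpectrum (𝓞 k) → ZMod ℓ) (hx : RC m x)
    (hne : ∃ v, x v ≠ 0) (hspl : ∀ v, CF.Spl L v → x v = 0) {κ₁ κ₂ : ZMod ℓ}
    (hκ₁ : ∀ w : HeightOneSpectrum (𝓞 E₁), (q : 𝓞 E₁) ∉ w.asIdeal →
      ¬ m ≤ (w.under (𝓞 k)).asIdeal → ∀ i : ℕ,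
      (nrm w : ZMod q) = ((a ^ i : (ZMod q)ˣ) : ZMod q) →
      (w.asIdeal.inertiaDeg (𝓞 k) : ZMod ℓ) * x (w.under (𝓞 k)) = κ₁ * i)
    (hκ₂ : ∀ w : HeightOneSpectrum (𝓞 E₂), (q : 𝓞 E₂) ∉ w.asIdeal →
      ¬ m ≤ (w.under (𝓞 k)).asIdeal → ∀ i : ℕ,
      (nrm w : ZMod q) = ((a ^ i : (ZMod q)ˣ) : ZMod q) →
      (w.asIdeal.inertiaDeg (𝓞 k) : ZMod ℓ) * x (w.under (𝓞 k)) = κ₂ * i) : κ₁ ≠ κ₂ := by
  classical
  rintro rfl
  obtain ⟨k0, M, _, _, _, _, _, _, _, _, _, _, _, _, _, _, _, _, _, _, _, _, _, _, _,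
    hG0, hdeg0, hN0, hpow, ⟨τ, hτ⟩, hGM, hMN, ⟨ζM, hζM⟩, ⟨τM, hτM⟩⟩ :=
    exists_grid h₁ h₂ hdeg hq ha hn hζ hdet hφζ₁ hφζ₂ hφ₁ hφ₂ hφ
  have hA1 : ∀ u : HeightOneSpectrum (𝓞 k0), (q : 𝓞 k0) ∉ u.asIdeal →
      ∃ i : ℕ, (nrm u : ZMod q) = ((a ^ i : (ZMod q)ˣ) : ZMod q) := by
    intro u hu
    obtain ⟨σ, hσ⟩ := grd_fr hζ u hu
    obtain ⟨i, hi⟩ := hpow σ
    refine ⟨i, ?_⟩
    have h1 := grd_mod hq hζ (nrm u) (n₀ ^ i) (by rw [← hσ, hi])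
    rw [h1, Nat.cast_pow, hn, Units.val_pow_eq_pow_val]
  obtain ⟨A₀, hA₀, hA₀i⟩ := rc_cyc k0 ℓ q h2 hq a ha hA1
  have hA2 : ∀ u : HeightOneSpectrum (𝓞 k0), (q : 𝓞 k0) ∉ u.asIdeal →
      ∃ i : ℕ, (nrm u : ZMod q) = ((a ^ i : (ZMod q)ˣ) : ZMod q) ∧ A₀ u = i := by
    intro u hu
    obtain ⟨i, hi⟩ := hA1 u hu
    exact ⟨i, hi, hA₀i u hu i hi⟩
  obtain ⟨z, hz, hzu⟩ := grd_z (k := k) (q := q) m x hx κ₁ A₀ hA₀
  have hn0 := grd_ne (E := k0) m hm0 q hq.ne_zero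
  have hn1 := grd_one (E := k0) m q hq
  have hnle := grd_le (E := k0) m q
  set n : Ideal (𝓞 k0) := m.map (algebraMap (𝓞 k) (𝓞 k0)) * Ideal.span {(q : 𝓞 k0)} with hndef
  have hG2 : IsGalois E₂ B₂ := h₂.gal1
  have hi1 : ∀ w : HeightOneSpectrum (𝓞 E₁), ¬ n ≤ (w.under (𝓞 k0)).asIdeal →
      (w.asIdeal.inertiaDeg (𝓞 k0) : ZMod ℓ) * z (w.under (𝓞 k0)) = 0 := by
    intro w hw
    rw [hzu _ hw]
    rw [hnle] at hw
    push Not at hw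
    exact grd_i a m x κ₁ A₀ hA2 hκ₁ w hw.1 hw.2
  have hi2 : ∀ w : HeightOneSpectrum (𝓞 E₂), ¬ n ≤ (w.under (𝓞 k0)).asIdeal →
      (w.asIdeal.inertiaDeg (𝓞 k0) : ZMod ℓ) * z (w.under (𝓞 k0)) = 0 := by
    intro w hw
    rw [hzu _ hw]
    rw [hnle] at hw
    push Not at hw
    exact grd_i a m x κ₁ A₀ hA2 hκ₂ w hw.1 hw.2
  have hz0 : ∀ u, z u = 0 := by
    by_contra hcon
    push Not at hcon
    have hsp : ∀ u : HeightOneSpectrum (𝓞 k0), CF.Spl E₁ u → z u = 0 := by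
      intro u hu
      by_cases hun : n ≤ u.asIdeal
      · exact hz.zero u hun
      obtain ⟨w, hw⟩ := exists_over (N := E₁) u
      have h3 : w.asIdeal.inertiaDeg (𝓞 k0) = 1 := by
        rcases trichotomy k0 E₁ ℓ hdeg0 u with h | h | h
        · exact absurd hu h.2.1
        · exact absurd hu h.2.1
        · exact (h.2.2.2 ⟨w, congrArg HeightOneSpectrum.asIdeal hw⟩).2
      have h4 := hi1 w (by rw [hw]; exact hun)
      rw [h3, Nat.cast_one, one_mul, hw] at h4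
      exact h4
    obtain ⟨w, hw1, hw2⟩ := norm_ne_zero k0 E₁ ℓ E₂ B₂ h₂.deg1 n hn0 z
      (dens_zero k0 E₁ ℓ hdeg0 n hn0 hn1 z hz hcon hsp)
      (spl_up k0 E₁ E₂ B₂ ℓ hdeg0 h₂.deg1 τ hτ)
      (n.map (algebraMap (𝓞 k0) (𝓞 E₂))) (grd_map n hn0)
    apply hw2
    apply hi2
    intro h
    apply hw1
    rw [Ideal.map_le_iff_le_comap]
    exact h
  obtain ⟨w, hw1, hw2⟩ := norm_ne_zero k L ℓ M N hMN m hm0 x
    (dens_zero k L ℓ hdeg m hm0 hm1 x hx hne hspl) (spl_up k L M N ℓ hdeg hMN τM hτM)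
    (m.map (algebraMap (𝓞 k) (𝓞 M)) * Ideal.span {(q : 𝓞 M)})
    (grd_ne (E := M) m hm0 q hq.ne_zero)
  apply hw2
  rw [grd_le (E := M) m q w] at hw1
  push Not at hw1
  have hu : (w.under (𝓞 k0)).under (𝓞 k) = w.under (𝓞 k) := grd_under w
  have hqu : (q : 𝓞 k0) ∉ (w.under (𝓞 k0)).asIdeal := by
    rw [grd_nat]
    exact hw1.2
  have hnu : ¬ n ≤ (w.under (𝓞 k0)).asIdeal := by
    rw [hnle, hu]
    push Not
    exact ⟨hw1.1, hqu⟩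
  have h5 := hzu _ hnu
  rw [hz0, hu] at h5
  obtain ⟨i, hi, hAi⟩ := hA2 _ hqu
  rw [hAi] at h5
  have h6 : (nrm w : ZMod q) = 1 := by
    obtain ⟨σ, hσ⟩ := grd_fr (k := M) hζ w hw1.2
    have h7 : σ ζ = ζ := by
      rw [← hζM]
      exact σ.commutes ζM
    have h8 := grd_mod hq hζ (nrm w) 1 (by rw [← hσ, h7, pow_one])
    rw [h8, Nat.cast_one]
  have h9 : a ^ (i * w.asIdeal.inertiaDeg (𝓞 k0)) = 1 := by
    apply Units.ext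
    rw [Units.val_one, ← h6, grd_norm (k := k0) w, Nat.cast_pow, hi, pow_mul,
      ← Units.val_pow_eq_pow_val]
  have h10 : ((i * w.asIdeal.inertiaDeg (𝓞 k0) : ℕ) : ZMod ℓ) = 0 :=
    (ZMod.natCast_eq_zero_iff _ ℓ).2 (ha.trans (orderOf_dvd_of_pow_eq_one h9))
  push_cast at h10
  rw [grd_deg (k := k) (k0 := k0) w, Nat.cast_mul]
  linear_combination (-(w.asIdeal.inertiaDeg (𝓞 k0) : ZMod ℓ)) * h5 + κ₁ * h10


end

end Pool.Agent.Lib.MP_1a91b9_nuW.CF
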