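import Pool.Agent.Lib.MP_1a91b9_nuW.CF.Fx

/-!
# The fields attached to two automorphisms

PROOF. `G = Gal(N/k)` and `d = orderOf a`, `ℓ ∣ d`.
(1) Every `φ ∈ G` maps `ζ` to a power of `ζ` (`IsPrimitiveRoot`: `φ ζ` is a root of unity of order dividing `q`), and `Gal(L/k)` has prime order, so is
commutative. So a commutator of `G` is trivial on `L` and on `ζ`: `G` is commutative (`hdet`).
(2) `φ_b ^ d = 1`: `φ_b ^ d ζ = ζ ^ (n₀ ^ d) = ζ` (`n₀ ^ d = 1` modulo `q`), and on `L`: the restriction has order dividing `ℓ ∣ d`.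
(3) `ι = φ₁⁻¹ * φ₂`: `ι ζ = ζ`, `ι` is not trivial on `L`, `ι ^ ℓ = 1`, `φ₂ = φ₁ ι`, `φ₂ ^ ℓ = φ₁ ^ ℓ`. If `φ₁ ^ i = ι ^ j` then (on `ζ`) `d ∣ i`, so both are `1`, `ℓ ∣ j`.
`k0 = IntermediateField.fixedField (Subgroup.closure {φ₁, φ₂})` (elements: fixed by `φ₁` and `φ₂`), `k0 → E_b`: an element of `k0` is fixed by `φ_b`, so in the
range of `algebraMap E_b N` (`memE`): `RingHom` `k0 → E_b` by choosing the preimage (injective map; e.g. `(RingHom.codRestrict ..)` with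
`(algebraMap E_b N).fieldRange` and the inverse of the equivalence with the range). Similarly `E₁ → B₂`: `φ₁ x = x` implies `φ₂ ^ ℓ x = φ₁ ^ ℓ x = x` (`memE1` for `B₂`), and
`k0 → B₂` (composition through `E₂`). All towers: check after the injective map to `N`.
`H = closure {φ₁, φ₂} = {φ₁ ^ i * ι ^ j}` (commutative group, finite orders). `Gal(N/k0) = H` (`IntermediateField.fixingSubgroup_fixedField`): so every `τ ∈ Gal(N/k0)` acts on `N` as
some `φ₁ ^ i * ι ^ j`, `τ ζ = φ₁ ^ i ζ = ζ ^ (n₀ ^ i)`. `card H = d * ℓ` (3), `card ⟨φ₁⟩ = d` (`φ₁ ^ i = 1` gives `d ∣ i`).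
`finrank k0 N = card H = d ℓ`, `finrank E₁ N = d` (`E₁` is the fixed field of `⟨φ₁⟩`: `IsGalois.card_aut_eq_finrank` and `Fx.pow`: `Gal(N/E₁)` = the powers of `φ₁`),
so `finrank k0 E₁ = ℓ` (`Module.finrank_mul_finrank`). `IsGalois k0 E₁`: `Gal(N/k0)` is commutative, so `E₁` (image in `N`) is stable under it:
`IsGalois.of_fixedField_normal_subgroup` for the normal subgroup `⟨φ₁⟩` of the commutative group, and transfer (see `unit_abT` in nuX/TG/Unr.lean, `hG`).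
The `τ ∈ Gal(B₂/E₂)` of `Fx.tau` (restriction of `φ₂`) is not trivial on `E₁`: otherwise `φ₂`, so `ι`, fixes all the elements of `E₁`, so `ι ∈ ⟨φ₁⟩` (Galois
correspondence: `ι` acts as an element of `Gal(N/E₁)`, `Fx.pow`), `ι = φ₁ ^ i`, so `ι = 1` (3): contradiction.
`M = fixedField (zpowers ι)`: `x ∈ M ↔ ι x = x`; `ζ ∈ M`; `k0 → M`; `Gal(N/M) = ⟨ι⟩` of order `ℓ` (`ι ≠ 1`, `ι ^ ℓ = 1`), `finrank M N = ℓ`, Galois (`IsGalois k N` and tower).
`τ = ι` as an element of `Gal(N/M)`.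
-/

set_option autoImplicit false

namespace Pool.Agent.Lib.MP_1a91b9_nuW.CF

open NumberField IsDedekindDomain UniqueFactorizationMonoid Pool.Agent.Lib.MP_1a91b9_nt
open Pool.Agent.Lib.MP_1a91b9_nuT Pool.Agent.Lib.MP_1a91b9_nuT.CF
open Pool.Agent.Lib.MP_1a91b9_nuT.S4

universe u

private theorem grf_lift {A E N : Type u} [Field A] [Field E] [Field N] (f : A →+* N) (g : E →+* N)
    (h : ∀ x, f x ∈ Set.range g) : ∃ j : A →+* E, ∀ x, g (j x) = f x := by
  choose j hj using h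
  have hg : Function.Injective g := g.injective
  exact ⟨{ toFun := j
           map_one' := hg (by rw [hj, map_one, map_one])
           map_mul' := fun x y => hg (by rw [hj, map_mul, map_mul, hj, hj])
           map_zero' := hg (by rw [hj, map_zero, map_zero])
           map_add' := fun x y => hg (by rw [hj, map_add, map_add, hj, hj]) }, hj⟩

private theorem grf_mem_fixed {k E : Type u} [Field k] [Field E] [Algebra k E] (σ : Gal(E/k)) (x : E) :
    x ∈ IntermediateField.fixedField (Subgroup.zpowers σ) ↔ σ x = x := by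
  rw [IntermediateField.mem_fixedField_iff]
  constructor
  · intro h
    exact h σ (Subgroup.mem_zpowers σ)
  · intro h f hf
    have h1 : Subgroup.zpowers σ ≤ MulAction.stabilizer Gal(E/k) x := by
      rw [Subgroup.zpowers_le, MulAction.mem_stabilizer_iff]
      exact h
    exact MulAction.mem_stabilizer_iff.1 (h1 hf)

private theorem grf_pow {k N : Type u} [Field k] [Field N] [Algebra k N] {ζ : N} {φ : Gal(N/k)} {n : ℕ}
    (h : φ ζ = ζ ^ n) (i : ℕ) : (φ ^ i) ζ = ζ ^ (n ^ i) := by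
  induction i with
  | zero => simp
  | succ i ih =>
    rw [pow_succ, AlgEquiv.mul_apply, h, map_pow, ih, ← pow_mul, pow_succ]

private theorem grf_ord {N : Type u} [Field N] {q : ℕ} (hq : q.Prime) {a : (ZMod q)ˣ} {n₀ : ℕ}
    (hn : (n₀ : ZMod q) = a) {ζ : N} (hζ : IsPrimitiveRoot ζ q) (i : ℕ) :
    ζ ^ (n₀ ^ i) = ζ ↔ a ^ i = 1 := by
  have h1 : ζ ^ (n₀ ^ i) = ζ ^ 1 ↔ n₀ ^ i ≡ 1 [MOD q] := by
    have hfin : IsOfFinOrder ζ := isOfFinOrder_iff_pow_eq_one.2 ⟨q, hq.pos, hζ.pow_eq_one⟩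
    rw [hfin.pow_eq_pow_iff_modEq, ← hζ.eq_orderOf]
  rw [pow_one] at h1
  rw [h1, ← ZMod.natCast_eq_natCast_iff, Nat.cast_pow, hn, Nat.cast_one, ← Units.val_pow_eq_pow_val,
    Units.val_eq_one]

section
variable {k L N : Type u} [Field k] [NumberField k] [Field L] [NumberField L]
    [Field N] [NumberField N] [Algebra k L] [Algebra k N] [Algebra L N] [IsScalarTower k L N]

private theorem grf_card [IsGalois k L] (ℓ : ℕ) (hdeg : Module.finrank k L = ℓ) :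
    Nat.card Gal(L/k) = ℓ := by
  rw [IsGalois.card_aut_eq_finrank, hdeg]

private theorem grf_res [IsGalois k L] (φ : Gal(N/k)) (x : L) :
    algebraMap L N (AlgEquiv.restrictNormalHom L φ x) = φ (algebraMap L N x) :=
  AlgEquiv.restrictNormal_commutes φ L x

private theorem grf_pow_L [IsGalois k L] (ℓ : ℕ) (hdeg : Module.finrank k L = ℓ) (φ : Gal(N/k)) (x : L) :
    (φ ^ ℓ) (algebraMap L N x) = algebraMap L N x := by
  rw [← grf_res (φ ^ ℓ) x, map_pow, ← grf_card (k := k) (L := L) ℓ hdeg, pow_card_eq_one']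
  rfl

private theorem grf_comm_L [IsGalois k L] (ℓ : ℕ) [Fact ℓ.Prime] (hdeg : Module.finrank k L = ℓ)
    (φ ψ : Gal(N/k)) (x : L) :
    φ (ψ (algebraMap L N x)) = ψ (φ (algebraMap L N x)) := by
  have hc : IsCyclic Gal(L/k) := isCyclic_of_prime_card (grf_card (k := k) (L := L) ℓ hdeg)
  have hcomm : ∀ a b : Gal(L/k), a * b = b * a := by
    intro a b
    obtain ⟨g, hg⟩ := hc.exists_generator
    obtain ⟨i, hi⟩ := Subgroup.mem_zpowers_iff.1 (hg a)
    obtain ⟨j, hj⟩ := Subgroup.mem_zpowers_iff.1 (hg b)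
    rw [← hi, ← hj, ← zpow_add, ← zpow_add, add_comm]
  have h1 : (φ * ψ) (algebraMap L N x) = (ψ * φ) (algebraMap L N x) := by
    rw [← grf_res (φ * ψ) x, ← grf_res (ψ * φ) x, map_mul, map_mul, hcomm]
  exact h1

private theorem grf_det [IsGalois k L] (ℓ : ℕ) [Fact ℓ.Prime] (hdeg : Module.finrank k L = ℓ)
    {n₀ : ℕ} {ζ : N}
    (hdet : ∀ φ : Gal(N/k), (∀ x : L, φ (algebraMap L N x) = algebraMap L N x) → φ ζ = ζ → φ = 1)
    {φ₁ φ₂ : Gal(N/k)} (hφζ₁ : φ₁ ζ = ζ ^ n₀) (hφζ₂ : φ₂ ζ = ζ ^ n₀)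
    (hφ : ∃ x : L, φ₁ (algebraMap L N x) ≠ φ₂ (algebraMap L N x)) :
    ∃ ι : Gal(N/k), φ₂ = φ₁ * ι ∧ ι * φ₁ = φ₁ * ι ∧ ι ζ = ζ ∧ ι ^ ℓ = 1 ∧
      (∃ x : L, ι (algebraMap L N x) ≠ algebraMap L N x) ∧ φ₂ ^ ℓ = φ₁ ^ ℓ := by
  have hc : φ₁ * φ₂ = φ₂ * φ₁ := by
    have h1 : (φ₂ * φ₁)⁻¹ * (φ₁ * φ₂) = 1 := by
      apply hdet
      · intro x
        rw [AlgEquiv.mul_apply, AlgEquiv.mul_apply, grf_comm_L ℓ hdeg φ₁ φ₂ x]
        rw [← AlgEquiv.mul_apply φ₂ φ₁, ← AlgEquiv.mul_apply, inv_mul_cancel]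
        rfl
      · have h2 : (φ₁ * φ₂) ζ = (φ₂ * φ₁) ζ := by
          rw [AlgEquiv.mul_apply, AlgEquiv.mul_apply, hφζ₂, hφζ₁, map_pow, map_pow, hφζ₁, hφζ₂]
        rw [AlgEquiv.mul_apply, h2, ← AlgEquiv.mul_apply, inv_mul_cancel]
        rfl
    exact (inv_mul_eq_one.1 h1).symm
  have hcc : Commute φ₁ φ₂ := hc
  have h2 : φ₁⁻¹ * φ₂ * φ₁ = φ₁ * (φ₁⁻¹ * φ₂) := by
    rw [mul_assoc, ← hc, inv_mul_cancel_left, mul_inv_cancel_left]
  have h3 : (φ₁⁻¹ * φ₂) ζ = ζ := by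
    rw [AlgEquiv.mul_apply, hφζ₂, ← hφζ₁, ← AlgEquiv.mul_apply, inv_mul_cancel]
    rfl
  have h4 : (φ₁⁻¹ * φ₂) ^ ℓ = 1 := by
    apply hdet
    · exact fun x => grf_pow_L ℓ hdeg _ x
    · have h5 : (φ₁⁻¹ * φ₂) ζ = ζ ^ 1 := by rw [h3, pow_one]
      rw [grf_pow h5 ℓ, one_pow, pow_one]
  refine ⟨φ₁⁻¹ * φ₂, (mul_inv_cancel_left φ₁ φ₂).symm, h2, h3, h4, ?_, ?_⟩
  · obtain ⟨x, hx⟩ := hφ
    refine ⟨x, fun h => hx ?_⟩
    rw [AlgEquiv.mul_apply] at h
    have h5 := congrArg φ₁ h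
    rw [← AlgEquiv.mul_apply, mul_inv_cancel] at h5
    exact h5.symm
  · have h5 : (φ₁⁻¹ * φ₂) ^ ℓ = (φ₁ ^ ℓ)⁻¹ * φ₂ ^ ℓ := by
      rw [(hcc.inv_left).mul_pow, inv_pow]
    rw [h5] at h4
    exact (inv_mul_eq_one.1 h4).symm

end

/-- an automorphism commuting with `φ` acts on the fixed field of `φ` -/
private theorem grf_sigma {k E N : Type u} [Field k] [Field E] [Field N] [Algebra k E] [Algebra k N]
    [Algebra E N] [IsScalarTower k E N] [FiniteDimensional k E] {φ ψ : Gal(N/k)}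
    (hmem : ∀ x : N, x ∈ Set.range (algebraMap E N) ↔ φ x = x) (hc : ψ * φ = φ * ψ) :
    ∃ σ : Gal(E/k), ∀ x : E, algebraMap E N (σ x) = ψ (algebraMap E N x) := by
  obtain ⟨j, hj⟩ := grf_lift ((ψ : N →+* N).comp (algebraMap E N)) (algebraMap E N) (by
    intro x
    rw [hmem]
    have h1 : φ (algebraMap E N x) = algebraMap E N x := (hmem _).1 ⟨x, rfl⟩
    show φ (ψ (algebraMap E N x)) = ψ (algebraMap E N x)
    rw [← AlgEquiv.mul_apply, ← hc, AlgEquiv.mul_apply, h1])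
  have hcom : ∀ r : k, j (algebraMap k E r) = algebraMap k E r := by
    intro r
    apply (algebraMap E N).injective
    rw [hj]
    show ψ (algebraMap E N (algebraMap k E r)) = _
    rw [← IsScalarTower.algebraMap_apply k E N, AlgEquiv.commutes]
  let f : E →ₐ[k] E := { j with commutes' := hcom }
  refine ⟨(algEquivEquivAlgHom k E).symm f, fun x => ?_⟩
  exact hj x

section
variable {k L N : Type u} [Field k] [NumberField k] [Field L] [NumberField L]
    [Field N] [NumberField N] [Algebra k L] [Algebra k N] [Algebra L N] [IsScalarTower k L N]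
variable {ℓ : ℕ} {φ₁ φ₂ : Gal(N/k)} {E₁ B₁ E₂ B₂ : Type u}
    [Field E₁] [NumberField E₁] [Field B₁]
    [NumberField B₁] [Algebra k E₁] [Algebra k B₁] [Algebra E₁ B₁] [Algebra E₁ N] [Algebra B₁ N]
    [Algebra L B₁] [IsScalarTower k E₁ B₁] [IsScalarTower k E₁ N] [IsScalarTower k B₁ N]
    [IsScalarTower E₁ B₁ N] [IsScalarTower k L B₁] [IsScalarTower L B₁ N]
    [Field E₂] [NumberField E₂] [Field B₂]
    [NumberField B₂] [Algebra k E₂] [Algebra k B₂] [Algebra E₂ B₂] [Algebra E₂ N] [Algebra B₂ N]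
    [Algebra L B₂] [IsScalarTower k E₂ B₂] [IsScalarTower k E₂ N] [IsScalarTower k B₂ N]
    [IsScalarTower E₂ B₂ N] [IsScalarTower k L B₂] [IsScalarTower L B₂ N]
    (h₁ : Fx k L N ℓ φ₁ E₁ B₁) (h₂ : Fx k L N ℓ φ₂ E₂ B₂) [CD] [IsGalois k L] [IsGalois k N]
    [Fact ℓ.Prime] (hdeg : Module.finrank k L = ℓ)
    {q : ℕ} (hq : q.Prime) {a : (ZMod q)ˣ} (ha : ℓ ∣ orderOf a) {n₀ : ℕ}
    (hn : (n₀ : ZMod q) = a) {ζ : N} (hζ : IsPrimitiveRoot ζ q)
    (hdet : ∀ φ : Gal(N/k), (∀ x : L, φ (algebraMap L N x) = algebraMap L N x) → φ ζ = ζ → φ = 1)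
    (hφζ₁ : φ₁ ζ = ζ ^ n₀) (hφζ₂ : φ₂ ζ = ζ ^ n₀)
    (hφ₁ : ∃ x : L, φ₁ (algebraMap L N x) ≠ algebraMap L N x)
    (hφ₂ : ∃ x : L, φ₂ (algebraMap L N x) ≠ algebraMap L N x)
    (hφ : ∃ x : L, φ₁ (algebraMap L N x) ≠ φ₂ (algebraMap L N x))

include h₁ h₂ hdeg hq ha hn hζ hdet hφζ₁ hφζ₂ hφ₁ hφ₂ hφ in
theorem exists_grid :
    ∃ (k0 M : Type u) (_ : Field k0) (_ : NumberField k0) (_ : Field M) (_ : NumberField M)
      (_ : Algebra k k0) (_ : Algebra k0 E₁) (_ : Algebra k0 E₂) (_ : Algebra k0 B₂)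
      (_ : Algebra E₁ B₂) (_ : Algebra k0 N) (_ : Algebra k M) (_ : Algebra k0 M) (_ : Algebra M N)
      (_ : IsScalarTower k k0 E₁) (_ : IsScalarTower k k0 E₂) (_ : IsScalarTower k0 E₂ B₂)
      (_ : IsScalarTower k0 E₁ B₂) (_ : IsScalarTower k k0 N) (_ : IsScalarTower k0 E₁ N)
      (_ : IsScalarTower k0 E₂ N) (_ : IsScalarTower k k0 M) (_ : IsScalarTower k M N)
      (_ : IsScalarTower k0 M N),
      IsGalois k0 E₁ ∧ Module.finrank k0 E₁ = ℓ ∧ IsGalois k0 N ∧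
      (∀ τ : Gal(N/k0), ∃ i : ℕ, τ ζ = ζ ^ (n₀ ^ i)) ∧
      (∃ (τ : Gal(B₂/E₂)) (x : E₁), τ (algebraMap E₁ B₂ x) ≠ algebraMap E₁ B₂ x) ∧
      IsGalois M N ∧ Module.finrank M N = ℓ ∧ ζ ∈ Set.range (algebraMap M N) ∧
      (∃ (τ : Gal(N/M)) (x : L), τ (algebraMap L N x) ≠ algebraMap L N x) := by
  have hℓ : ℓ.Prime := Fact.out
  obtain ⟨ι, hι1, hιc, hιζ, hιℓ, hιL, hpow⟩ := grf_det ℓ hdeg hdet hφζ₁ hφζ₂ hφ
  have fN : FiniteDimensional k N := inferInstance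
  have fE : FiniteDimensional k E₁ := inferInstance
  obtain ⟨σ, hσ⟩ := grf_sigma (k := k) (E := E₁) (N := N) h₁.memE hιc
  have injE : Function.Injective (algebraMap E₁ N) := (algebraMap E₁ N).injective
  -- powers of `σ`
  have hσpow : ∀ (i : ℕ) (x : E₁), algebraMap E₁ N ((σ ^ i) x) = (ι ^ i) (algebraMap E₁ N x) := by
    intro i
    induction i with
    | zero => intro x; rfl
    | succ i ih =>
      intro x
      rw [pow_succ', pow_succ', AlgEquiv.mul_apply, AlgEquiv.mul_apply, hσ, ih]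
  have hσℓ : σ ^ ℓ = 1 := by
    apply AlgEquiv.ext
    intro x
    apply injE
    rw [hσpow, hιℓ]
    rfl
  have hσ1 : σ ≠ 1 := by
    intro h
    have h2 : ∀ x : E₁, ι (algebraMap E₁ N x) = algebraMap E₁ N x := by
      intro x
      rw [← hσ, h]
      rfl
    let τ : Gal(N/E₁) := { ι with commutes' := h2 }
    obtain ⟨i, hi⟩ := h₁.pow τ
    have h3 : ι = φ₁ ^ i := AlgEquiv.ext fun x => hi x
    have h4 : a ^ i = 1 := by
      rw [← grf_ord hq hn hζ i, ← grf_pow hφζ₁ i, ← h3, hιζ]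
    have h5 : φ₁ ^ i = 1 := by
      obtain ⟨c, hc⟩ := ha.trans (orderOf_dvd_of_pow_eq_one h4)
      apply hdet
      · intro x
        rw [hc, pow_mul, ← grf_res ((φ₁ ^ ℓ) ^ c) x, map_pow]
        have h6 : AlgEquiv.restrictNormalHom L (φ₁ ^ ℓ) = (1 : Gal(L/k)) := by
          rw [map_pow, ← grf_card (k := k) (L := L) ℓ hdeg, pow_card_eq_one']
        rw [h6, one_pow]
        rfl
      · rw [grf_pow hφζ₁ i, (grf_ord hq hn hζ i).2 h4]
    obtain ⟨x, hx⟩ := hιL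
    apply hx
    rw [h3, h5]
    rfl
  have hord : Nat.card (Subgroup.zpowers σ) = ℓ := by
    rw [Nat.card_zpowers, orderOf_eq_prime hσℓ hσ1]
  have hιord : Nat.card (Subgroup.zpowers ι) = ℓ := by
    rw [Nat.card_zpowers, orderOf_eq_prime hιℓ (by
      rintro rfl
      obtain ⟨x, hx⟩ := hιL
      exact hx rfl)]
  set k0 : IntermediateField k E₁ := IntermediateField.fixedField (Subgroup.zpowers σ) with hk0
  set M : IntermediateField k N := IntermediateField.fixedField (Subgroup.zpowers ι) with hM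
  have hk0m : ∀ x : E₁, x ∈ k0 ↔ σ x = x := fun x => grf_mem_fixed σ x
  have hMm : ∀ x : N, x ∈ M ↔ ι x = x := fun x => grf_mem_fixed ι x
  -- elements of `k0` in `N`
  have hk0N : ∀ x : k0, φ₁ (algebraMap E₁ N (x : E₁)) = algebraMap E₁ N (x : E₁) ∧
      ι (algebraMap E₁ N (x : E₁)) = algebraMap E₁ N (x : E₁) := by
    intro x
    refine ⟨(h₁.memE _).1 ⟨_, rfl⟩, ?_⟩
    rw [← hσ, (hk0m _).1 x.2]
  obtain ⟨j2, hj2⟩ := grf_lift ((algebraMap E₁ N).comp (algebraMap k0 E₁)) (algebraMap E₂ N) (by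
    intro x
    rw [h₂.memE, hι1, AlgEquiv.mul_apply]
    show φ₁ (ι (algebraMap E₁ N (x : E₁))) = algebraMap E₁ N (x : E₁)
    rw [(hk0N x).2, (hk0N x).1])
  obtain ⟨jB, hjB⟩ := grf_lift (algebraMap E₁ N) (algebraMap B₂ N) (by
    intro x
    rw [h₂.memE1, hpow]
    have h3 : ∀ i : ℕ, (φ₁ ^ i) (algebraMap E₁ N x) = algebraMap E₁ N x := by
      intro i
      induction i with
      | zero => rfl
      | succ i ih =>
        rw [pow_succ, AlgEquiv.mul_apply, (h₁.memE _).1 ⟨x, rfl⟩, ih]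
    exact h3 ℓ)
  obtain ⟨jM, hjM⟩ := grf_lift ((algebraMap E₁ N).comp (algebraMap k0 E₁)) (algebraMap M N) (by
    intro x
    exact ⟨⟨algebraMap E₁ N (x : E₁), (hMm _).2 (hk0N x).2⟩, rfl⟩)
  have hj2' : ∀ x : k0, algebraMap E₂ N (j2 x) = algebraMap E₁ N (x : E₁) := hj2
  have hjM' : ∀ x : k0, algebraMap M N (jM x) = algebraMap E₁ N (x : E₁) := hjM
  let a2 : Algebra k0 E₂ := j2.toAlgebra
  let a3 : Algebra k0 B₂ := ((algebraMap E₂ B₂).comp j2).toAlgebra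
  let a4 : Algebra E₁ B₂ := jB.toAlgebra
  let a5 : Algebra k0 N := ((algebraMap E₁ N).comp (algebraMap k0 E₁)).toAlgebra
  let a6 : Algebra k0 M := jM.toAlgebra
  have t1 : @IsScalarTower k k0 E₂ _ a2.toSMul _ := IsScalarTower.of_algebraMap_eq fun x => by
    apply (algebraMap E₂ N).injective
    rw [← IsScalarTower.algebraMap_apply k E₂ N]
    exact ((hj2' (algebraMap k k0 x)).trans (IsScalarTower.algebraMap_apply k E₁ N x).symm).symm
  have t2 : @IsScalarTower k0 E₂ B₂ a2.toSMul _ a3.toSMul := IsScalarTower.of_algebraMap_eq fun x => rfl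
  have t3 : @IsScalarTower k0 E₁ B₂ _ a4.toSMul a3.toSMul := IsScalarTower.of_algebraMap_eq fun x => by
    apply (algebraMap B₂ N).injective
    show algebraMap B₂ N (algebraMap E₂ B₂ (j2 x)) = algebraMap B₂ N (jB (x : E₁))
    rw [← IsScalarTower.algebraMap_apply E₂ B₂ N, hj2' x, hjB]
  have t4 : @IsScalarTower k k0 N _ a5.toSMul _ := IsScalarTower.of_algebraMap_eq fun x =>
    IsScalarTower.algebraMap_apply k E₁ N x
  have t5 : @IsScalarTower k0 E₁ N _ _ a5.toSMul := IsScalarTower.of_algebraMap_eq fun x => rfl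
  have t6 : @IsScalarTower k0 E₂ N a2.toSMul _ a5.toSMul := IsScalarTower.of_algebraMap_eq fun x => (hj2' x).symm
  have t7 : @IsScalarTower k k0 M _ a6.toSMul _ := IsScalarTower.of_algebraMap_eq fun x => by
    apply (algebraMap M N).injective
    exact ((hjM' (algebraMap k k0 x)).trans (IsScalarTower.algebraMap_apply k E₁ N x).symm).symm
  have t8 : @IsScalarTower k0 M N a6.toSMul _ a5.toSMul := IsScalarTower.of_algebraMap_eq fun x => (hjM' x).symm
  have g1 : IsGalois k0 E₁ := IsGalois.of_fixed_field E₁ (Subgroup.zpowers σ)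
  have g2 : Module.finrank k0 E₁ = ℓ := by
    rw [hk0, IntermediateField.finrank_fixedField_eq_card, hord]
  have g3 : IsGalois k0 N := IsGalois.tower_top_of_isGalois k k0 N
  have g4 : ∀ τ : Gal(N/k0), ∃ i : ℕ, τ ζ = ζ ^ (n₀ ^ i) := by
    intro τ
    have h3 : (τ.restrictScalars k : Gal(N/k)) ∈ Subgroup.closure {φ₁, ι} := by
      rw [← IntermediateField.fixingSubgroup_fixedField (Subgroup.closure {φ₁, ι}),
        IntermediateField.mem_fixingSubgroup_iff]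
      intro x hx
      rw [IntermediateField.mem_fixedField_iff] at hx
      have hx1 : φ₁ x = x := hx φ₁ (Subgroup.subset_closure (Set.mem_insert _ _))
      have hx2 : ι x = x := hx ι (Subgroup.subset_closure (Set.mem_insert_of_mem _ rfl))
      obtain ⟨y, rfl⟩ := (h₁.memE x).2 hx1
      have hy : y ∈ k0 := by
        rw [hk0m]
        apply injE
        rw [hσ, hx2]
      exact τ.commutes ⟨y, hy⟩
    have h4 : ∀ g ∈ Subgroup.closure {φ₁, ι}, ∃ i : ℕ, g ζ = ζ ^ (n₀ ^ i) := by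
      intro g hg
      induction hg using Subgroup.closure_induction with
      | mem g hg =>
        rcases hg with rfl | hg
        · exact ⟨1, by rw [pow_one]; exact hφζ₁⟩
        · have : g = ι := hg
          subst this
          exact ⟨0, by rw [pow_zero, pow_one]; exact hιζ⟩
      | one => exact ⟨0, by rw [pow_zero, pow_one]; rfl⟩
      | mul g g' _ _ h h' =>
        obtain ⟨i, hi⟩ := h
        obtain ⟨i', hi'⟩ := h'
        refine ⟨i + i', ?_⟩
        rw [AlgEquiv.mul_apply, hi', map_pow, hi, ← pow_mul, pow_add]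
      | inv g _ h =>
        obtain ⟨i, hi⟩ := h
        have hfin : IsOfFinOrder g := isOfFinOrder_of_finite g
        refine ⟨i * (orderOf g - 1), ?_⟩
        have h5 : g⁻¹ = g ^ (orderOf g - 1) := by
          rw [inv_eq_iff_mul_eq_one, ← pow_succ', Nat.sub_add_cancel hfin.orderOf_pos, pow_orderOf_eq_one]
        rw [h5, grf_pow hi, ← pow_mul]
    exact h4 _ h3
  have g5 : ∃ (τ : Gal(B₂/E₂)) (x : E₁), τ (algebraMap E₁ B₂ x) ≠ algebraMap E₁ B₂ x := by
    obtain ⟨τ, hτ⟩ := h₂.tau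
    by_contra hcon
    push Not at hcon
    apply hσ1
    apply AlgEquiv.ext
    intro x
    apply injE
    have h3 := hτ (algebraMap E₁ B₂ x)
    rw [hcon τ x] at h3
    have h4 : algebraMap B₂ N (algebraMap E₁ B₂ x) = algebraMap E₁ N x := hjB x
    rw [h4, hι1, ← hιc, AlgEquiv.mul_apply, (h₁.memE _).1 ⟨x, rfl⟩, ← hσ] at h3
    exact h3.symm
  have g6 : IsGalois M N := IsGalois.of_fixed_field N (Subgroup.zpowers ι)
  have g7 : Module.finrank M N = ℓ := by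
    rw [hM, IntermediateField.finrank_fixedField_eq_card, hιord]
  have g8 : ζ ∈ Set.range (algebraMap M N) := ⟨⟨ζ, (hMm ζ).2 hιζ⟩, rfl⟩
  have g9 : ∃ (τ : Gal(N/M)) (x : L), τ (algebraMap L N x) ≠ algebraMap L N x := by
    obtain ⟨x, hx⟩ := hιL
    let τ : Gal(N/M) := { ι with commutes' := fun y => (hMm y).1 y.2 }
    exact ⟨τ, x, hx⟩
  exact ⟨k0, M, inferInstance, inferInstance, inferInstance, inferInstance, inferInstance,
    inferInstance, a2, a3, a4, a5, inferInstance, a6, inferInstance, inferInstance, t1, t2, t3, t4, t5,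
    t6, t7, inferInstance, t8, g1, g2, g3, g4, g5, g6, g7, g8, g9⟩


end

end Pool.Agent.Lib.MP_1a91b9_nuW.CF
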