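import Pool.Agent.Lib.MP_1a91b9_nuW.CF.Nrm

/-!
# The norms of units at a wildly ramified place, modulo `v ^ t`

PROOF.
frob: `x` integral at `v`: `z : 𝓞 k` with `Le v 1 (x - z)` (`Le.exists_int`); `R = 𝓞 k ⧸ v` is a finite field in which `ℓ = 0`, so of
characteristic `ℓ`: the Frobenius `a ↦ a ^ ℓ` is injective, so bijective: `z = a ^ ℓ` modulo `v`.
sur: it is enough: for all `n : ℕ`, `n ≤ t`: there is `u` with `Eo Q 0 u` and `Le v n (y / norm u - 1)`. Induction on `n`.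
`n = 0`: `u = 1`. `n = 1` (from `0`): frob: `a` with `Le v 1 (y - a ^ ℓ)`, `Eo v 0 (a ^ ℓ)` (`Eo.add_le`), so `Eo v 0 a`; `u = algebraMap k L
a`, `norm u = a ^ ℓ` (`Algebra.norm_algebraMap`, `h.deg`), `y / a ^ ℓ - 1 = (y - a ^ ℓ) / a ^ ℓ`. Step `n → n + 1`, `1 ≤ n < t`:
`d = y / norm u - 1`, `Le v n d`; `π = norm ϖ`, `Eo v 1 π` (`nm_eo`), frob for `d / π ^ n`: `a`, `Le v 1 (d / π ^ n - a ^ ℓ)`, so `Le v (n + 1)
(d - a ^ ℓ π ^ n)`. `x = algebraMap k L a * ϖ ^ n`, `Le Q n x`, `norm x = a ^ ℓ π ^ n`. `norm_one_add` with `m = n + 1` (`ℓ n < n + t (ℓ -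
1)` as `n < t`, `ℓ ≥ 2`): `Le v (n+1) (norm (1 + x) - 1 - norm x)`. So `Le v (n+1) (norm (1 + x) - (1 + d))`. `Eo v 0 (1 + d)`,
`Eo v 0 (norm (1+x))`, `Eo Q 0 (1 + x)` (`n ≥ 1`). `u' = u (1 + x)`: `y / norm u' - 1 = ((1 + d) - norm (1 + x)) / norm (1 + x)`.
char_ne: a character `c` killing the norms with `c z = 0` for all `z : 𝓞 k`, `z ∉ v`, `z - 1 ∈ v ^ t`, is `0` on all the
units at `v`. `y : kˣ`, `Eo v 0 y`: `u` from sur, `u : Lˣ`, `y = norm u * s`, `Le v t (s - 1)`, `c y = c s`. `Eo v 0 s`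
(`norm u` and `y` have order `0`). `s : k`: `Le.exists_int` for `s` with `n = t' + 1` where `t'` is an integer `≥ t` and
`≥` the exponent for which `c` is known to be trivial (hypothesis `hone`: `Le v (t+1) (y - 1) → c y = 0`): `z : 𝓞 k`,
`Le v (t + 1) (s - z)`: `c s = c z` (quotient `s / z`, `Le v (t+1) (s/z - 1)`), `z ∉ v`, `z - 1 ∈ v ^ t` (`le_mem`). So `c z = 0`.
-/

set_option autoImplicit false

namespace Pool.Agent.Lib.MP_1a91b9_nuW.CF

open NumberField IsDedekindDomain Pool.Agent.Lib.MP_1a91b9_nt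
open Pool.Agent.Lib.MP_1a91b9_nuT Pool.Agent.Lib.MP_1a91b9_nuT.CF

universe u

section
variable {k L : Type u} [Field k] [NumberField k] [Field L] [NumberField L] [Algebra k L]
variable [CD] {ℓ : ℕ} {v : HeightOneSpectrum (𝓞 k)} {Q : HeightOneSpectrum (𝓞 L)} {σ : Gal(L/k)}
  {ϖ : 𝓞 L} {t : ℕ}

omit [CD] in
private theorem sur_eo_root {F : Type u} [Field F] [NumberField F] {w : HeightOneSpectrum (𝓞 F)}
    {m : ℕ} (hm : m ≠ 0) {x : F} (h : Eo w 0 (x ^ m)) : Eo w 0 x := by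
  have hx : x ≠ 0 := by
    rintro rfl
    rw [zero_pow hm] at h
    exact h.ne_zero rfl
  obtain ⟨i, hi⟩ := exists_eo (w := w) hx
  have h1 := (hi.pow m).unique h
  have h2 : i = 0 := by
    rcases mul_eq_zero.1 h1 with h3 | h3
    · exact absurd (by exact_mod_cast h3) hm
    · exact h3
  rwa [h2] at hi

theorem frob_surj (hℓ : ℓ.Prime) (hv : (ℓ : 𝓞 k) ∈ v.asIdeal) {x : k} (hx : Le v 0 x) :
    ∃ a : 𝓞 k, Le v 1 (x - (a : k) ^ ℓ) := by
  obtain ⟨z, hz⟩ := hx.exists_int 1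
  have hfin : Finite (𝓞 k ⧸ v.asIdeal) := Ideal.finiteQuotientOfFreeOfNeBot v.asIdeal v.ne_bot
  have hpr : v.asIdeal.IsPrime := v.isPrime
  have hdom : IsDomain (𝓞 k ⧸ v.asIdeal) := Ideal.Quotient.isDomain v.asIdeal
  have hc0 : ((ℓ : ℕ) : 𝓞 k ⧸ v.asIdeal) = 0 := by
    have h1 : (Ideal.Quotient.mk v.asIdeal) (ℓ : 𝓞 k) = 0 := Ideal.Quotient.eq_zero_iff_mem.2 hv
    rwa [map_natCast] at h1
  have hchar : CharP (𝓞 k ⧸ v.asIdeal) ℓ := (CharP.charP_iff_prime_eq_zero hℓ).2 hc0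
  have hfact : Fact ℓ.Prime := ⟨hℓ⟩
  have hinj : Function.Injective (frobenius (𝓞 k ⧸ v.asIdeal) ℓ) := frobenius_inj _ ℓ
  have hsurj : Function.Surjective (frobenius (𝓞 k ⧸ v.asIdeal) ℓ) :=
    Finite.injective_iff_surjective.1 hinj
  obtain ⟨b, hb⟩ := hsurj (Ideal.Quotient.mk v.asIdeal z)
  obtain ⟨a, rfl⟩ := Ideal.Quotient.mk_surjective b
  rw [frobenius_def, ← map_pow, Ideal.Quotient.eq] at hb
  refine ⟨a, ?_⟩
  have h2 : Le v 1 ((a ^ ℓ - z : 𝓞 k) : k) := (le_one_mem _).2 hb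
  have h3 : ((a ^ ℓ - z : 𝓞 k) : k) = (a : k) ^ ℓ - (z : k) := by
    change algebraMap (𝓞 k) k (a ^ ℓ - z) = (algebraMap (𝓞 k) k a) ^ ℓ - algebraMap (𝓞 k) k z
    rw [map_sub, map_pow]
  rw [h3] at h2
  have h4 : x - (a : k) ^ ℓ = (x - (z : k)) - ((a : k) ^ ℓ - (z : k)) := by ring
  rw [h4]
  have h5 : Le v 1 (x - (z : k)) := by
    have h6 := hz
    rwa [Nat.cast_one] at h6
  exact h5.sub h2

variable (h : Tot ℓ v Q σ ϖ t) (hv : (ℓ : 𝓞 k) ∈ v.asIdeal)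
include h hv

private theorem sur_step {n : ℕ} (hn : 1 ≤ n) (hnt : n < t) {y : k} {u : L}
    (hu : Eo Q 0 u) (hd : Le v n (y / Algebra.norm k u - 1)) :
    ∃ u' : L, Eo Q 0 u' ∧ Le v ((n : ℤ) + 1) (y / Algebra.norm k u' - 1) := by
  obtain ⟨d, hdd⟩ : ∃ d, d = y / Algebra.norm k u - 1 := ⟨_, rfl⟩
  rw [← hdd] at hd
  have hπ : Eo v 1 (Algebra.norm k (ϖ : L)) := h.nm_eo h.pi
  obtain ⟨q, hq⟩ : ∃ q, q = Algebra.norm k (ϖ : L) := ⟨_, rfl⟩
  rw [← hq] at hπ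
  have hπn : Eo v n (q ^ n) := by
    have h1 := hπ.pow n
    rwa [mul_one] at h1
  have h0 : Le v 0 (d / q ^ n) := by
    have h1 := hd.div hπn
    rwa [sub_self] at h1
  obtain ⟨a, ha⟩ := frob_surj h.pr hv h0
  have h1 : Le v ((n : ℤ) + 1) (d - (a : k) ^ ℓ * q ^ n) := by
    have h2 := ha.mul hπn.le
    have h3 : (d / q ^ n - (a : k) ^ ℓ) * q ^ n = d - (a : k) ^ ℓ * q ^ n := by
      rw [sub_mul, div_mul_cancel₀ _ hπn.ne_zero]
    rw [h3, add_comm (1 : ℤ)] at h2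
    exact h2
  obtain ⟨x, hx⟩ : ∃ x : L, x = algebraMap k L (a : k) * (ϖ : L) ^ n := ⟨_, rfl⟩
  have hxn : Le Q n x := by
    have h2 : Le Q (ℓ * 0) (algebraMap k L (a : k)) := h.up.2 (Le.int a)
    have h3 := h2.mul (h.pi.le.pow n)
    rw [mul_zero, zero_add, mul_one, ← hx] at h3
    exact h3
  have hnx : Algebra.norm k x = (a : k) ^ ℓ * q ^ n := by
    rw [hx, map_mul, map_pow, Algebra.norm_algebraMap, h.deg, ← hq]
  have hℓ2 : (2 : ℤ) ≤ ℓ := by exact_mod_cast h.pr.two_le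
  have hm : (ℓ : ℤ) * (((n : ℤ) + 1) - 1) < n + t * (ℓ - 1) := by
    have h2 : (n : ℤ) < t := by exact_mod_cast hnt
    have h3 : (n : ℤ) * (ℓ - 1) < t * (ℓ - 1) := mul_lt_mul_of_pos_right h2 (by linarith)
    linarith
  have h4 := h.norm_one_add hv hn hxn hm
  have hn1 : (1 : ℤ) ≤ n := by exact_mod_cast hn
  have h5 : Le v ((n : ℤ) + 1) (Algebra.norm k (1 + x) - (1 + d)) := by
    have h6 := h4.sub h1
    rw [hnx] at h6
    have h7 : Algebra.norm k (1 + x) - 1 - (a : k) ^ ℓ * q ^ n - (d - (a : k) ^ ℓ * q ^ n) =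
        Algebra.norm k (1 + x) - (1 + d) := by ring
    rwa [h7] at h6
  have h8 : Eo v 0 (1 + d) := Eo.one.add_le (hd.mono (by omega))
  have h9 : Eo v 0 (Algebra.norm k (1 + x)) := by
    have h10 := h8.add_le (h5.mono (by omega))
    have h11 : 1 + d + (Algebra.norm k (1 + x) - (1 + d)) = Algebra.norm k (1 + x) := by ring
    rwa [h11] at h10
  have h12 : Eo Q 0 (1 + x) := Eo.one.add_le (hxn.mono (by omega))
  refine ⟨u * (1 + x), ?_, ?_⟩
  · have h13 := hu.mul h12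
    rwa [add_zero] at h13
  · have h14 : y / Algebra.norm k (u * (1 + x)) - 1 =
        -((Algebra.norm k (1 + x) - (1 + d)) / Algebra.norm k (1 + x)) := by
      have h15 : 1 + d = y / Algebra.norm k u := by
        rw [hdd]
        ring
      have h16 := h9.ne_zero
      rw [map_mul, h15, ← div_div]
      field_simp
      ring
    rw [h14]
    have h17 := h5.div h9
    rw [sub_zero] at h17
    exact h17.neg

private theorem sur_first {y : k} (hy : Eo v 0 y) :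
    ∃ u' : L, Eo Q 0 u' ∧ Le v 1 (y / Algebra.norm k u' - 1) := by
  obtain ⟨a, ha⟩ := frob_surj h.pr hv hy.le
  have h1 : Eo v 0 ((a : k) ^ ℓ) := by
    have h2 : Eo v 0 (y + -(y - (a : k) ^ ℓ)) := hy.add_le (by rw [zero_add]; exact ha.neg)
    have h3 : y + -(y - (a : k) ^ ℓ) = (a : k) ^ ℓ := by ring
    rwa [h3] at h2
  have h4 : Eo v 0 (a : k) := sur_eo_root h.pr.ne_zero h1
  refine ⟨algebraMap k L (a : k), ?_, ?_⟩
  · have h5 : Eo Q (ℓ * 0) (algebraMap k L (a : k)) := h.up_eo.2 h4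
    rwa [mul_zero] at h5
  · rw [Algebra.norm_algebraMap, h.deg]
    have h6 : y / (a : k) ^ ℓ - 1 = (y - (a : k) ^ ℓ) / (a : k) ^ ℓ := by
      rw [sub_div, div_self h1.ne_zero]
    rw [h6]
    have h7 := ha.div h1
    rwa [sub_zero] at h7

theorem Tot.sur {y : k} (hy : Eo v 0 y) : ∃ u : L, Eo Q 0 u ∧
    Le v t (y / Algebra.norm k u - 1) := by
  have key : ∀ n : ℕ, n ≤ t → ∃ u : L, Eo Q 0 u ∧ Le v n (y / Algebra.norm k u - 1) := by
    intro n
    induction n with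
    | zero =>
      intro _
      refine ⟨1, Eo.one, ?_⟩
      rw [map_one, div_one, Nat.cast_zero]
      exact hy.le.sub Le.one
    | succ n ih =>
      intro hn
      rcases Nat.eq_zero_or_pos n with h0 | h0
      · subst h0
        obtain ⟨u, hu, hu'⟩ := sur_first h hv hy
        refine ⟨u, hu, ?_⟩
        rw [zero_add, Nat.cast_one]
        exact hu'
      · obtain ⟨u, hu, hd⟩ := ih (by omega)
        obtain ⟨u', hu', hd'⟩ := sur_step h hv h0 (by omega) hu hd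
        refine ⟨u', hu', ?_⟩
        push_cast
        exact hd'
  exact key t le_rfl

theorem Tot.char_ne {c : Additive kˣ →+ ZMod ℓ} (hnm : ∀ y : Additive Lˣ, c (nmA k L y) = 0)
    (hone : ∀ y : kˣ, Le v (t + 1) ((y : k) - 1) → c (Additive.ofMul y) = 0)
    (hz : ∀ z : 𝓞 k, z ∉ v.asIdeal → z - 1 ∈ v.asIdeal ^ t →
      ∀ y : kˣ, (y : k) = (z : k) → c (Additive.ofMul y) = 0) {y : kˣ} (hy : Eo v 0 (y : k)) :
    c (Additive.ofMul y) = 0 := by
  obtain ⟨u, hu, hd⟩ := h.sur hv hy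
  have hN : Eo v 0 (Algebra.norm k u) := h.nm_eo hu
  obtain ⟨N, hNe⟩ : ∃ N : kˣ, (N : k) = Algebra.norm k u := ⟨Units.mk0 _ hN.ne_zero, rfl⟩
  have hcN : c (Additive.ofMul N) = 0 := by
    have h1 := hnm (Additive.ofMul (Units.mk0 u hu.ne_zero))
    have h2 : nmA k L (Additive.ofMul (Units.mk0 u hu.ne_zero)) = Additive.ofMul N := by
      refine Additive.toMul.injective (Units.ext ?_)
      rw [toMul_ofMul, hNe]
      rfl
    rwa [h2] at h1
  obtain ⟨s, hs⟩ : ∃ s : kˣ, s = y * N⁻¹ := ⟨_, rfl⟩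
  have hsv : (s : k) = (y : k) / Algebra.norm k u := by
    rw [hs, Units.val_mul, Units.val_inv_eq_inv_val, hNe, div_eq_mul_inv]
  have hcy : c (Additive.ofMul y) = c (Additive.ofMul s) := by
    have h1 : y = s * N := by rw [hs, inv_mul_cancel_right]
    rw [h1, ofMul_mul, map_add, hcN, add_zero]
  rw [hcy]
  have hs0 : Eo v 0 (s : k) := by
    have h1 := hy.div hN
    rw [sub_zero, ← hsv] at h1
    exact h1
  rw [← hsv] at hd
  obtain ⟨z, hz1⟩ := hs0.le.exists_int (t + 1)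
  push_cast at hz1
  have hz0 : Eo v 0 (z : k) := by
    have h1 : Eo v 0 ((s : k) + -((s : k) - (z : k))) :=
      hs0.add_le ((hz1.mono (by omega)).neg)
    have h2 : (s : k) + -((s : k) - (z : k)) = (z : k) := by ring
    rwa [h2] at h1
  have hzv : z ∉ v.asIdeal := (eo_zero_mem z).1 hz0
  have hzt : z - 1 ∈ v.asIdeal ^ t := by
    refine (le_mem (z - 1) t).1 ?_
    have h1 : ((z - 1 : 𝓞 k) : k) = ((s : k) - 1) - ((s : k) - (z : k)) := by
      have h0 : algebraMap (𝓞 k) k (z - 1) = algebraMap (𝓞 k) k z - 1 := by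
        rw [map_sub, map_one]
      change algebraMap (𝓞 k) k (z - 1) = ((s : k) - 1) - ((s : k) - algebraMap (𝓞 k) k z)
      rw [h0]
      ring
    rw [h1]
    exact hd.sub (hz1.mono (by omega))
  obtain ⟨Z, hZ⟩ : ∃ Z : kˣ, (Z : k) = (z : k) := ⟨Units.mk0 _ hz0.ne_zero, rfl⟩
  have hcZ := hz z hzv hzt Z hZ
  have hq : c (Additive.ofMul (s * Z⁻¹)) = 0 := by
    refine hone _ ?_
    rw [Units.val_mul, Units.val_inv_eq_inv_val, hZ]
    have h1 : (s : k) * (z : k)⁻¹ - 1 = ((s : k) - (z : k)) / (z : k) := by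
      rw [sub_div, div_self hz0.ne_zero, div_eq_mul_inv]
    rw [h1]
    have h2 := hz1.div hz0
    rwa [sub_zero] at h2
  have h3 : s = (s * Z⁻¹) * Z := by rw [inv_mul_cancel_right]
  rw [h3, ofMul_mul, map_add, hq, hcZ, add_zero]

end

end Pool.Agent.Lib.MP_1a91b9_nuW.CF
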