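import Pool.Agent.Lib.MP_1a91b9_nuW.CF.LocC
import Pool.Agent.Lib.MP_1a91b9_nuW.CF.Sur

/-!
# The local characters at the ramified places

PROOF.
tame: `ℓ ∉ v`: `t = 0`: `CF.tame_moves k L ℓ hdeg v hr ht Q hQ σ hσ ϖ h1 h2 : σ • ϖ - ϖ ∉ Q ^ 2` (nuT/CF/LocRam.lean) where `v` is ramified
(`hr`: `h.ram`: ramificationIdxIn = ramificationIdx at `Q` = `ℓ ≠ 1`; see `trichotomy`), `σ ≠ 1` (`h.tt`), `ϖ ∈ Q`, `ϖ ∉ Q ^ 2`
(`h.pi`, `le_mem`). `((σ • ϖ - ϖ : 𝓞 L) : L) = σ ϖ - ϖ`, so not `Le Q 2`, `t + 1 < 2` (`h.tt.le_iff`).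
exists_lc: `exists_tot`. Case `ℓ ∈ v`: `c` from `h.char hv`: nm, one; `ex`: by contradiction: `h.char_ne hv` would give `c = 0`
on all units at `v`, contradiction with the `z` of `h.char` (`eo_zero_mem`; `z ∉ v`, the unit `Units.mk0 z`). Case `ℓ ∉ v`: `t =
0`; `c` from `CF.loc_ram k L ℓ hdeg v hr ht`: kills norms, `z - 1 ∈ v → c z = 0` for `z : 𝓞 k`, `∃ z ∉ v, c z ≠ 0`. `one`: `y : kˣ` with
`Le v 1 (y - 1)`: write `y = z₁ / z₂` with `z₁ z₂ : 𝓞 k`, `z₂ ∉ v` (`HeightOneSpectrum.exists_primeCompl_mul_eq_of_integer` or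
`Le.exists_int`-like), choose `s : 𝓞 k` with `z₂ s - 1 ∈ v` (`v` maximal), `z₁ s - 1 ∈ v` (as `y - 1` has order `≥ 1`):
`c y = c (z₁ s) - c (z₂ s) = 0`. `f - 1 = 0`: `z - 1 ∈ v ^ 0 = ⊤`.
LC.cong: `z, z' : 𝓞 k`, `z ∉ v`, `z - z' ∈ v ^ f`: `c z = c z'` (`z' / z - 1` has order `≥ f`).
-/

set_option autoImplicit false

namespace Pool.Agent.Lib.MP_1a91b9_nuW.CF

open NumberField IsDedekindDomain Pool.Agent.Lib.MP_1a91b9_nt
open Pool.Agent.Lib.MP_1a91b9_nuT Pool.Agent.Lib.MP_1a91b9_nuT.CF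

universe u

variable [CD]

theorem Tot.tame {k L : Type u} [Field k] [NumberField k] [Field L] [NumberField L] [Algebra k L]
    {ℓ : ℕ} {v : HeightOneSpectrum (𝓞 k)} {Q : HeightOneSpectrum (𝓞 L)} {σ : Gal(L/k)}
    {ϖ : 𝓞 L} {t : ℕ} (h : Tot ℓ v Q σ ϖ t) (hv : (ℓ : 𝓞 k) ∉ v.asIdeal) : t = 0 := by
  have hgal : IsGalois k L := h.gal
  have hpr : Fact ℓ.Prime := ⟨h.pr⟩
  have hQ : Q.under (𝓞 k) = v := (h.uni Q).2 rfl
  have hQ' : Q.asIdeal.under (𝓞 k) = v.asIdeal := congrArg HeightOneSpectrum.asIdeal hQ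
  have hr : CF.Ram L v := by
    rcases trichotomy k L ℓ h.deg v with h1 | ⟨-, -, -, h1⟩ | ⟨-, -, -, h1⟩
    · exact h1.1
    · have h2 := (h1 ⟨Q, hQ'⟩).1
      exact absurd (h.ram.symm.trans h2) h.pr.ne_one
    · have h2 := (h1 ⟨Q, hQ'⟩).1
      exact absurd (h.ram.symm.trans h2) h.pr.ne_one
  have hσ : σ ≠ 1 := by
    rintro rfl
    exact h.tt.ne_zero (by rw [AlgEquiv.one_apply, sub_self])
  have h1 : ϖ ∈ Q.asIdeal := (le_one_mem ϖ).1 h.pi.le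
  have h2 : ϖ ∉ Q.asIdeal ^ 2 := by
    rw [← le_mem, h.pi.le_iff]
    norm_num
  have h3 := CF.tame_moves k L ℓ h.deg v hr hv Q hQ σ hσ ϖ h1 h2
  have h4 : ((σ • ϖ - ϖ : 𝓞 L) : L) = σ (ϖ : L) - (ϖ : L) := rfl
  rw [← le_mem, h4, h.tt.le_iff] at h3
  push_cast at h3
  omega

omit [CD] in
/-- the inverse modulo `v` -/
private theorem lch_inv {F : Type u} [Field F] [NumberField F] (v : HeightOneSpectrum (𝓞 F))
    {z : 𝓞 F} (hz : z ∉ v.asIdeal) : ∃ s : 𝓞 F, z * s - 1 ∈ v.asIdeal := by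
  have hmax : v.asIdeal.IsMaximal := v.isMaximal
  obtain ⟨s, y, hy, hs⟩ := hmax.exists_inv hz
  refine ⟨s, ?_⟩
  have h1 : z * s - 1 = -y := by
    rw [← hs]
    ring
  rw [h1]
  exact v.asIdeal.neg_mem hy

omit [CD] in
/-- a character trivial on the integers `1` modulo `v` is trivial on the elements `1` modulo `v` -/
private theorem lch_one {F : Type u} [Field F] [NumberField F] {ℓ : ℕ}
    {v : HeightOneSpectrum (𝓞 F)} {c : Additive Fˣ →+ ZMod ℓ}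
    (hc : ∀ (z : 𝓞 F) (y : Fˣ), (y : F) = (z : F) → z - 1 ∈ v.asIdeal → c (Additive.ofMul y) = 0)
    {y : Fˣ} (hy : Le v 1 ((y : F) - 1)) : c (Additive.ofMul y) = 0 := by
  have hy0 : Le v 0 (y : F) := by
    have h1 := (hy.mono (by omega : (0 : ℤ) ≤ 1)).add (Le.one (w := v))
    rwa [sub_add_cancel] at h1
  have hval : v.valuation F (y : F) ≤ 1 := by
    have h1 := hy0
    unfold Le at h1
    rwa [neg_zero, WithZero.exp_zero] at h1
  obtain ⟨n, ⟨d, hd⟩, hnd⟩ := v.exists_primeCompl_mul_eq_of_integer (y : F) hval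
  have hd' : d ∉ v.asIdeal := hd
  have hnd' : (y : F) * (d : F) = (n : F) := hnd
  obtain ⟨s, hs⟩ := lch_inv v hd'
  have hds : d * s ≠ 0 := by
    intro h0
    rw [h0, zero_sub] at hs
    have h1 := v.asIdeal.neg_mem hs
    rw [neg_neg] at h1
    exact v.isPrime.ne_top ((Ideal.eq_top_iff_one _).2 h1)
  have hds' : ((d * s : 𝓞 F) : F) ≠ 0 := fun h0 =>
    hds (RingOfIntegers.coe_injective (h0.trans (map_zero (algebraMap (𝓞 F) F)).symm))
  have hns : ((n * s : 𝓞 F) : F) = (y : F) * ((d * s : 𝓞 F) : F) := by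
    have e1 : ((n * s : 𝓞 F) : F) = (n : F) * (s : F) := map_mul (algebraMap (𝓞 F) F) _ _
    have e2 : ((d * s : 𝓞 F) : F) = (d : F) * (s : F) := map_mul (algebraMap (𝓞 F) F) _ _
    rw [e1, e2, ← hnd', mul_assoc]
  have hn1 : n * s - 1 ∈ v.asIdeal := by
    rw [← le_one_mem]
    have e1 : ((n * s - 1 : 𝓞 F) : F) = ((n * s : 𝓞 F) : F) - 1 := by
      refine (map_sub (algebraMap (𝓞 F) F) _ _).trans ?_
      rw [map_one]
    have e2 : ((d * s - 1 : 𝓞 F) : F) = ((d * s : 𝓞 F) : F) - 1 := by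
      refine (map_sub (algebraMap (𝓞 F) F) _ _).trans ?_
      rw [map_one]
    have h1 : Le v 1 (((d * s - 1 : 𝓞 F) : F)) := (le_one_mem _).2 hs
    have h2 : Le v 1 (((d * s : 𝓞 F) : F) * ((y : F) - 1)) := hy.smul _
    rw [e1, hns]
    rw [e2] at h1
    have h3 := h1.add h2
    have e3 : ((d * s : 𝓞 F) : F) - 1 + ((d * s : 𝓞 F) : F) * ((y : F) - 1) =
        (y : F) * ((d * s : 𝓞 F) : F) - 1 := by ring
    rwa [e3] at h3
  have e4 : Additive.ofMul (y * Units.mk0 _ hds') =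
      Additive.ofMul y + Additive.ofMul (Units.mk0 _ hds') := rfl
  have h5 := hc (n * s) (y * Units.mk0 _ hds') (by
    rw [Units.val_mul, Units.val_mk0, hns]) hn1
  have h6 := hc (d * s) (Units.mk0 _ hds') rfl hs
  rw [e4, map_add, h6, add_zero] at h5
  exact h5

section
variable (k L : Type u) [Field k] [NumberField k] [Field L] [NumberField L] [Algebra k L]

/-- a local character at the ramified place `v`, with conductor `v ^ f` -/
structure LC (ℓ : ℕ) (v : HeightOneSpectrum (𝓞 k)) (f : ℕ) (c : Additive kˣ →+ ZMod ℓ) :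
    Prop where
  pos : 1 ≤ f
  nm : ∀ y : Additive Lˣ, c (nmA k L y) = 0
  one : ∀ y : kˣ, Le v f ((y : k) - 1) → c (Additive.ofMul y) = 0
  ex : ∃ z : 𝓞 k, z ∉ v.asIdeal ∧ z - 1 ∈ v.asIdeal ^ (f - 1) ∧
    ∀ y : kˣ, (y : k) = (z : k) → c (Additive.ofMul y) ≠ 0

variable {k L} in
theorem LC.cong {ℓ : ℕ} {v : HeightOneSpectrum (𝓞 k)} {f : ℕ} {c : Additive kˣ →+ ZMod ℓ}
    (h : LC k L ℓ v f c) {z z' : 𝓞 k} (hz : z ∉ v.asIdeal) (hzz : z - z' ∈ v.asIdeal ^ f)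
    {y y' : kˣ} (hy : (y : k) = (z : k)) (hy' : (y' : k) = (z' : k)) :
    c (Additive.ofMul y) = c (Additive.ofMul y') := by
  have h1 : Eo v 0 (y : k) := by
    rw [hy]
    exact (eo_zero_mem z).2 hz
  have h2 : Le v f ((y' : k) - (y : k)) := by
    have h3 : z' - z ∈ v.asIdeal ^ f := by
      have h4 := (v.asIdeal ^ f).neg_mem hzz
      rwa [neg_sub] at h4
    have h5 := (le_mem (w := v) (z' - z) f).2 h3
    have h6 : ((z' - z : 𝓞 k) : k) = (z' : k) - (z : k) := map_sub (algebraMap (𝓞 k) k) _ _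
    rw [h6, ← hy, ← hy'] at h5
    exact h5
  have h3 : Le v f (((y' * y⁻¹ : kˣ) : k) - 1) := by
    have h4 := h2.div h1
    rw [sub_zero] at h4
    have h5 : ((y' * y⁻¹ : kˣ) : k) - 1 = ((y' : k) - (y : k)) / (y : k) := by
      rw [Units.val_mul, Units.val_inv_eq_inv_val, sub_div, div_self y.ne_zero, div_eq_mul_inv]
    rw [h5]
    exact h4
  have h4 := h.one _ h3
  have e4 : Additive.ofMul (y' * y⁻¹) = Additive.ofMul y' - Additive.ofMul y := by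
    rw [sub_eq_add_neg]
    rfl
  rw [e4, map_sub, sub_eq_zero] at h4
  exact h4.symm

theorem exists_lc [IsGalois k L] (ℓ : ℕ) [Fact ℓ.Prime] (hdeg : Module.finrank k L = ℓ)
    (v : HeightOneSpectrum (𝓞 k)) (hr : CF.Ram L v) :
    ∃ (Q : HeightOneSpectrum (𝓞 L)) (σ : Gal(L/k)) (ϖ : 𝓞 L) (t : ℕ) (c : Additive kˣ →+ ZMod ℓ),
      Tot ℓ v Q σ ϖ t ∧ LC k L ℓ v (t + 1) c ∧ ((ℓ : 𝓞 k) ∉ v.asIdeal → t = 0) := by
  obtain ⟨Q, σ, ϖ, t, h⟩ := exists_tot k L ℓ hdeg v hr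
  by_cases hv : (ℓ : 𝓞 k) ∈ v.asIdeal
  · obtain ⟨c, hnm, hone, z, hz, hcz⟩ := h.char hv
    refine ⟨Q, σ, ϖ, t, c, h, ⟨by omega, hnm, fun y hy => hone y ?_, ?_⟩, fun h' => absurd hv h'⟩
    · rw [Nat.cast_add, Nat.cast_one] at hy
      exact hy
    · by_contra hcon
      have hz0 : (z : k) ≠ 0 := ((eo_zero_mem z).2 hz).ne_zero
      refine hcz (Units.mk0 (z : k) hz0) rfl (h.char_ne hv hnm hone (fun z' hz' hz1 y' hy' => ?_)
        ((eo_zero_mem z).2 hz))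
      by_contra hne
      refine hcon ⟨z', hz', ?_, fun y hy hcy => hne ?_⟩
      · rw [Nat.add_sub_cancel]
        exact hz1
      · have h1 : y' = y := Units.ext (hy'.trans hy.symm)
        rw [h1]
        exact hcy
  · have ht := h.tame hv
    subst ht
    obtain ⟨c, hnm, hc, z, hz, hcz⟩ := CF.loc_ram k L ℓ hdeg v hr hv
    refine ⟨Q, σ, ϖ, 0, c, h, ⟨by omega, hnm, fun y hy => lch_one hc ?_, z, hz, ?_, hcz⟩,
      fun _ => rfl⟩
    · rw [Nat.cast_add, Nat.cast_one, Nat.cast_zero, zero_add] at hy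
      exact hy
    · rw [Nat.add_sub_cancel, pow_zero, Ideal.one_eq_top]
      exact Submodule.mem_top

end

end Pool.Agent.Lib.MP_1a91b9_nuW.CF
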