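import Pool.Agent.Lib.MP_1a91b9_nuT.CF.Main

/-!
# Orders of elements at a place
-/

set_option autoImplicit false

namespace Pool.Agent.Lib.MP_1a91b9_nuW.CF

open NumberField IsDedekindDomain Pool.Agent.Lib.MP_1a91b9_nt
open Pool.Agent.Lib.MP_1a91b9_nuT Pool.Agent.Lib.MP_1a91b9_nuT.CF

universe u

section
variable {F : Type u} [Field F] [NumberField F] (w : HeightOneSpectrum (𝓞 F))

/-- `x` has order at least `n` at `w` -/
def Le (n : ℤ) (x : F) : Prop := w.valuation F x ≤ WithZero.exp (-n)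

/-- `x` has order `n` at `w` -/
def Eo (n : ℤ) (x : F) : Prop := w.valuation F x = WithZero.exp (-n)

variable {w} {m n : ℤ} {x y : F}

theorem Le.zero : Le w n (0 : F) := by
  unfold Le
  rw [map_zero]
  exact zero_le

theorem Le.mono (h : Le w n x) (hmn : m ≤ n) : Le w m x :=
  h.trans (WithZero.exp_le_exp.2 (by omega))

theorem Le.add (hx : Le w n x) (hy : Le w n y) : Le w n (x + y) :=
  (Valuation.map_add _ _ _).trans (max_le hx hy)

theorem Le.neg (hx : Le w n x) : Le w n (-x) := by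
  unfold Le
  rw [Valuation.map_neg]
  exact hx

theorem Le.sub (hx : Le w n x) (hy : Le w n y) : Le w n (x - y) := by
  rw [sub_eq_add_neg]
  exact hx.add hy.neg

theorem Le.sum {ι : Type*} {s : Finset ι} {f : ι → F} (h : ∀ i ∈ s, Le w n (f i)) :
    Le w n (∑ i ∈ s, f i) := by
  classical
  induction s using Finset.induction_on with
  | empty => rw [Finset.sum_empty]; exact Le.zero
  | insert a s ha ih =>
    rw [Finset.sum_insert ha]
    exact (h a (Finset.mem_insert_self _ _)).add (ih fun i hi => h i (Finset.mem_insert_of_mem hi))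

theorem Le.mul (hx : Le w m x) (hy : Le w n y) : Le w (m + n) (x * y) := by
  unfold Le
  rw [map_mul, neg_add, WithZero.exp_add]
  exact mul_le_mul' hx hy

theorem Le.one : Le w 0 (1 : F) := by
  unfold Le
  rw [map_one, neg_zero, WithZero.exp_zero]

theorem Le.pow (hx : Le w n x) (i : ℕ) : Le w (i * n) (x ^ i) := by
  induction i with
  | zero => rw [pow_zero, Nat.cast_zero, zero_mul]; exact Le.one
  | succ i ih =>
    rw [pow_succ]
    have h := ih.mul hx
    have e : (i : ℤ) * n + n = ((i + 1 : ℕ) : ℤ) * n := by push_cast; ring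
    rwa [e] at h

theorem Le.prod {ι : Type*} {s : Finset ι} {f : ι → F} (h : ∀ i ∈ s, Le w n (f i)) :
    Le w (s.card * n) (∏ i ∈ s, f i) := by
  classical
  induction s using Finset.induction_on with
  | empty => rw [Finset.prod_empty, Finset.card_empty, Nat.cast_zero, zero_mul]; exact Le.one
  | insert a s ha ih =>
    rw [Finset.prod_insert ha, Finset.card_insert_of_notMem ha]
    have h1 := (h a (Finset.mem_insert_self _ _)).mul
      (ih fun i hi => h i (Finset.mem_insert_of_mem hi))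
    have e : n + (s.card : ℤ) * n = ((s.card + 1 : ℕ) : ℤ) * n := by push_cast; ring
    rwa [e] at h1

theorem Le.int (z : 𝓞 F) : Le w 0 (z : F) := by
  unfold Le
  rw [neg_zero, WithZero.exp_zero]
  exact w.valuation_le_one z

theorem le_mem (z : 𝓞 F) (n : ℕ) : Le w n (z : F) ↔ z ∈ w.asIdeal ^ n := by
  unfold Le
  rw [show (z : F) = algebraMap (𝓞 F) F z from rfl, HeightOneSpectrum.valuation_of_algebraMap]
  exact w.intValuation_le_pow_iff_mem z n

theorem le_one_mem (z : 𝓞 F) : Le w 1 (z : F) ↔ z ∈ w.asIdeal := by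
  have h := le_mem (w := w) z 1
  rwa [pow_one, Nat.cast_one] at h

theorem le_one_iff : Le w 1 x ↔ w.valuation F x < 1 := by
  unfold Le
  rw [← WithZero.exp_zero]
  by_cases h0 : x = 0
  · rw [h0, map_zero]
    exact iff_of_true zero_le WithZero.exp_pos
  · have h1 : w.valuation F x ≠ 0 := (Valuation.ne_zero_iff _).2 h0
    rw [← WithZero.exp_log h1, WithZero.exp_le_exp, WithZero.exp_lt_exp]
    omega

theorem Le.smul (hx : Le w n x) (a : 𝓞 F) : Le w n ((a : F) * x) := by
  have h := (Le.int (w := w) a).mul hx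
  rwa [zero_add] at h

theorem Le.natCast_mul (hx : Le w n x) (a : ℕ) : Le w n ((a : F) * x) := by
  have h := hx.smul (a : 𝓞 F)
  have e : ((a : 𝓞 F) : F) = (a : F) := map_natCast _ _
  rwa [e] at h

theorem Eo.le (h : Eo w n x) : Le w n x := le_of_eq h

theorem Eo.ne_zero (h : Eo w n x) : x ≠ 0 := by
  rintro rfl
  unfold Eo at h
  rw [map_zero] at h
  exact WithZero.exp_ne_zero h.symm

theorem Eo.mul (hx : Eo w m x) (hy : Eo w n y) : Eo w (m + n) (x * y) := by
  unfold Eo
  rw [map_mul, neg_add, WithZero.exp_add, hx, hy]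

theorem Eo.one : Eo w 0 (1 : F) := by
  unfold Eo
  rw [map_one, neg_zero, WithZero.exp_zero]

theorem Eo.neg (hx : Eo w n x) : Eo w n (-x) := by
  unfold Eo
  rw [Valuation.map_neg]
  exact hx

theorem Eo.inv (hx : Eo w n x) : Eo w (-n) x⁻¹ := by
  unfold Eo
  rw [map_inv₀, hx, WithZero.exp_neg, inv_inv, neg_neg]

theorem Eo.div (hx : Eo w m x) (hy : Eo w n y) : Eo w (m - n) (x / y) := by
  rw [div_eq_mul_inv, sub_eq_add_neg]
  exact hx.mul hy.inv

theorem Le.div (hx : Le w m x) (hy : Eo w n y) : Le w (m - n) (x / y) := by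
  rw [div_eq_mul_inv, sub_eq_add_neg]
  exact hx.mul hy.inv.le

theorem Eo.pow (hx : Eo w n x) (i : ℕ) : Eo w (i * n) (x ^ i) := by
  induction i with
  | zero => rw [pow_zero, Nat.cast_zero, zero_mul]; exact Eo.one
  | succ i ih =>
    rw [pow_succ]
    have h := ih.mul hx
    have e : (i : ℤ) * n + n = ((i + 1 : ℕ) : ℤ) * n := by push_cast; ring
    rwa [e] at h

theorem Eo.prod {ι : Type*} {s : Finset ι} {f : ι → F} (h : ∀ i ∈ s, Eo w n (f i)) :
    Eo w (s.card * n) (∏ i ∈ s, f i) := by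
  classical
  induction s using Finset.induction_on with
  | empty => rw [Finset.prod_empty, Finset.card_empty, Nat.cast_zero, zero_mul]; exact Eo.one
  | insert a s ha ih =>
    rw [Finset.prod_insert ha, Finset.card_insert_of_notMem ha]
    have h1 := (h a (Finset.mem_insert_self _ _)).mul
      (ih fun i hi => h i (Finset.mem_insert_of_mem hi))
    have e : n + (s.card : ℤ) * n = ((s.card + 1 : ℕ) : ℤ) * n := by push_cast; ring
    rwa [e] at h1

theorem Eo.unique (h1 : Eo w m x) (h2 : Eo w n x) : m = n := by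
  unfold Eo at h1 h2
  rw [h1, WithZero.exp_inj] at h2
  omega

theorem Eo.le_iff (h : Eo w m x) : Le w n x ↔ n ≤ m := by
  unfold Le
  rw [h, WithZero.exp_le_exp]
  omega

theorem exists_eo (hx : x ≠ 0) : ∃ n : ℤ, Eo w n x :=
  ⟨-WithZero.log (w.valuation F x), by
    unfold Eo
    rw [neg_neg, WithZero.exp_log ((Valuation.ne_zero_iff _).2 hx)]⟩

theorem eo_ord [CD] (y : Fˣ) : Eo w (ord w (Additive.ofMul y)) (y : F) := ord_val w y

theorem eo_iff : Eo w n x ↔ Le w n x ∧ ¬ Le w (n + 1) x := by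
  constructor
  · intro h
    refine ⟨h.le, fun h1 => ?_⟩
    rw [h.le_iff] at h1
    omega
  · rintro ⟨h1, h2⟩
    by_cases h0 : x = 0
    · exact absurd (by rw [h0]; exact Le.zero) h2
    · obtain ⟨m, hm⟩ := exists_eo (w := w) h0
      rw [hm.le_iff] at h1 h2
      have e : m = n := by omega
      rwa [e] at hm

theorem Eo.add_le (hx : Eo w n x) (hy : Le w (n + 1) y) : Eo w n (x + y) := by
  rw [eo_iff]
  refine ⟨hx.le.add (hy.mono (by omega)), fun h => ?_⟩
  have h1 := h.sub hy
  rw [add_sub_cancel_right, hx.le_iff] at h1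
  omega

theorem eo_zero_mem (z : 𝓞 F) : Eo w 0 (z : F) ↔ z ∉ w.asIdeal := by
  rw [eo_iff, zero_add, le_one_mem]
  exact ⟨fun h => h.2, fun h => ⟨Le.int z, h⟩⟩

theorem eq_zero_of_le (h : ∀ n : ℕ, Le w n x) : x = 0 := by
  by_contra h0
  obtain ⟨m, hm⟩ := exists_eo (w := w) h0
  have h1 := h (m.toNat + 1)
  rw [hm.le_iff] at h1
  push_cast at h1
  omega

/-- integral approximations of the elements integral at `w` -/
theorem Le.exists_int (hx : Le w 0 x) (n : ℕ) : ∃ z : 𝓞 F, Le w n (x - (z : F)) := by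
  unfold Le at hx
  rw [neg_zero, WithZero.exp_zero] at hx
  obtain ⟨z, hz⟩ := w.exists_valuation_sub_lt_of_integer (K := F) hx
    (Units.mk0 (WithZero.exp (-(n : ℤ))) WithZero.exp_ne_zero)
  refine ⟨z, ?_⟩
  unfold Le
  rw [← Valuation.map_neg, neg_sub]
  exact hz.le

end

end Pool.Agent.Lib.MP_1a91b9_nuW.CF
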