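import Pool.Agent.Lib.MP_1a91b9_nuW.CF.Tot

/-!
# The number of units modulo a power of a place

PROOF.
card_units: for a place `w` of a number field `F` and `n ≥ 1`: `Nat.card (𝓞 F ⧸ w ^ n)ˣ = nrm w ^ n - nrm w ^ (n - 1)`. Let `R =
𝓞 F ⧸ w ^ n`, finite (`Ideal.finiteQuotientOfFreeOfNeBot`), `card R = absNorm (w ^ n) = nrm w ^ n`. The class of `z` is a unit iff
`z ∉ w` (if `z ∉ w`: `span {z} ⊔ w ^ n = ⊤`; `Ideal.Quotient` units; if `z ∈ w` it is nilpotent / `w ^ n ≤ w`). The non-units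
are the image of `w`, the kernel of the surjection `R → 𝓞 F ⧸ w` (`Ideal.Quotient.factor`), which has
`nrm w ^ n / nrm w` elements (`AddSubgroup.card_mul_index` or `card_eq_card_quotient_mul_card_subgroup`).
card_eq: `Q` of inertia degree `1` over `v`: `nrm Q = nrm v` (`Ideal.absNorm_pow_inertiaDeg` or private
`trick_norm` in nuT/CF/Trick.lean), so the unit groups of `𝓞 k ⧸ v ^ (t+1)` and `𝓞 L ⧸ Q ^ (t+1)` have the same number
of elements.
-/

set_option autoImplicit false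

namespace Pool.Agent.Lib.MP_1a91b9_nuW.CF

open NumberField IsDedekindDomain Pool.Agent.Lib.MP_1a91b9_nt
open Pool.Agent.Lib.MP_1a91b9_nuT Pool.Agent.Lib.MP_1a91b9_nuT.CF

universe u

section
variable {F : Type u} [Field F] [NumberField F]

private theorem loca_nrm (w : HeightOneSpectrum (𝓞 F)) : nrm w = Nat.card (𝓞 F ⧸ w.asIdeal) := by
  rw [nrm_eq]
  rfl

private theorem loca_cop (w : HeightOneSpectrum (𝓞 F)) (n : ℕ) {z : 𝓞 F} (hz : z ∉ w.asIdeal) :
    ∃ a b : 𝓞 F, b ∈ w.asIdeal ^ n ∧ a * z + b = 1 := by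
  have hmax : w.asIdeal.IsMaximal := w.isMaximal
  have h1 : IsCoprime (Ideal.span {z}) w.asIdeal := by
    rw [Ideal.isCoprime_iff_sup_eq]
    apply hmax.1.2
    refine lt_of_le_of_ne le_sup_right ?_
    intro h
    apply hz
    rw [h]
    exact Ideal.mem_sup_left (Ideal.mem_span_singleton_self z)
  have h2 : IsCoprime (Ideal.span {z}) (w.asIdeal ^ n) := h1.pow_right
  rw [Ideal.isCoprime_iff_exists] at h2
  obtain ⟨i, hi, j, hj, hij⟩ := h2
  obtain ⟨a, ha⟩ := Ideal.mem_span_singleton'.1 hi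
  exact ⟨a, j, hj, by rw [ha]; exact hij⟩

theorem card_units (w : HeightOneSpectrum (𝓞 F)) {n : ℕ} (hn : 1 ≤ n) :
    Nat.card (𝓞 F ⧸ w.asIdeal ^ n)ˣ = nrm w ^ n - nrm w ^ (n - 1) := by
  have hle : w.asIdeal ^ n ≤ w.asIdeal := Ideal.pow_le_self (by omega)
  have hne : w.asIdeal ^ n ≠ ⊥ := pow_ne_zero n w.ne_bot
  have i1 : Finite (𝓞 F ⧸ w.asIdeal ^ n) := Ideal.finiteQuotientOfFreeOfNeBot _ hne
  have i2 : Finite (𝓞 F ⧸ w.asIdeal) := Ideal.finiteQuotientOfFreeOfNeBot _ w.ne_bot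
  have hcard : Nat.card (𝓞 F ⧸ w.asIdeal ^ n) = nrm w ^ n := by
    have h1 : Ideal.absNorm (w.asIdeal ^ n) = Ideal.absNorm w.asIdeal ^ n := map_pow _ _ _
    have h2 : Nat.card (𝓞 F ⧸ w.asIdeal ^ n) = Ideal.absNorm (w.asIdeal ^ n) := rfl
    rw [h2, h1, nrm_eq]
  set f : (𝓞 F ⧸ w.asIdeal ^ n) →+* (𝓞 F ⧸ w.asIdeal) := Ideal.Quotient.factor hle with hf
  have hfs : Function.Surjective f := Ideal.Quotient.factor_surjective hle
  have hpos : 0 < nrm w := by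
    rw [loca_nrm]
    exact Nat.card_pos
  have hker : Nat.card f.toAddMonoidHom.ker = nrm w ^ (n - 1) := by
    have h1 := f.toAddMonoidHom.ker.card_mul_index
    have h2 : f.toAddMonoidHom.ker.index = nrm w := by
      rw [AddSubgroup.index_ker, loca_nrm]
      have h3 : f.toAddMonoidHom.range = ⊤ := by
        rw [AddMonoidHom.range_eq_top]
        exact hfs
      rw [h3]
      exact AddSubgroup.card_top
    rw [h2, hcard] at h1
    have h4 : nrm w ^ n = nrm w ^ (n - 1) * nrm w := by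
      rw [← pow_succ]
      have : n - 1 + 1 = n := by omega
      rw [this]
    rw [h4] at h1
    exact Nat.eq_of_mul_eq_mul_right hpos h1
  have hset : Set.range (Units.val : (𝓞 F ⧸ w.asIdeal ^ n)ˣ → 𝓞 F ⧸ w.asIdeal ^ n) =
      ((f.toAddMonoidHom.ker : AddSubgroup (𝓞 F ⧸ w.asIdeal ^ n)) :
        Set (𝓞 F ⧸ w.asIdeal ^ n))ᶜ := by
    ext x
    simp only [Set.mem_range, Set.mem_compl_iff, SetLike.mem_coe, AddMonoidHom.mem_ker]
    constructor
    · rintro ⟨u, rfl⟩ h0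
      have hu : IsUnit (f (u : 𝓞 F ⧸ w.asIdeal ^ n)) := u.isUnit.map f
      have h0' : f (u : 𝓞 F ⧸ w.asIdeal ^ n) = 0 := h0
      rw [h0'] at hu
      have hnt : Nontrivial (𝓞 F ⧸ w.asIdeal) := Ideal.Quotient.nontrivial_iff.2 w.isMaximal.ne_top
      exact not_isUnit_zero hu
    · intro h0
      obtain ⟨z, rfl⟩ := Ideal.Quotient.mk_surjective x
      have hz : z ∉ w.asIdeal := by
        intro hz
        apply h0
        show f (Ideal.Quotient.mk _ z) = 0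
        rw [hf, Ideal.Quotient.factor_mk]
        exact Ideal.Quotient.eq_zero_iff_mem.2 hz
      obtain ⟨a, b, hb, hab⟩ := loca_cop w n hz
      have h1 : Ideal.Quotient.mk (w.asIdeal ^ n) a * Ideal.Quotient.mk (w.asIdeal ^ n) z = 1 := by
        have h2 := congrArg (Ideal.Quotient.mk (w.asIdeal ^ n)) hab
        rw [map_add, map_mul, map_one, Ideal.Quotient.eq_zero_iff_mem.2 hb, add_zero] at h2
        exact h2
      have h3 : IsUnit (Ideal.Quotient.mk (w.asIdeal ^ n) z) := IsUnit.of_mul_eq_one_right _ h1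
      exact ⟨h3.unit, h3.unit_spec⟩
  have h5 : Nat.card (𝓞 F ⧸ w.asIdeal ^ n)ˣ =
      Set.ncard (Set.range (Units.val : (𝓞 F ⧸ w.asIdeal ^ n)ˣ → 𝓞 F ⧸ w.asIdeal ^ n)) := by
    rw [← Nat.card_coe_set_eq]
    exact (Nat.card_range_of_injective Units.val_injective).symm
  rw [h5, hset, Set.ncard_compl, hcard]
  have h6 : Set.ncard ((f.toAddMonoidHom.ker : AddSubgroup (𝓞 F ⧸ w.asIdeal ^ n)) :
        Set (𝓞 F ⧸ w.asIdeal ^ n)) = nrm w ^ (n - 1) := by
    rw [← hker, ← Nat.card_coe_set_eq]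
    rfl
  rw [h6]

end

section
variable {k L : Type u} [Field k] [NumberField k] [Field L] [NumberField L] [Algebra k L]
variable [CD] {ℓ : ℕ} {v : HeightOneSpectrum (𝓞 k)} {Q : HeightOneSpectrum (𝓞 L)} {σ : Gal(L/k)}
  {ϖ : 𝓞 L} {t : ℕ} (h : Tot ℓ v Q σ ϖ t)
include h

theorem Tot.card_eq : Nat.card (𝓞 k ⧸ v.asIdeal ^ (t + 1))ˣ =
    Nat.card (𝓞 L ⧸ Q.asIdeal ^ (t + 1))ˣ := by
  have hlo : Q.asIdeal.LiesOver (Q.under (𝓞 k)).asIdeal := ⟨rfl⟩
  have h1 : nrm Q = nrm (Q.under (𝓞 k)) ^ Q.asIdeal.inertiaDeg (𝓞 k) := by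
    rw [nrm_eq, nrm_eq, Ideal.absNorm_pow_inertiaDeg (Q.under (𝓞 k)).asIdeal Q.asIdeal]
  rw [h.ine, pow_one, (h.uni Q).2 rfl] at h1
  rw [card_units v (by omega), card_units Q (by omega), h1]

end

end Pool.Agent.Lib.MP_1a91b9_nuW.CF
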