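import Pool.Agent.Lib.MP_1a91b9_nuW.CF.LocW

/-!
# The local character at a wildly ramified place

PROOF.
char: `H : AddSubgroup (Additive kˣ)` of the elements `nmA y + s` with `Le v (t+1) (s - 1)` (`= range nmA ⊔ U`, `U` the
subgroup of the units `s` with `Le v (t+1) ((s : k) - 1)`; closed under inverses: `s⁻¹ - 1 = -(s - 1) / s`, `Eo v 0 s`).
`g` of exists_non is not in `H`: if `g = norm y * s` then `Eo v 0 (norm y)`, `Eo Q 0 y` (`nm_eo`, `exists_eo`, `Eo.unique`)
and `g - norm y = norm y (s - 1)`, order `≥ t + 1`. Every `ℓ • y` is in `H` (`norm (algebraMap y) = y ^ ℓ`,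
`Algebra.norm_algebraMap`, `nmA (incA y) = ℓ • y`). `V = Additive kˣ ⧸ H` is killed by `ℓ`: a `ZMod ℓ`-module
(`AddCommGroup.zmodModule`), a vector space; the class of `g` is not `0`: there is a linear form `f` with
`f (class of g) ≠ 0` (`Module.exists_dual...` / `Submodule.exists_le_ker_of_lt_top` / `(Module.forall_dual_apply_eq_zero_iff _ _)`;
see nuT/CF/LinAlg.lean for the style). `c = f ∘ mk`. `z : 𝓞 k` with `Le v (t+1) (g - z)` (`Le.exists_int`): `Eo v 0 z`, `z ∉ v`,
`z / g - 1` has order `≥ t + 1`, so `c z = c g ≠ 0`.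
-/

set_option autoImplicit false

namespace Pool.Agent.Lib.MP_1a91b9_nuW.CF

open NumberField IsDedekindDomain Pool.Agent.Lib.MP_1a91b9_nt
open Pool.Agent.Lib.MP_1a91b9_nuT Pool.Agent.Lib.MP_1a91b9_nuT.CF

universe u

section
variable {k : Type u} [Field k] [NumberField k]

private theorem locc_eo {v : HeightOneSpectrum (𝓞 k)} {t : ℕ} {s : k} (hs : Le v (t + 1) (s - 1)) :
    Eo v 0 s := by
  have h1 : Le v (0 + 1) (s - 1) := hs.mono (by omega)
  have h2 := (Eo.one (w := v)).add_le h1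
  rwa [add_sub_cancel] at h2

/-- the units congruent to `1` -/
private def locc_U (v : HeightOneSpectrum (𝓞 k)) (t : ℕ) : AddSubgroup (Additive kˣ) where
  carrier := {x | Le v (t + 1) (((Additive.toMul x : kˣ) : k) - 1)}
  zero_mem' := by
    change Le v (t + 1) (((1 : kˣ) : k) - 1)
    rw [Units.val_one, sub_self]
    exact Le.zero
  add_mem' := by
    intro a b ha hb
    change Le v (t + 1) (((Additive.toMul a * Additive.toMul b : kˣ) : k) - 1)
    have ha' : Le v (t + 1) (((Additive.toMul a : kˣ) : k) - 1) := ha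
    have hb' : Le v (t + 1) (((Additive.toMul b : kˣ) : k) - 1) := hb
    have h1 := (locc_eo ha').le.mul hb'
    rw [zero_add] at h1
    have h2 := h1.add ha'
    have e : ((Additive.toMul a : kˣ) : k) * (((Additive.toMul b : kˣ) : k) - 1) +
        (((Additive.toMul a : kˣ) : k) - 1) = ((Additive.toMul a * Additive.toMul b : kˣ) : k) - 1 := by
      rw [Units.val_mul]
      ring
    rwa [e] at h2
  neg_mem' := by
    intro a ha
    change Le v (t + 1) ((((Additive.toMul a)⁻¹ : kˣ) : k) - 1)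
    have ha' : Le v (t + 1) (((Additive.toMul a : kˣ) : k) - 1) := ha
    have h1 := ha'.neg.div (locc_eo ha')
    rw [sub_zero] at h1
    have h0 : ((Additive.toMul a : kˣ) : k) ≠ 0 := Units.ne_zero _
    have e : -(((Additive.toMul a : kˣ) : k) - 1) / ((Additive.toMul a : kˣ) : k) =
        (((Additive.toMul a)⁻¹ : kˣ) : k) - 1 := by
      rw [Units.val_inv_eq_inv_val]
      field_simp
      ring
    rwa [e] at h1

private theorem locc_mem {v : HeightOneSpectrum (𝓞 k)} {t : ℕ} {x : Additive kˣ} :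
    x ∈ locc_U v t ↔ Le v (t + 1) (((Additive.toMul x : kˣ) : k) - 1) := Iff.rfl

private theorem locc_dual {K V : Type*} [Field K] [AddCommGroup V] [Module K V] {x : V}
    (hx : x ≠ 0) : ∃ f : V →+ K, f x ≠ 0 := by
  by_contra h0
  push Not at h0
  exact hx ((Module.forall_dual_apply_eq_zero_iff K x).1 fun f => h0 f.toAddMonoidHom)

/-- a character which kills a subgroup containing all multiples of `ℓ`, but not a given element -/
private theorem locc_lin {G : Type*} [AddCommGroup G] (ℓ : ℕ) [Fact ℓ.Prime] (H : AddSubgroup G)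
    (hH : ∀ x : G, ℓ • x ∈ H) (g : G) (hg : g ∉ H) :
    ∃ c : G →+ ZMod ℓ, (∀ x ∈ H, c x = 0) ∧ c g ≠ 0 := by
  have h1 : ∀ x : G ⧸ H, ℓ • x = 0 := by
    intro x
    obtain ⟨y, rfl⟩ := QuotientAddGroup.mk_surjective x
    rw [← QuotientAddGroup.mk_nsmul]
    exact (QuotientAddGroup.eq_zero_iff _).2 (hH y)
  let : Module (ZMod ℓ) (G ⧸ H) := AddCommGroup.zmodModule h1
  have h2 : (QuotientAddGroup.mk' H g : G ⧸ H) ≠ 0 := by
    intro h0
    exact hg ((QuotientAddGroup.eq_zero_iff g).1 h0)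
  obtain ⟨f, hf⟩ := locc_dual (K := ZMod ℓ) h2
  refine ⟨f.comp (QuotientAddGroup.mk' H), ?_, hf⟩
  intro x hx
  have h4 : (QuotientAddGroup.mk' H x : G ⧸ H) = 0 := (QuotientAddGroup.eq_zero_iff x).2 hx
  change f (QuotientAddGroup.mk' H x) = 0
  rw [h4, map_zero]

end

section
variable {k L : Type u} [Field k] [NumberField k] [Field L] [NumberField L] [Algebra k L]
variable [CD] {ℓ : ℕ} {v : HeightOneSpectrum (𝓞 k)} {Q : HeightOneSpectrum (𝓞 L)} {σ : Gal(L/k)}
  {ϖ : 𝓞 L} {t : ℕ} (h : Tot ℓ v Q σ ϖ t)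
include h

omit [CD] in
private theorem locc_smul (x : Additive kˣ) : ℓ • x = nmA k L (incA k L x) := by
  apply Additive.toMul.injective
  apply Units.ext
  change (((Additive.toMul x) ^ ℓ : kˣ) : k) =
    Algebra.norm k (algebraMap k L ((Additive.toMul x : kˣ) : k))
  rw [Algebra.norm_algebraMap, h.deg, Units.val_pow_eq_pow_val]

variable (hv : (ℓ : 𝓞 k) ∈ v.asIdeal)
include hv

theorem Tot.char : ∃ c : Additive kˣ →+ ZMod ℓ, (∀ y : Additive Lˣ, c (nmA k L y) = 0) ∧
    (∀ y : kˣ, Le v (t + 1) ((y : k) - 1) → c (Additive.ofMul y) = 0) ∧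
    ∃ z : 𝓞 k, z ∉ v.asIdeal ∧ ∀ y : kˣ, (y : k) = (z : k) → c (Additive.ofMul y) ≠ 0 := by
  have : Fact ℓ.Prime := ⟨h.pr⟩
  obtain ⟨g, hg, hgn⟩ := h.exists_non hv
  have hg0 : g ≠ 0 := hg.ne_zero
  have hgH : Additive.ofMul (Units.mk0 g hg0) ∉ (nmA k L).range ⊔ locc_U v t := by
    intro hmem
    obtain ⟨a, ⟨y, rfl⟩, s, hs, hsum⟩ := AddSubgroup.mem_sup.1 hmem
    rw [locc_mem] at hs
    have h1 : Algebra.norm k ((Additive.toMul y : Lˣ) : L) * ((Additive.toMul s : kˣ) : k) = g :=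
      congrArg (fun u : Additive kˣ => ((Additive.toMul u : kˣ) : k)) hsum
    have hs0 := locc_eo hs
    have h2 : Eo v 0 (Algebra.norm k ((Additive.toMul y : Lˣ) : L)) := by
      have h3 := hg.div hs0
      rw [← h1, mul_div_cancel_right₀ _ hs0.ne_zero, sub_zero] at h3
      exact h3
    obtain ⟨n, hn⟩ := exists_eo (w := Q) (Units.ne_zero (Additive.toMul y : Lˣ))
    have h4 : n = 0 := (h.nm_eo hn).unique h2
    rw [h4] at hn
    apply hgn _ hn
    have h5 := h2.le.mul hs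
    rw [zero_add] at h5
    have e : Algebra.norm k ((Additive.toMul y : Lˣ) : L) * (((Additive.toMul s : kˣ) : k) - 1) =
        g - Algebra.norm k ((Additive.toMul y : Lˣ) : L) := by
      rw [← h1]
      ring
    rwa [e] at h5
  have hH : ∀ x : Additive kˣ, ℓ • x ∈ (nmA k L).range ⊔ locc_U v t := by
    intro x
    rw [locc_smul h x]
    exact AddSubgroup.mem_sup_left ⟨_, rfl⟩
  obtain ⟨c, hc, hcg⟩ := locc_lin ℓ _ hH _ hgH
  have hcU : ∀ y : kˣ, Le v (t + 1) ((y : k) - 1) → c (Additive.ofMul y) = 0 := fun y hy =>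
    hc _ (AddSubgroup.mem_sup_right (locc_mem.2 hy))
  refine ⟨c, fun y => hc _ (AddSubgroup.mem_sup_left ⟨y, rfl⟩), hcU, ?_⟩
  obtain ⟨z, hz⟩ := hg.le.exists_int (t + 1)
  have hz' : Le v (t + 1) (g - (z : k)) := by
    have e : ((t + 1 : ℕ) : ℤ) = (t : ℤ) + 1 := by push_cast; ring
    rwa [e] at hz
  have hz0 : Eo v 0 (z : k) := by
    have h1 : Le v (0 + 1) (-(g - (z : k))) := (hz'.mono (by omega)).neg
    have h2 := hg.add_le h1
    have e : g + -(g - (z : k)) = (z : k) := by ring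
    rwa [e] at h2
  refine ⟨z, (eo_zero_mem z).1 hz0, ?_⟩
  intro y hy h0
  apply hcg
  have h1 : Le v (t + 1) (((Units.mk0 g hg0 * y⁻¹ : kˣ) : k) - 1) := by
    have h2 := hz'.div hz0
    rw [sub_zero] at h2
    have e : (g - (z : k)) / (z : k) = ((Units.mk0 g hg0 * y⁻¹ : kˣ) : k) - 1 := by
      rw [Units.val_mul, Units.val_inv_eq_inv_val, hy, Units.val_mk0, sub_div,
        div_self hz0.ne_zero, div_eq_mul_inv]
    rwa [e] at h2
  have h3 := hcU _ h1
  have e2 : Additive.ofMul (Units.mk0 g hg0) =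
      Additive.ofMul (Units.mk0 g hg0 * y⁻¹) + Additive.ofMul y := by
    rw [← ofMul_mul, inv_mul_cancel_right]
  rw [e2, map_add, h3, h0, add_zero]

end

end Pool.Agent.Lib.MP_1a91b9_nuW.CF
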