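import Pool.Agent.Lib.MP_1a91b9_nuW.CF.Nrm
import Pool.Agent.Lib.MP_1a91b9_nuW.CF.LocA

/-!
# A unit which is not a norm modulo `v ^ (t + 1)`

PROOF.
exists_non: suppose the contrary: for all `g : k` with `Eo v 0 g` there is `y : L`, `Eo Q 0 y`, `Le v (t+1) (g - norm y)`.
For a unit `a` of `𝓞 k ⧸ v ^ (t+1)` choose a lift `z a : 𝓞 k` (`Ideal.Quotient.mk_surjective`), `z a ∉ v`, `Eo v 0 (z a)`
(`eo_zero_mem`), then `y a`, then `s a : 𝓞 L` with `Le Q (t+1) (y a - s a)` (`Le.exists_int`); `Eo Q 0 (s a)`, `s a ∉ Q`, so the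
class of `s a` modulo `Q ^ (t+1)` is a unit `b a`. `b` is injective: `b a = b a'` gives `Le Q (t+1) (s a - s a')`
(`le_mem`), `Le Q (t+1) (y a - y a')`, `norm_cong`: `Le v (t+1) (norm (y a) - norm (y a'))`, so `Le v (t+1) (z a - z a')`,
`a = a'`. So `b` is bijective (card_eq; `Function.Injective.bijective_of_nat_card_le` or Fintype version).
`θ = σ ϖ / ϖ` : `Eo Q 0 θ`, `norm θ = 1` (`Algebra.norm` of `σ ϖ` is that of `ϖ`: `Algebra.norm_eq_of_algEquiv` or the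
product over the group), `θ - 1 = (σ ϖ - ϖ) / ϖ`: `Eo Q t (θ - 1)`. For `ρ : L` with `Eo Q 0 ρ` and `norm ρ = 1`: choose
`s : 𝓞 L`, `Le Q (t+1) (ρ - s)`; its class is `b a` for some `a`; `norm_cong` gives `Le v (t+1) (1 - norm (y a))`, so `Le v (t+1)
(z a - 1)`, `a = 1`. So the classes of `θ` and of `1` are both `b 1`: `Le Q (t+1) (θ - 1)`: contradiction with `Eo Q t (θ - 1)`.
-/

set_option autoImplicit false

namespace Pool.Agent.Lib.MP_1a91b9_nuW.CF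

open NumberField IsDedekindDomain Pool.Agent.Lib.MP_1a91b9_nt
open Pool.Agent.Lib.MP_1a91b9_nuT Pool.Agent.Lib.MP_1a91b9_nuT.CF

universe u

section
variable {F : Type u} [Field F] [NumberField F] (w : HeightOneSpectrum (𝓞 F))

omit [NumberField F] in
private theorem locw_lift {n : ℕ} (hn : n ≠ 0) (a : (𝓞 F ⧸ w.asIdeal ^ n)ˣ) :
    ∃ z : 𝓞 F, Ideal.Quotient.mk (w.asIdeal ^ n) z = (a : 𝓞 F ⧸ w.asIdeal ^ n) ∧ z ∉ w.asIdeal := by
  obtain ⟨z, hz⟩ := Ideal.Quotient.mk_surjective (a : 𝓞 F ⧸ w.asIdeal ^ n)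
  refine ⟨z, hz, fun hzw => ?_⟩
  have h1 : (a : 𝓞 F ⧸ w.asIdeal ^ n) ^ n = 0 := by
    rw [← hz, ← map_pow]
    exact Ideal.Quotient.eq_zero_iff_mem.2 (Ideal.pow_mem_pow hzw n)
  have h2 : ((a⁻¹ : (𝓞 F ⧸ w.asIdeal ^ n)ˣ) : 𝓞 F ⧸ w.asIdeal ^ n) ^ n * (a : 𝓞 F ⧸ w.asIdeal ^ n) ^ n = 1 := by
    rw [← mul_pow, Units.inv_mul, one_pow]
  rw [h1, mul_zero] at h2
  have h3 : (1 : 𝓞 F) ∈ w.asIdeal ^ n := by
    rw [← Ideal.Quotient.eq_zero_iff_mem, map_one]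
    exact h2.symm
  exact w.isPrime.ne_top ((Ideal.eq_top_iff_one _).2 (Ideal.pow_le_self hn h3))

private theorem locw_unit (n : ℕ) {s : 𝓞 F} (hs : s ∉ w.asIdeal) :
    IsUnit (Ideal.Quotient.mk (w.asIdeal ^ n) s) := by
  obtain ⟨y, i, hi, hyi⟩ := w.isMaximal.exists_inv hs
  have h1 : IsNilpotent (Ideal.Quotient.mk (w.asIdeal ^ n) i) := by
    refine ⟨n, ?_⟩
    rw [← map_pow]
    exact Ideal.Quotient.eq_zero_iff_mem.2 (Ideal.pow_mem_pow hi n)
  have h2 : Ideal.Quotient.mk (w.asIdeal ^ n) y * Ideal.Quotient.mk (w.asIdeal ^ n) s =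
      1 - Ideal.Quotient.mk (w.asIdeal ^ n) i := by
    rw [eq_sub_iff_add_eq, ← map_mul, ← map_add, hyi, map_one]
  have h3 := h1.isUnit_one_sub
  rw [← h2] at h3
  exact isUnit_of_mul_isUnit_right h3

private theorem locw_mk (n : ℕ) (x y : 𝓞 F) :
    Ideal.Quotient.mk (w.asIdeal ^ n) x = Ideal.Quotient.mk (w.asIdeal ^ n) y ↔ Le w n ((x : F) - (y : F)) := by
  rw [Ideal.Quotient.eq, ← le_mem]
  have e : ((x - y : 𝓞 F) : F) = (x : F) - (y : F) := map_sub _ _ _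
  rw [e]

end

section
variable {k L : Type u} [Field k] [NumberField k] [Field L] [NumberField L] [Algebra k L]
variable [CD] {ℓ : ℕ} {v : HeightOneSpectrum (𝓞 k)} {Q : HeightOneSpectrum (𝓞 L)} {σ : Gal(L/k)}
  {ϖ : 𝓞 L} {t : ℕ} (h : Tot ℓ v Q σ ϖ t)
include h

variable (hv : (ℓ : 𝓞 k) ∈ v.asIdeal)
include hv

theorem Tot.exists_non : ∃ g : k, Eo v 0 g ∧
    ∀ y : L, Eo Q 0 y → ¬ Le v (t + 1) (g - Algebra.norm k y) := by
  by_contra hcon
  have hall : ∀ g : k, Eo v 0 g → ∃ y : L, Eo Q 0 y ∧ Le v (t + 1) (g - Algebra.norm k y) := by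
    intro g hg
    by_contra hno
    exact hcon ⟨g, hg, fun y hy hle => hno ⟨y, hy, hle⟩⟩
  have hcast : ((t + 1 : ℕ) : ℤ) = (t : ℤ) + 1 := by push_cast; ring
  have ht1 : (1 : ℤ) ≤ (t : ℤ) + 1 := by omega
  -- the lifts
  have hex : ∀ a : (𝓞 k ⧸ v.asIdeal ^ (t + 1))ˣ, ∃ (z : 𝓞 k) (y : L) (s : 𝓞 L),
      Ideal.Quotient.mk (v.asIdeal ^ (t + 1)) z = (a : 𝓞 k ⧸ v.asIdeal ^ (t + 1)) ∧ Eo Q 0 y ∧
      Le v (t + 1) ((z : k) - Algebra.norm k y) ∧ Le Q (t + 1) (y - (s : L)) ∧ s ∉ Q.asIdeal := by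
    intro a
    obtain ⟨z, hz, hzv⟩ := locw_lift v (Nat.succ_ne_zero t) a
    obtain ⟨y, hy, hzy⟩ := hall (z : k) ((eo_zero_mem z).2 hzv)
    obtain ⟨s, hs⟩ := hy.le.exists_int (t + 1)
    rw [hcast] at hs
    refine ⟨z, y, s, hz, hy, hzy, hs, ?_⟩
    rw [← eo_zero_mem]
    have h1 : Eo Q 0 (y + -(y - (s : L))) := by
      refine hy.add_le (hs.neg.mono ?_)
      rw [zero_add]
      exact ht1
    have e : y + -(y - (s : L)) = (s : L) := by ring
    rwa [e] at h1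
  choose z y s hz hy hzy hs hsQ using hex
  set b : (𝓞 k ⧸ v.asIdeal ^ (t + 1))ˣ → (𝓞 L ⧸ Q.asIdeal ^ (t + 1))ˣ := fun a =>
    (locw_unit Q (t + 1) (hsQ a)).unit with hb
  have hbv : ∀ a, ((b a : (𝓞 L ⧸ Q.asIdeal ^ (t + 1))ˣ) : 𝓞 L ⧸ Q.asIdeal ^ (t + 1)) =
      Ideal.Quotient.mk (Q.asIdeal ^ (t + 1)) (s a) := fun a => rfl
  have hinj : Function.Injective b := by
    intro a a' haa
    have h1 : Ideal.Quotient.mk (Q.asIdeal ^ (t + 1)) (s a) = Ideal.Quotient.mk (Q.asIdeal ^ (t + 1)) (s a') := by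
      rw [← hbv, ← hbv, haa]
    rw [locw_mk, hcast] at h1
    have h2 : Le Q (t + 1) (y a - y a') := by
      have h3 := ((hs a).add h1).sub (hs a')
      have e : y a - (s a : L) + ((s a : L) - (s a' : L)) - (y a' - (s a' : L)) = y a - y a' := by ring
      rwa [e] at h3
    have h3 := h.norm_cong hv (hy a) (hy a') h2
    have h4 : Le v (t + 1) ((z a : k) - (z a' : k)) := by
      have h5 := ((hzy a).add h3).sub (hzy a')
      have e : (z a : k) - Algebra.norm k (y a) + (Algebra.norm k (y a) - Algebra.norm k (y a')) -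
          ((z a' : k) - Algebra.norm k (y a')) = (z a : k) - (z a' : k) := by ring
      rwa [e] at h5
    rw [← hcast, ← locw_mk] at h4
    rw [hz, hz] at h4
    exact Units.ext h4
  have hfin : Finite (𝓞 L ⧸ Q.asIdeal ^ (t + 1)) :=
    Ideal.finiteQuotientOfFreeOfNeBot _ (pow_ne_zero _ Q.ne_bot)
  have hbij : Function.Bijective b := hinj.bijective_of_nat_card_le (le_of_eq h.card_eq.symm)
  -- the elements of norm one
  have hone : ∀ ρ : L, Eo Q 0 ρ → Algebra.norm k ρ = 1 → Le Q (t + 1) (ρ - y 1) := by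
    intro ρ hρ hN
    obtain ⟨r, hr⟩ := hρ.le.exists_int (t + 1)
    rw [hcast] at hr
    have hrQ : r ∉ Q.asIdeal := by
      rw [← eo_zero_mem]
      have h1 : Eo Q 0 (ρ + -(ρ - (r : L))) := by
        refine hρ.add_le (hr.neg.mono ?_)
        rw [zero_add]
        exact ht1
      have e : ρ + -(ρ - (r : L)) = (r : L) := by ring
      rwa [e] at h1
    obtain ⟨a, ha⟩ := hbij.2 (locw_unit Q (t + 1) hrQ).unit
    have h1 : Ideal.Quotient.mk (Q.asIdeal ^ (t + 1)) r = Ideal.Quotient.mk (Q.asIdeal ^ (t + 1)) (s a) := by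
      rw [← hbv, ha]
      rfl
    rw [locw_mk, hcast] at h1
    have h2 : Le Q (t + 1) (ρ - y a) := by
      have h3 := (hr.add h1).sub (hs a)
      have e : ρ - (r : L) + ((r : L) - (s a : L)) - (y a - (s a : L)) = ρ - y a := by ring
      rwa [e] at h3
    have h3 := h.norm_cong hv hρ (hy a) h2
    rw [hN] at h3
    have h4 : Le v (t + 1) ((z a : k) - ((1 : 𝓞 k) : k)) := by
      have h5 := (hzy a).sub h3
      have e : (z a : k) - Algebra.norm k (y a) - (1 - Algebra.norm k (y a)) = (z a : k) - ((1 : 𝓞 k) : k) := by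
        rw [show ((1 : 𝓞 k) : k) = 1 from map_one _]
        ring
      rwa [e] at h5
    rw [← hcast, ← locw_mk, hz, map_one] at h4
    have h5 : a = 1 := Units.ext h4
    rw [h5] at h2
    exact h2
  have hpi0 : (ϖ : L) ≠ 0 := h.pi.ne_zero
  have hsp : Eo Q 1 (σ (ϖ : L)) := by
    have h1 := h.pi
    rw [eo_iff] at h1 ⊢
    rw [h.inv, h.inv]
    exact h1
  have hth : Eo Q 0 (σ (ϖ : L) / (ϖ : L)) := by
    have h1 := hsp.div h.pi
    rwa [sub_self] at h1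
  have hNth : Algebra.norm k (σ (ϖ : L) / (ϖ : L)) = 1 := by
    have h1 : Algebra.norm k (σ (ϖ : L) / (ϖ : L)) * Algebra.norm k (ϖ : L) = Algebra.norm k (ϖ : L) := by
      rw [← map_mul, div_mul_cancel₀ _ hpi0, Algebra.norm_eq_of_algEquiv]
    exact mul_right_cancel₀ (fun h0 => hpi0 (Algebra.norm_eq_zero_iff.1 h0)) (h1.trans (one_mul _).symm)
  have h1 := hone _ hth hNth
  have h2 := hone 1 Eo.one (map_one _)
  have h3 : Le Q (t + 1) (σ (ϖ : L) / (ϖ : L) - 1) := by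
    have h4 := h1.sub h2
    have e : σ (ϖ : L) / (ϖ : L) - y 1 - (1 - y 1) = σ (ϖ : L) / (ϖ : L) - 1 := by ring
    rwa [e] at h4
  have h4 : Eo Q t (σ (ϖ : L) / (ϖ : L) - 1) := by
    have h5 := h.tt.div h.pi
    have e : (σ (ϖ : L) - (ϖ : L)) / (ϖ : L) = σ (ϖ : L) / (ϖ : L) - 1 := by
      rw [sub_div, div_self hpi0]
    rw [e] at h5
    have e2 : (t : ℤ) + 1 - 1 = t := by ring
    rwa [e2] at h5
  rw [h4.le_iff] at h3
  omega


end

end Pool.Agent.Lib.MP_1a91b9_nuW.CF
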