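import Pool.Agent.Lib.MP_1a91b9_nuW.CF.Trc

/-!
# The norm at a wildly ramified place

PROOF of `Tot.norm_one_add`. `G = Gal(L/k)` (a Fintype, `ℓ` elements), for `S : Finset G` put `P S = ∏ τ ∈ S, τ x`.
`algebraMap k L (norm (1 + x)) = ∏ τ, τ (1 + x) = ∏ τ, (1 + τ x)` (`Algebra.norm_eq_prod_automorphisms`) `= ∑ S ∈ univ.powerset,
P S` (`Finset.prod_one_add` or `Finset.prod_add`) `= ∑ j ∈ range (ℓ + 1), ∑ S ∈ powersetCard j univ, P S`
(`Finset.sum_powerset`). `j = 0`: `1`; `j = ℓ`: `P univ = algebraMap k L (norm x)` (`powersetCard_self`).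
So `algebraMap k L (norm (1+x) - 1 - norm x) = ∑ j ∈ Ico 1 ℓ, E j`, `E j = ∑ S ∈ powersetCard j univ, P S`. It is
enough that `Le Q (ℓ m) (E j)` for `1 ≤ j < ℓ` (`h.up`, `Le.sum`).
CLAIM: `(j : L) * E j = algebraMap k L (Algebra.trace k L y)` where `y = ∑ S ∈ (powersetCard j univ).filter (1 ∈ ·), P S`.
`j * E j = ∑ S ∈ powersetCard j univ, ∑ τ ∈ S, P S = ∑ τ, ∑ S ∈ (powersetCard j univ).filter (τ ∈ ·), P S` (`Finset.sum_comm'`;
`card S = j`). For `τ`: `S ↦ τ S = S.image (τ * ·)` (or `S.map (mulLeftEmbedding τ)`) is a bijection from the sets of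
the filter for `1` to the sets of the filter for `τ` (`Finset.sum_bij'` with inverse `τ⁻¹ S`), and `P (τ S) = ∏ ρ ∈ S,
(τ * ρ) x = τ (P S)`. So the inner sum is `τ y`, and `∑ τ, τ y = algebraMap k L (trace y)`
(`trace_eq_sum_automorphisms`).
`Le Q n y`: each `P S` with `card S = j ≥ 1`, `Le Q (j n)` (`Le.prod`, `h.inv`), `j n ≥ n`; `Le.sum`. `h.trace hv`: `Le v m
(trace y)`, `Le Q (ℓ m) (j * E j)`. `Eo Q 0 (j : L)`: `j` and `ℓ` are coprime integers: `a j + b ℓ = 1`; if `j ∈ v` then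
`1 ∈ v`; so `Eo v 0 (j : k)` (`eo_zero_mem`), `Eo Q 0` (`up_eo` with `n = 0`). `E j = (j E j) / j` (`Le.div`).
norm_cong: `y ≠ 0`, `z = (x - y) / y`, `Le Q (t + 1) z`, `x = y (1 + z)`, `norm x - norm y = norm y * (norm (1 + z) - 1)`;
`norm_one_add` with `n = m = t + 1` (`ℓ t < (t + 1) + t (ℓ - 1)`), `nm_le : Le v (t+1) (norm z)`, and `Eo v 0 (norm y)`.
-/

set_option autoImplicit false

namespace Pool.Agent.Lib.MP_1a91b9_nuW.CF

open NumberField IsDedekindDomain Pool.Agent.Lib.MP_1a91b9_nt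
open Pool.Agent.Lib.MP_1a91b9_nuT Pool.Agent.Lib.MP_1a91b9_nuT.CF

universe u

section
open Finset

/-- the sets with `j` elements which contain `τ` are the translates of those which contain `1` -/
private theorem nrm_shift {G R : Type*} [Group G] [Fintype G] [DecidableEq G] [CommRing R]
    (f : G → R) (τ : G) (j : ℕ) :
    ∑ S ∈ (powersetCard j (univ : Finset G)).filter (fun S => τ ∈ S), ∏ ρ ∈ S, f ρ =
      ∑ S ∈ (powersetCard j (univ : Finset G)).filter (fun S => (1 : G) ∈ S),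
        ∏ ρ ∈ S, f (τ * ρ) := by
  refine sum_bij' (fun S _ => S.map (Equiv.mulLeft τ⁻¹).toEmbedding)
    (fun S _ => S.map (Equiv.mulLeft τ).toEmbedding) ?_ ?_ ?_ ?_ ?_
  · intro S hS
    obtain ⟨h1, h2⟩ := mem_filter.1 hS
    refine mem_filter.2 ⟨mem_powersetCard.2 ⟨subset_univ _, ?_⟩, mem_map.2 ⟨τ, h2, ?_⟩⟩
    · rw [card_map]
      exact (mem_powersetCard.1 h1).2
    · show τ⁻¹ * τ = 1
      exact inv_mul_cancel τ
  · intro S hS
    obtain ⟨h1, h2⟩ := mem_filter.1 hS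
    refine mem_filter.2 ⟨mem_powersetCard.2 ⟨subset_univ _, ?_⟩, mem_map.2 ⟨1, h2, ?_⟩⟩
    · rw [card_map]
      exact (mem_powersetCard.1 h1).2
    · show τ * 1 = τ
      exact mul_one τ
  · intro S _
    ext a
    simp only [mem_map, Equiv.coe_toEmbedding, Equiv.coe_mulLeft]
    constructor
    · rintro ⟨b, ⟨c, hc, rfl⟩, rfl⟩
      rwa [mul_inv_cancel_left]
    · intro ha
      exact ⟨τ⁻¹ * a, ⟨a, ha, rfl⟩, mul_inv_cancel_left _ _⟩
  · intro S _
    ext a
    simp only [mem_map, Equiv.coe_toEmbedding, Equiv.coe_mulLeft]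
    constructor
    · rintro ⟨b, ⟨c, hc, rfl⟩, rfl⟩
      rwa [inv_mul_cancel_left]
    · intro ha
      exact ⟨τ * a, ⟨a, ha, rfl⟩, inv_mul_cancel_left _ _⟩
  · intro S _
    rw [prod_map]
    refine prod_congr rfl fun ρ _ => ?_
    show f ρ = f (τ * (τ⁻¹ * ρ))
    rw [mul_inv_cancel_left]

/-- double counting -/
private theorem nrm_double {G R : Type*} [Group G] [Fintype G] [DecidableEq G] [CommRing R]
    (f : G → R) (j : ℕ) :
    (j : R) * ∑ S ∈ powersetCard j (univ : Finset G), ∏ ρ ∈ S, f ρ =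
      ∑ τ : G, ∑ S ∈ (powersetCard j (univ : Finset G)).filter (fun S => (1 : G) ∈ S),
        ∏ ρ ∈ S, f (τ * ρ) := by
  have h1 : (j : R) * ∑ S ∈ powersetCard j (univ : Finset G), ∏ ρ ∈ S, f ρ =
      ∑ S ∈ powersetCard j (univ : Finset G), ∑ τ : G, if τ ∈ S then ∏ ρ ∈ S, f ρ else 0 := by
    rw [mul_sum]
    refine sum_congr rfl fun S hS => ?_
    rw [← sum_filter, filter_mem_eq_inter, univ_inter, sum_const, (mem_powersetCard.1 hS).2,
      nsmul_eq_mul]
  rw [h1, sum_comm]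
  refine sum_congr rfl fun τ _ => ?_
  rw [← nrm_shift, sum_filter]

/-- the product of the conjugates of `1 + x` -/
private theorem nrm_expand {G R : Type*} [Fintype G] [DecidableEq G] [CommRing R] (f : G → R)
    {l : ℕ} (hl : Fintype.card G = l) (hl1 : 1 ≤ l) :
    ∏ ρ : G, (1 + f ρ) - 1 - ∏ ρ : G, f ρ =
      ∑ j ∈ Ico 1 l, ∑ S ∈ powersetCard j (univ : Finset G), ∏ ρ ∈ S, f ρ := by
  rw [prod_one_add, sum_powerset, card_univ, hl, sum_range_succ, range_eq_Ico,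
    sum_eq_sum_Ico_succ_bot (by omega)]
  have h1 : ∑ S ∈ powersetCard l (univ : Finset G), ∏ ρ ∈ S, f ρ = ∏ ρ : G, f ρ := by
    rw [← hl, ← card_univ, powersetCard_self, sum_singleton]
  have h2 : ∑ S ∈ powersetCard 0 (univ : Finset G), ∏ ρ ∈ S, f ρ = 1 := by
    rw [powersetCard_zero, sum_singleton, prod_empty]
  rw [h1, h2, zero_add]
  ring

end

section
variable {k L : Type u} [Field k] [NumberField k] [Field L] [NumberField L] [Algebra k L]
variable [CD] {ℓ : ℕ} {v : HeightOneSpectrum (𝓞 k)} {Q : HeightOneSpectrum (𝓞 L)} {σ : Gal(L/k)}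
  {ϖ : 𝓞 L} {t : ℕ} (h : Tot ℓ v Q σ ϖ t) (hv : (ℓ : 𝓞 k) ∈ v.asIdeal)
include h hv

theorem Tot.norm_one_add {n : ℕ} (hn : 1 ≤ n) {x : L} (hx : Le Q n x) {m : ℤ}
    (hm : ℓ * (m - 1) < n + t * (ℓ - 1)) :
    Le v m (Algebra.norm k (1 + x) - 1 - Algebra.norm k x) := by
  classical
  have hgal := h.gal
  have hpr := h.pr
  have hcard : Fintype.card Gal(L/k) = ℓ := by
    rw [← Nat.card_eq_fintype_card, IsGalois.card_aut_eq_finrank, h.deg]
  have hE : ∀ j ∈ Finset.Ico 1 ℓ, Le Q (ℓ * m)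
      (∑ S ∈ Finset.powersetCard j (Finset.univ : Finset Gal(L/k)), ∏ ρ ∈ S, ρ x) := by
    intro j hj
    obtain ⟨hj1, hj2⟩ := Finset.mem_Ico.1 hj
    obtain ⟨y, hy⟩ : ∃ y : L, y =
        ∑ S ∈ (Finset.powersetCard j (Finset.univ : Finset Gal(L/k))).filter
          (fun S => (1 : Gal(L/k)) ∈ S), ∏ ρ ∈ S, ρ x := ⟨_, rfl⟩
    have hyn : Le Q n y := by
      rw [hy]
      refine Le.sum fun S hS => ?_
      have h1 := (Finset.mem_powersetCard.1 (Finset.mem_filter.1 hS).1).2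
      have h2 : Le Q (S.card * n) (∏ ρ ∈ S, ρ x) := Le.prod fun ρ _ => (h.inv ρ).2 hx
      refine h2.mono ?_
      rw [h1]
      have h3 : (1 : ℤ) * n ≤ j * n := mul_le_mul_of_nonneg_right (by exact_mod_cast hj1) (by positivity)
      linarith
    have h1 := h.up.2 (h.trace hv hyn hm)
    have h2 : (j : L) * ∑ S ∈ Finset.powersetCard j (Finset.univ : Finset Gal(L/k)), ∏ ρ ∈ S, ρ x =
        algebraMap k L (Algebra.trace k L y) := by
      rw [trace_eq_sum_automorphisms, nrm_double (fun ρ : Gal(L/k) => ρ x) j]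
      refine Finset.sum_congr rfl fun τ _ => ?_
      rw [hy, map_sum]
      refine Finset.sum_congr rfl fun S _ => ?_
      rw [map_prod]
      rfl
    have h3 : (j : 𝓞 k) ∉ v.asIdeal := by
      intro hjv
      have hco : IsCoprime (j : ℤ) (ℓ : ℤ) := by
        rw [Nat.isCoprime_iff_coprime]
        exact (Nat.coprime_of_lt_prime (by omega) hj2 hpr).symm
      obtain ⟨a, b, hab⟩ := hco
      have h4 : (a : 𝓞 k) * (j : 𝓞 k) + (b : 𝓞 k) * (ℓ : 𝓞 k) = 1 := by exact_mod_cast congrArg (fun z : ℤ => (z : 𝓞 k)) hab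
      have h5 : (1 : 𝓞 k) ∈ v.asIdeal := by
        rw [← h4]
        exact v.asIdeal.add_mem (v.asIdeal.mul_mem_left _ hjv) (v.asIdeal.mul_mem_left _ hv)
      exact v.isPrime.ne_top ((Ideal.eq_top_iff_one _).2 h5)
    have h4 : Eo v 0 (j : k) := by
      have h5 := (eo_zero_mem (w := v) (j : 𝓞 k)).2 h3
      have e : ((j : 𝓞 k) : k) = (j : k) := map_natCast _ _
      rwa [e] at h5
    have h5 : Eo Q 0 (j : L) := by
      have h6 := (h.up_eo (n := 0)).2 h4
      rwa [mul_zero, map_natCast] at h6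
    rw [← h2] at h1
    have h6 := h1.div h5
    rwa [mul_div_cancel_left₀ _ h5.ne_zero, sub_zero] at h6
  refine h.up.1 ?_
  rw [map_sub, map_sub, map_one, Algebra.norm_eq_prod_automorphisms,
    Algebra.norm_eq_prod_automorphisms]
  have h7 : ∀ ρ : Gal(L/k), ρ (1 + x) = 1 + ρ x := fun ρ => by rw [map_add, map_one]
  simp only [h7]
  rw [nrm_expand (fun ρ : Gal(L/k) => ρ x) hcard hpr.one_lt.le]
  exact Le.sum hE

theorem Tot.norm_cong {x y : L} (hx : Eo Q 0 x) (hy : Eo Q 0 y) (hxy : Le Q (t + 1) (x - y)) :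
    Le v (t + 1) (Algebra.norm k x - Algebra.norm k y) := by
  have hy0 := hy.ne_zero
  obtain ⟨z, hz⟩ : ∃ z : L, z = (x - y) / y := ⟨_, rfl⟩
  have hzt : Le Q ((t + 1 : ℕ) : ℤ) z := by
    rw [hz]
    have h1 := hxy.div hy
    rw [sub_zero] at h1
    exact h1.mono (by push_cast; exact le_rfl)
  have hxz : x = y * (1 + z) := by
    rw [hz]
    field_simp
    ring
  have h1 : Le v ((t : ℤ) + 1) (Algebra.norm k (1 + z) - 1 - Algebra.norm k z) := by
    refine h.norm_one_add hv (by omega) hzt ?_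
    push_cast
    nlinarith
  have h2 : Le v ((t : ℤ) + 1) (Algebra.norm k z) := by
    refine h.nm_le (hzt.mono ?_)
    push_cast
    exact le_rfl
  have h3 : Le v 0 (Algebra.norm k y) := (h.nm_eo hy).le
  have h4 := h3.mul (h1.add h2)
  rw [zero_add] at h4
  have h5 : Algebra.norm k x - Algebra.norm k y =
      Algebra.norm k y * (Algebra.norm k (1 + z) - 1 - Algebra.norm k z + Algebra.norm k z) := by
    rw [hxz, map_mul]
    ring
  rw [h5]
  exact h4

end

end Pool.Agent.Lib.MP_1a91b9_nuW.CF
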