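import Pool.Agent.Lib.MP_1a91b9_nuW.CF.Le

/-!
# The totally ramified places of a cyclic extension of prime degree

PROOF of `exists_tot` and of the properties (all the steps occur inside the proof of `loc_ram` in
MP_1a91b9_nuT/CF/LocRam.lean, lines 529-620: copy from there). `L / k` Galois of prime degree `ℓ`, `v`
ramified: `CF.trichotomy k L ℓ hdeg v` (nuT/CF/OrdExt.lean) gives: there is exactly one place `Q` of
`L` above `v` (`Fintype.card (Over L v) = 1`), of ramification index `ℓ` and inertia degree `1`.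

up: `a = 0` trivial. `a ≠ 0`: `a = y` a unit of `k`, `ord Q (incA y) = ℓ * ord v y` (`ord_incA`), `eo_ord`,
`Eo.le_iff`: `Le Q (ℓ n) a ↔ ℓ n ≤ ℓ ord v y ↔ n ≤ ord v y ↔ Le v n a` (`ℓ > 0`).
up_eo: from `up` for `n` and `n + 1` (`eo_iff` : `Eo v n a ↔ Le v n a ∧ ¬ Le v (n+1) a`;
`Eo Q (ℓ n) a → Le, and Le Q (ℓ (n+1)) a` would give `ℓ (n+1) ≤ ℓ n`; conversely `Eo v n a` with
`exists_eo`: `a ≠ 0`, `ord Q (incA y) = ℓ * ord v y`).
nm_eo: `x ≠ 0` as `Eo`, `x` a unit of `L`, `ord v (nmA y) = ∑_{w over v} f(w) * ord w y` (`ord_nmA`) `= ord Q y`.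
nm_le: `x = 0`: `norm 0 = 0` (`[L : k] = ℓ ≠ 0`), `Le.zero`; otherwise `exists_eo` and `nm_eo`.
inv: `ord_autA τ Q`: there is `w'` with `w'.under = Q.under` (so `w' = Q` by uniqueness) and `ord Q (autA τ
y) = ord w' y`.
apx: private theorem `locram_approx` of nuT/CF/LocRam.lean (copy it, with `locram_surj`).
exists_tot: `σ`: the group has prime order `ℓ` (`IsGalois.card_aut_eq_finrank`), take a generator
(`isCyclic_of_prime_card`, `IsCyclic.exists_generator`); every `τ` is `σ ^ i` with `i < ℓ`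
(`IsCyclic.image_range_orderOf` or `mem_powers` and reduction modulo the order). `ϖ`: `exists_ord_one`
or `Q.valuation_exists_uniformizer'` / `intValuation_exists_uniformizer` (an element of `𝓞 L` of order `1`).
`t`: `σ ϖ ≠ ϖ`: otherwise `ϖ` is fixed by all `σ ^ i`, so by `Gal(L/k)`, `ϖ = algebraMap k L a` (`mem_range_incA`
or `IsGalois.mem_bot_iff_fixed`), `Eo Q 1 a`, but `Eo v n a` gives `Eo Q (ℓ n) a`, `ℓ n = 1`: contradiction.
`exists_eo`: `Eo Q s (σ ϖ - ϖ)`, `s ≥ 1` as `Le Q 1 (σ ϖ - ϖ)` (`inv`): `s = t + 1`.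
-/

set_option autoImplicit false

namespace Pool.Agent.Lib.MP_1a91b9_nuW.CF

open NumberField IsDedekindDomain Pool.Agent.Lib.MP_1a91b9_nt
open Pool.Agent.Lib.MP_1a91b9_nuT Pool.Agent.Lib.MP_1a91b9_nuT.CF

universe u

section
variable {k L : Type u} [Field k] [NumberField k] [Field L] [NumberField L] [Algebra k L]

/-- `L / k` is cyclic of prime degree `ℓ` with generator `σ`, the place `v` is totally ramified in
`L`, `Q` is the place above it, `ϖ` a uniformiser at `Q` and `t` the number with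
`ord_Q (σ ϖ - ϖ) = t + 1` -/
structure Tot (ℓ : ℕ) (v : HeightOneSpectrum (𝓞 k)) (Q : HeightOneSpectrum (𝓞 L)) (σ : Gal(L/k))
    (ϖ : 𝓞 L) (t : ℕ) : Prop where
  gal : IsGalois k L
  pr : ℓ.Prime
  deg : Module.finrank k L = ℓ
  uni : ∀ Q' : HeightOneSpectrum (𝓞 L), Q'.under (𝓞 k) = v ↔ Q' = Q
  ram : Q.asIdeal.ramificationIdx (𝓞 k) = ℓ
  ine : Q.asIdeal.inertiaDeg (𝓞 k) = 1
  gen : ∀ τ : Gal(L/k), ∃ i : ℕ, i < ℓ ∧ τ = σ ^ i
  pi : Eo Q 1 (ϖ : L)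
  tt : Eo Q (t + 1) (σ (ϖ : L) - (ϖ : L))

variable [CD] {ℓ : ℕ} {v : HeightOneSpectrum (𝓞 k)} {Q : HeightOneSpectrum (𝓞 L)} {σ : Gal(L/k)}
  {ϖ : 𝓞 L} {t : ℕ}

omit [CD] in
private theorem tot_surj (v : HeightOneSpectrum (𝓞 k)) (Q : HeightOneSpectrum (𝓞 L))
    (hQ : Q.asIdeal.under (𝓞 k) = v.asIdeal) (hf : Q.asIdeal.inertiaDeg (𝓞 k) = 1) (z : 𝓞 L) :
    ∃ a : 𝓞 k, z - algebraMap (𝓞 k) (𝓞 L) a ∈ Q.asIdeal := by
  have hvm : v.asIdeal.IsMaximal := v.isMaximal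
  have hQm : Q.asIdeal.IsMaximal := Q.isMaximal
  have i2 : Q.asIdeal.LiesOver v.asIdeal := ⟨hQ.symm⟩
  let f : 𝓞 k →+* 𝓞 L ⧸ Q.asIdeal :=
    (Ideal.Quotient.mk Q.asIdeal).comp (algebraMap (𝓞 k) (𝓞 L))
  have hker : RingHom.ker f = v.asIdeal := by
    ext a
    rw [RingHom.mem_ker, ← hQ, Ideal.mem_comap]
    exact Ideal.Quotient.eq_zero_iff_mem
  have hn : Ideal.absNorm v.asIdeal = Ideal.absNorm Q.asIdeal := by
    have h := Ideal.absNorm_pow_inertiaDeg v.asIdeal Q.asIdeal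
    rwa [hf, pow_one] at h
  have hcard : Nat.card (𝓞 L ⧸ Q.asIdeal) ≤ Nat.card (𝓞 k ⧸ RingHom.ker f) := by
    rw [hker]
    exact le_of_eq hn.symm
  have hfin : Finite (𝓞 L ⧸ Q.asIdeal) := Q.asIdeal.finiteQuotientOfFreeOfNeBot Q.ne_bot
  have hbij := (RingHom.kerLift_injective f).bijective_of_nat_card_le hcard
  obtain ⟨b, hb⟩ := hbij.2 (Ideal.Quotient.mk Q.asIdeal z)
  obtain ⟨a, rfl⟩ := Ideal.Quotient.mk_surjective b
  refine ⟨a, ?_⟩
  rw [← Ideal.Quotient.eq]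
  exact hb.symm

omit [CD] in
private theorem tot_approx (v : HeightOneSpectrum (𝓞 k)) (Q : HeightOneSpectrum (𝓞 L))
    (hQ : Q.asIdeal.under (𝓞 k) = v.asIdeal) (hf : Q.asIdeal.inertiaDeg (𝓞 k) = 1) (y : L)
    (hy : Q.valuation L y ≤ 1) :
    ∃ a : 𝓞 k, Q.valuation L (y - algebraMap k L (a : k)) < 1 := by
  obtain ⟨z, hz⟩ := Q.exists_valuation_sub_lt_of_integer (K := L) hy 1
  obtain ⟨a, ha⟩ := tot_surj v Q hQ hf z
  refine ⟨a, ?_⟩
  have h1 : y - algebraMap k L (a : k) = -(algebraMap (𝓞 L) L z - y) +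
      algebraMap (𝓞 L) L (z - algebraMap (𝓞 k) (𝓞 L) a) := by
    have h2 : algebraMap (𝓞 L) L (algebraMap (𝓞 k) (𝓞 L) a) = algebraMap k L (a : k) := rfl
    rw [map_sub, h2]
    ring
  rw [h1]
  refine (Valuation.map_add _ _ _).trans_lt (max_lt ?_ ?_)
  · rw [Valuation.map_neg]
    simpa using hz
  · exact (Q.valuation_lt_one_iff_mem _).2 ha

private theorem tot_up_aux (hu : Q.under (𝓞 k) = v)
    (hram : Q.asIdeal.ramificationIdx (𝓞 k) = ℓ) {a : k} (ha : a ≠ 0) :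
    ∃ m : ℤ, Eo v m a ∧ Eo Q (ℓ * m) (algebraMap k L a) := by
  refine ⟨ord v (Additive.ofMul (Units.mk0 a ha)), eo_ord (w := v) (Units.mk0 a ha), ?_⟩
  have h1 : ord Q (incA k L (Additive.ofMul (Units.mk0 a ha))) =
      (ℓ : ℤ) * ord v (Additive.ofMul (Units.mk0 a ha)) := by
    rw [ord_incA, hram, hu]
  rw [← h1]
  exact eo_ord (w := Q) (Units.map (algebraMap k L : k →* L) (Units.mk0 a ha))

private theorem tot_inv_aux [IsGalois k L]
    (huni : ∀ Q' : HeightOneSpectrum (𝓞 L), Q'.under (𝓞 k) = v ↔ Q' = Q)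
    (τ : Gal(L/k)) {n : ℤ} {x : L} : Eo Q n x → Eo Q n (τ x) := by
  intro hx
  have hx0 := hx.ne_zero
  obtain ⟨w', hw', h1⟩ := ord_autA τ Q
  have h2 : w' = Q := (huni w').1 (hw'.trans ((huni Q).2 rfl))
  rw [h2] at h1
  have h3 := h1 (Additive.ofMul (Units.mk0 x hx0))
  have h4 : Eo Q (ord Q (Additive.ofMul (Units.mk0 x hx0))) x := eo_ord (w := Q) (Units.mk0 x hx0)
  have h5 : Eo Q (ord Q (autA τ (Additive.ofMul (Units.mk0 x hx0)))) (τ x) :=
    eo_ord (w := Q) (Units.map (τ : L →* L) (Units.mk0 x hx0))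
  rw [h3] at h5
  rw [hx.unique h4]
  exact h5

section
variable (h : Tot ℓ v Q σ ϖ t)
include h

theorem Tot.up {n : ℤ} {a : k} : Le Q (ℓ * n) (algebraMap k L a) ↔ Le v n a := by
  rcases eq_or_ne a 0 with rfl | ha
  · rw [map_zero]
    exact iff_of_true Le.zero Le.zero
  · obtain ⟨m, h1, h2⟩ := tot_up_aux ((h.uni Q).2 rfl) h.ram ha
    have h3 : (0 : ℤ) < ℓ := Int.natCast_pos.2 h.pr.pos
    rw [h2.le_iff, h1.le_iff]
    exact ⟨fun h4 => le_of_mul_le_mul_left h4 h3, fun h4 => mul_le_mul_of_nonneg_left h4 h3.le⟩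

theorem Tot.up_eo {n : ℤ} {a : k} : Eo Q (ℓ * n) (algebraMap k L a) ↔ Eo v n a := by
  rcases eq_or_ne a 0 with rfl | ha
  · constructor
    · intro h1
      exact absurd (map_zero _) h1.ne_zero
    · intro h1
      exact absurd rfl h1.ne_zero
  · obtain ⟨m, h1, h2⟩ := tot_up_aux ((h.uni Q).2 rfl) h.ram ha
    have h3 : (0 : ℤ) < ℓ := Int.natCast_pos.2 h.pr.pos
    constructor
    · intro h4
      have h5 := h4.unique h2
      rw [mul_left_cancel₀ h3.ne' h5]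
      exact h1
    · intro h4
      rw [h4.unique h1]
      exact h2

theorem Tot.nm_eo {n : ℤ} {x : L} (hx : Eo Q n x) : Eo v n (Algebra.norm k x) := by
  classical
  have hx0 := hx.ne_zero
  have hQ : Q.asIdeal.under (𝓞 k) = v.asIdeal :=
    congrArg HeightOneSpectrum.asIdeal ((h.uni Q).2 rfl)
  have hQu : ∀ w : S4.Over L v, w = ⟨Q, hQ⟩ := fun w =>
    Subtype.ext ((h.uni w.1).1 (HeightOneSpectrum.ext w.2))
  have h1 : ord v (nmA k L (Additive.ofMul (Units.mk0 x hx0))) =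
      ord Q (Additive.ofMul (Units.mk0 x hx0)) := by
    rw [ord_nmA, Fintype.sum_eq_single (⟨Q, hQ⟩ : S4.Over L v)
      (fun w hne => absurd (hQu w) hne), h.ine, Nat.cast_one, one_mul]
  have h2 : Eo v (ord v (nmA k L (Additive.ofMul (Units.mk0 x hx0)))) (Algebra.norm k x) :=
    eo_ord (w := v) (Units.map (Algebra.norm k : L →* k) (Units.mk0 x hx0))
  have h3 : Eo Q (ord Q (Additive.ofMul (Units.mk0 x hx0))) x := eo_ord (w := Q) (Units.mk0 x hx0)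
  rw [h1] at h2
  rw [hx.unique h3]
  exact h2

theorem Tot.nm_le {n : ℤ} {x : L} (hx : Le Q n x) : Le v n (Algebra.norm k x) := by
  rcases eq_or_ne x 0 with rfl | hx0
  · rw [Algebra.norm_zero]
    exact Le.zero
  · obtain ⟨m, hm⟩ := exists_eo (w := Q) hx0
    rw [hm.le_iff] at hx
    rw [(h.nm_eo hm).le_iff]
    exact hx

theorem Tot.inv (τ : Gal(L/k)) {n : ℤ} {x : L} : Le Q n (τ x) ↔ Le Q n x := by
  have := h.gal
  rcases eq_or_ne x 0 with rfl | hx0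
  · rw [map_zero]
  · obtain ⟨m, hm⟩ := exists_eo (w := Q) hx0
    have h1 := tot_inv_aux h.uni τ hm
    rw [hm.le_iff, h1.le_iff]

theorem Tot.apx {x : L} (hx : Le Q 0 x) : ∃ a : 𝓞 k, Le Q 1 (x - algebraMap k L (a : k)) := by
  have hQ : Q.asIdeal.under (𝓞 k) = v.asIdeal :=
    congrArg HeightOneSpectrum.asIdeal ((h.uni Q).2 rfl)
  have hy : Q.valuation L x ≤ 1 := by
    unfold Le at hx
    rwa [neg_zero, WithZero.exp_zero] at hx
  obtain ⟨a, ha⟩ := tot_approx v Q hQ h.ine x hy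
  exact ⟨a, le_one_iff.2 ha⟩

end

variable (k L ℓ) in
theorem exists_tot [IsGalois k L] [Fact ℓ.Prime] (hdeg : Module.finrank k L = ℓ)
    (v : HeightOneSpectrum (𝓞 k)) (hr : CF.Ram L v) :
    ∃ (Q : HeightOneSpectrum (𝓞 L)) (σ : Gal(L/k)) (ϖ : 𝓞 L) (t : ℕ), Tot ℓ v Q σ ϖ t := by
  classical
  have hℓ : ℓ.Prime := Fact.out
  rcases trichotomy k L ℓ hdeg v with ⟨_, _, hcard, hw⟩ | ⟨hr', _⟩ | ⟨hr', _⟩
  rotate_left
  · exact absurd hr hr'
  · exact absurd hr hr'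
  obtain ⟨⟨Q, hQ⟩, hQu⟩ := Fintype.card_eq_one_iff.1 hcard
  have he : Q.asIdeal.ramificationIdx (𝓞 k) = ℓ := (hw ⟨Q, hQ⟩).1
  have hf : Q.asIdeal.inertiaDeg (𝓞 k) = 1 := (hw ⟨Q, hQ⟩).2
  have hQv : Q.under (𝓞 k) = v := HeightOneSpectrum.ext hQ
  have huni : ∀ Q' : HeightOneSpectrum (𝓞 L), Q'.under (𝓞 k) = v ↔ Q' = Q := by
    intro Q'
    constructor
    · intro h1
      exact congrArg Subtype.val (hQu ⟨Q', congrArg HeightOneSpectrum.asIdeal h1⟩)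
    · rintro rfl
      exact hQv
  -- the generator
  have hc : Nat.card Gal(L/k) = ℓ := by rw [IsGalois.card_aut_eq_finrank, hdeg]
  have hcyc : IsCyclic Gal(L/k) := isCyclic_of_prime_card hc
  obtain ⟨σ, hσ⟩ := IsCyclic.exists_generator (α := Gal(L/k))
  have hord : orderOf σ = ℓ := by rw [orderOf_eq_card_of_forall_mem_zpowers hσ, hc]
  have hgen : ∀ τ : Gal(L/k), ∃ i : ℕ, i < ℓ ∧ τ = σ ^ i := by
    intro τ
    have h1 : τ ∈ Subgroup.zpowers σ := hσ τ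
    rw [← mem_powers_iff_mem_zpowers] at h1
    obtain ⟨j, hj⟩ := h1
    refine ⟨j % ℓ, Nat.mod_lt _ hℓ.pos, ?_⟩
    rw [← hj, ← hord]
    exact (pow_mod_orderOf σ j).symm
  -- the uniformiser
  obtain ⟨ϖ, y, hy, hϖ⟩ := exists_ord_one Q
  have hpi : Eo Q 1 (ϖ : L) := by
    have h1 := eo_ord (w := Q) y
    rw [hϖ, hy] at h1
    exact h1
  have hne : σ (ϖ : L) - (ϖ : L) ≠ 0 := by
    intro h0
    have h1 : σ (ϖ : L) = (ϖ : L) := sub_eq_zero.1 h0
    have h2 : ∀ i : ℕ, (σ ^ i) (ϖ : L) = (ϖ : L) := by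
      intro i
      induction i with
      | zero => rfl
      | succ i ih => rw [pow_succ, AlgEquiv.mul_apply, h1, ih]
    have h3 : (ϖ : L) ∈ Set.range (algebraMap k L) := by
      rw [IsGalois.mem_range_algebraMap_iff_fixed]
      intro τ
      obtain ⟨i, -, rfl⟩ := hgen τ
      exact h2 i
    obtain ⟨a, ha⟩ := h3
    have ha0 : a ≠ 0 := by
      rintro rfl
      rw [map_zero] at ha
      exact hpi.ne_zero ha.symm
    obtain ⟨m, -, h5⟩ := tot_up_aux hQv he ha0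
    rw [ha] at h5
    have h6 := hpi.unique h5
    have h7 : (ℓ : ℤ) ∣ 1 := ⟨m, h6⟩
    have h8 : ℓ ∣ 1 := by exact_mod_cast h7
    exact hℓ.one_lt.ne' (Nat.dvd_one.1 h8)
  obtain ⟨s, hs⟩ := exists_eo (w := Q) hne
  have hs1 : 1 ≤ s := by
    rw [← hs.le_iff]
    exact (tot_inv_aux huni σ hpi).le.sub hpi.le
  refine ⟨Q, σ, ϖ, (s - 1).toNat, inferInstance, hℓ, hdeg, huni, he, hf, hgen, hpi, ?_⟩
  have e : (((s - 1).toNat : ℕ) : ℤ) + 1 = s := by
    rw [Int.toNat_of_nonneg (by omega)]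
    omega
  rw [e]
  exact hs

end

end Pool.Agent.Lib.MP_1a91b9_nuW.CF
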