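import Pool.Agent.Lib.MP_1a91b9_nuW.CF.Del

/-!
# The trace at a wildly ramified place

PROOF. Everywhere `ℓ ∈ v`.
eo_ell: `(ℓ : k) ≠ 0`, `exists_eo` for `(ℓ : 𝓞 k)` at `v`: `Eo v n (ℓ : k)`, `1 ≤ n` since `ℓ ∈ v` (`le_one_mem`, `Eo.le_iff`);
`e = n.toNat`.
pos: (`1 ≤ t`). `h.apx` for `σ ϖ / ϖ` (order `0`): `c : 𝓞 k` with `Le Q 1 (σ ϖ / ϖ - c)`, so `Le Q 2 (σ ϖ - c ϖ)`.
Induction: `Le Q 2 (σ ^ i ϖ - c ^ i ϖ)` for all `i` (`σ ^ (i+1) ϖ - c ^ (i+1) ϖ = σ (σ ^ i ϖ - c ^ i ϖ) + c ^ i (σ ϖ - c ϖ)`,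
`h.inv`; `σ ^ i (ϖ)` is `(σ ^ i) (ϖ : L)`, `pow_succ'`). For `i = ℓ`: `σ ^ ℓ = 1` (the group has order `ℓ`:
`IsGalois.card_aut_eq_finrank` and `pow_card_eq_one'`), so `Le Q 2 ((1 - c ^ ℓ) ϖ)`, `Le Q 1 (1 - c ^ ℓ)` (divide by `ϖ`),
so `Le v 1 (1 - c ^ ℓ)`: from `h.up` with `n = 1` we need order `≥ ℓ`; use: if not `Le v 1 a` and `Le v 0 a` then `Eo v 0 a`,
`Eo Q 0 a` (`up_eo`), contradiction with `Le Q 1 a`. So `1 - c ^ ℓ ∈ v`. In the field `𝓞 k ⧸ v` of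
characteristic `ℓ` (`(ℓ : 𝓞 k) ∈ v`): `1 - c ^ ℓ = (1 - c) ^ ℓ` (`sub_pow_char`), so `1 - c ∈ v`, `Le Q 1 (1 - c)` (order at
least `ℓ`), `Le Q 2 (σ ϖ - ϖ)` where `σ ϖ - ϖ = (σ ϖ - c ϖ) - (1 - c) ϖ`; by `h.tt.le_iff`: `2 ≤ t + 1`.
bound: `e` from eo_ell. Suppose `ℓ e < t (ℓ - 1)`. `T = Algebra.trace k L ϖ`, `algebraMap k L T = ∑ τ : Gal(L/k), τ ϖ`
(`trace_eq_sum_automorphisms`) `= ∑ i ∈ range ℓ, (σ ^ i) ϖ` (the map `i ↦ σ ^ i` is a bijection of `range ℓ` onto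
the group: surjective by `h.gen`, and both have `ℓ` elements) `= ∑ j ∈ range ℓ, ℓ.choose (j+1) * (dl σ)^[j] ϖ`
(`sum_pow_eq`). Term `j = 0`: `ℓ ϖ`, `Eo Q (ℓ e + 1)`. Terms `1 ≤ j ≤ ℓ - 2`: `ℓ ∣ ℓ.choose (j + 1)`
(`Nat.Prime.dvd_choose_self`), order `≥ ℓ e + 1 + j t ≥ ℓ e + 2`. Term `j = ℓ - 1`: coefficient `1`, order
`≥ 1 + (ℓ - 1) t ≥ ℓ e + 2`. So `Eo Q (ℓ e + 1) (algebraMap k L T)` (`Eo.add_le`); `T ≠ 0`, `Eo v n T`,
`Eo Q (ℓ n)`: `ℓ n = ℓ e + 1`: contradiction.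
trace: `algebraMap k L (trace x) = ∑ j ∈ range ℓ, ℓ.choose (j+1) * (dl σ)^[j] x` as above; `j < ℓ - 1`: order `≥ ℓ e + n`
`≥ n + t (ℓ - 1)`; `j = ℓ - 1`: order `≥ n + (ℓ - 1) t`. So `Le Q (n + t (ℓ-1)) (algebraMap k L T)`. If `T = 0` trivial
(`Le.zero`); otherwise `Eo v r T`, `Eo Q (ℓ r)`, `n + t (ℓ - 1) ≤ ℓ r`, so `ℓ (m - 1) < ℓ r`, `m - 1 < r`, `m ≤ r`.
-/

set_option autoImplicit false

namespace Pool.Agent.Lib.MP_1a91b9_nuW.CF

open NumberField IsDedekindDomain Pool.Agent.Lib.MP_1a91b9_nt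
open Pool.Agent.Lib.MP_1a91b9_nuT Pool.Agent.Lib.MP_1a91b9_nuT.CF

universe u

section
variable {k L : Type u} [Field k] [NumberField k] [Field L] [NumberField L] [Algebra k L]

private theorem trc_card [CD] {ℓ : ℕ} {v : HeightOneSpectrum (𝓞 k)} {Q : HeightOneSpectrum (𝓞 L)}
    {σ : Gal(L/k)} {ϖ : 𝓞 L} {t : ℕ} (h : Tot ℓ v Q σ ϖ t) : Nat.card Gal(L/k) = ℓ := by
  have hg := h.gal
  have : FiniteDimensional k L := Module.Finite.of_restrictScalars_finite ℚ k L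
  rw [IsGalois.card_aut_eq_finrank, h.deg]

private theorem trc_sum [CD] {ℓ : ℕ} {v : HeightOneSpectrum (𝓞 k)} {Q : HeightOneSpectrum (𝓞 L)}
    {σ : Gal(L/k)} {ϖ : 𝓞 L} {t : ℕ} (h : Tot ℓ v Q σ ϖ t) (x : L) :
    algebraMap k L (Algebra.trace k L x) =
      ∑ j ∈ Finset.range ℓ, ((ℓ.choose (j + 1) : ℕ) : L) * (dl σ)^[j] x := by
  classical
  have hg := h.gal
  have : FiniteDimensional k L := Module.Finite.of_restrictScalars_finite ℚ k L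
  have hc := trc_card h
  rw [trace_eq_sum_automorphisms, ← sum_pow_eq]
  have him : (Finset.range ℓ).image (fun i => σ ^ i) = Finset.univ := by
    ext τ
    refine iff_of_true ?_ (Finset.mem_univ _)
    obtain ⟨i, hi, rfl⟩ := h.gen τ
    exact Finset.mem_image.2 ⟨i, Finset.mem_range.2 hi, rfl⟩
  have hinj : Set.InjOn (fun i => σ ^ i) (Finset.range ℓ : Set ℕ) := by
    rw [← Finset.card_image_iff, him, Finset.card_univ, Finset.card_range, ← Nat.card_eq_fintype_card,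
      hc]
  rw [← him, Finset.sum_image hinj]

end

section
variable {k L : Type u} [Field k] [NumberField k] [Field L] [NumberField L] [Algebra k L]
variable [CD] {ℓ : ℕ} {v : HeightOneSpectrum (𝓞 k)} {Q : HeightOneSpectrum (𝓞 L)} {σ : Gal(L/k)}
  {ϖ : 𝓞 L} {t : ℕ} (h : Tot ℓ v Q σ ϖ t) (hv : (ℓ : 𝓞 k) ∈ v.asIdeal)
include h hv

omit h in
theorem eo_ell (hℓ : ℓ ≠ 0) : ∃ e : ℕ, 1 ≤ e ∧ Eo v e (ℓ : k) := by
  have h0 : (ℓ : k) ≠ 0 := Nat.cast_ne_zero.2 hℓ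
  obtain ⟨n, hn⟩ := exists_eo (w := v) h0
  have h1 : Le v 1 (((ℓ : 𝓞 k) : k)) := (le_one_mem _).2 hv
  have h2 : ((ℓ : 𝓞 k) : k) = (ℓ : k) := map_natCast _ _
  rw [h2, hn.le_iff] at h1
  refine ⟨n.toNat, by omega, ?_⟩
  rwa [Int.toNat_of_nonneg (by omega)]


theorem Tot.pos : 1 ≤ t := by
  have hp := h.pr
  have hℓ1 : 1 ≤ ℓ := hp.one_lt.le
  have h1 : Le Q 1 (σ (ϖ : L)) := (h.inv σ).2 h.pi.le
  have h2 : Le Q 0 (σ (ϖ : L) / (ϖ : L)) := by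
    have e := h1.div h.pi
    rwa [sub_self] at e
  obtain ⟨c, hc⟩ := h.apx h2
  obtain ⟨C, eC⟩ : ∃ C : L, C = algebraMap k L (c : k) := ⟨_, rfl⟩
  rw [← eC] at hc
  have hpi0 : (ϖ : L) ≠ 0 := h.pi.ne_zero
  have h3 : Le Q 2 (σ (ϖ : L) - C * (ϖ : L)) := by
    have e := hc.mul h.pi.le
    rw [sub_mul, div_mul_cancel₀ _ hpi0] at e
    exact e
  have hσC : σ C = C := by
    rw [eC]
    exact σ.commutes _
  have hC0 : Le Q 0 C := by
    have e : Le Q (ℓ * 0) (algebraMap k L (c : k)) := h.up.2 (Le.int c)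
    rwa [mul_zero, ← eC] at e
  have hind : ∀ i : ℕ, Le Q 2 ((σ ^ i) (ϖ : L) - C ^ i * (ϖ : L)) := by
    intro i
    induction i with
    | zero =>
      rw [pow_zero, pow_zero, one_mul, AlgEquiv.one_apply, sub_self]
      exact Le.zero
    | succ i ih =>
      have e1 : (σ ^ (i + 1)) (ϖ : L) - C ^ (i + 1) * (ϖ : L) =
          σ ((σ ^ i) (ϖ : L) - C ^ i * (ϖ : L)) + C ^ i * (σ (ϖ : L) - C * (ϖ : L)) := by
        rw [pow_succ', AlgEquiv.mul_apply, map_sub, map_mul, map_pow, hσC]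
        ring
      rw [e1]
      have e2 : Le Q 2 (C ^ i * (σ (ϖ : L) - C * (ϖ : L))) := by
        have e3 := (hC0.pow i).mul h3
        rwa [mul_zero, zero_add] at e3
      exact ((h.inv σ).2 ih).add e2
  have h4 := hind ℓ
  have h5 : σ ^ ℓ = 1 := by
    have e := pow_card_eq_one' (x := σ)
    rwa [trc_card h] at e
  rw [h5, AlgEquiv.one_apply] at h4
  have h6 : Le Q 1 (1 - C ^ ℓ) := by
    have e := h4.div h.pi
    have e2 : ((ϖ : L) - C ^ ℓ * (ϖ : L)) / (ϖ : L) = 1 - C ^ ℓ := by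
      rw [sub_div, div_self hpi0, mul_div_cancel_right₀ _ hpi0]
    rwa [e2] at e
  have h7 : (1 - c ^ ℓ : 𝓞 k) ∈ v.asIdeal := by
    by_contra hcon
    have e1 : Eo v 0 (((1 - c ^ ℓ : 𝓞 k) : k)) := (eo_zero_mem _).2 hcon
    have e2 := h.up_eo.2 e1
    have e3 : algebraMap k L (((1 - c ^ ℓ : 𝓞 k) : k)) = 1 - C ^ ℓ := by
      have e4 : ((1 - c ^ ℓ : 𝓞 k) : k) = 1 - (c : k) ^ ℓ := by
        change algebraMap (𝓞 k) k (1 - c ^ ℓ) = 1 - (algebraMap (𝓞 k) k c) ^ ℓ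
        rw [map_sub, map_one, map_pow]
      rw [e4, map_sub, map_one, map_pow, ← eC]
    rw [e3] at e2
    rw [e2.le_iff] at h6
    omega
  have h8 : (1 - c : 𝓞 k) ∈ v.asIdeal := by
    obtain ⟨r, hr⟩ := exists_add_pow_prime_eq hp (1 - c : 𝓞 k) c
    rw [sub_add_cancel, one_pow] at hr
    have e1 : (1 - c : 𝓞 k) ^ ℓ ∈ v.asIdeal := by
      have e2 : (1 - c : 𝓞 k) ^ ℓ = (1 - c ^ ℓ) - (1 - c) * c * r * (ℓ : 𝓞 k) := by
        linear_combination -hr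
      rw [e2]
      exact v.asIdeal.sub_mem h7 (v.asIdeal.mul_mem_left _ hv)
    exact v.isPrime.mem_of_pow_mem _ e1
  have h9 : Le Q 1 (1 - C) := by
    have e1 : Le v 1 (((1 - c : 𝓞 k) : k)) := (le_one_mem _).2 h8
    have e2 := h.up.2 e1
    have e3 : algebraMap k L (((1 - c : 𝓞 k) : k)) = 1 - C := by
      have e4 : ((1 - c : 𝓞 k) : k) = 1 - (c : k) := by
        change algebraMap (𝓞 k) k (1 - c) = 1 - algebraMap (𝓞 k) k c
        rw [map_sub, map_one]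
      rw [e4, map_sub, map_one, ← eC]
    rw [e3] at e2
    refine e2.mono ?_
    rw [mul_one]
    exact_mod_cast hℓ1
  have h10 : Le Q 2 (σ (ϖ : L) - (ϖ : L)) := by
    have e1 := h3.sub (h9.mul h.pi.le)
    have e2 : σ (ϖ : L) - C * (ϖ : L) - (1 - C) * (ϖ : L) = σ (ϖ : L) - (ϖ : L) := by ring
    rwa [e2] at e1
  rw [h.tt.le_iff] at h10
  omega


include h in
omit hv in
private theorem trc_ell {e : ℕ} (he : Eo v e (ℓ : k)) : Eo Q (ℓ * e) (ℓ : L) := by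
  have e1 := h.up_eo.2 he
  rwa [map_natCast] at e1

include h in
omit hv in
private theorem trc_term {e : ℕ} (he : Eo v e (ℓ : k)) {n : ℕ} {x : L} (hx : Le Q n x) {j : ℕ}
    (hj : j + 1 < ℓ) :
    Le Q (ℓ * e + (n + j * t)) (((ℓ.choose (j + 1) : ℕ) : L) * (dl σ)^[j] x) := by
  obtain ⟨m, hm⟩ := h.pr.dvd_choose_self (Nat.succ_ne_zero j) hj
  rw [hm, Nat.cast_mul]
  refine Le.mul ?_ (h.dl_iter j hx)
  have e1 := (trc_ell h he).le.natCast_mul m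
  rwa [mul_comm (m : L)] at e1

include h in
omit hv in
private theorem trc_last {n : ℕ} {x : L} (hx : Le Q n x) {j : ℕ} (hj : j + 1 = ℓ) :
    Le Q (n + j * t) (((ℓ.choose (j + 1) : ℕ) : L) * (dl σ)^[j] x) := by
  rw [hj, Nat.choose_self, Nat.cast_one, one_mul]
  exact h.dl_iter j hx

theorem Tot.bound : ∃ e : ℕ, Eo v e (ℓ : k) ∧ t * (ℓ - 1) ≤ ℓ * e := by
  obtain ⟨e, he1, he⟩ := eo_ell hv h.pr.ne_zero
  refine ⟨e, he, ?_⟩
  by_contra hcon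
  push Not at hcon
  have ht := h.pos hv
  obtain ⟨l, rfl⟩ : ∃ l, ℓ = l + 1 := ⟨ℓ - 1, by have := h.pr.one_lt; omega⟩
  rw [Nat.add_sub_cancel] at hcon
  have hconZ : (((l + 1 : ℕ) : ℤ)) * e + 1 ≤ t * l := by exact_mod_cast hcon
  have htZ : (1 : ℤ) ≤ t := by exact_mod_cast ht
  have hs := trc_sum h (ϖ : L)
  rw [Finset.sum_range_succ', zero_add, Nat.choose_one_right, Function.iterate_zero, id_eq,
    add_comm] at hs
  have hx : Le Q ((1 : ℕ) : ℤ) (ϖ : L) := by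
    rw [Nat.cast_one]
    exact h.pi.le
  have h1 : Eo Q ((((l + 1 : ℕ) : ℤ)) * e + 1) (((l + 1 : ℕ) : L) * (ϖ : L)) :=
    (trc_ell h he).mul h.pi
  have h2 : Le Q ((((l + 1 : ℕ) : ℤ)) * e + 1 + 1) (∑ j ∈ Finset.range l,
      (((l + 1).choose (j + 1 + 1) : ℕ) : L) * (dl σ)^[j + 1] (ϖ : L)) := by
    refine Le.sum fun j hj => ?_
    rw [Finset.mem_range] at hj
    rcases Nat.lt_or_ge (j + 1) l with hjl | hjl
    · refine (trc_term h he hx (j := j + 1) (by omega)).mono ?_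
      have e1 : (0 : ℤ) ≤ (j : ℤ) * t := by positivity
      push_cast
      linarith
    · have hjl' : j + 1 = l := by omega
      refine (trc_last h hx (j := j + 1) (by omega)).mono ?_
      rw [hjl']
      push_cast at hconZ ⊢
      linarith
  have h3 := h1.add_le h2
  rw [← hs] at h3
  have h4 : Algebra.trace k L (ϖ : L) ≠ 0 := by
    intro h0
    rw [h0, map_zero] at h3
    exact h3.ne_zero rfl
  obtain ⟨n, hn⟩ := exists_eo (w := v) h4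
  have h5 := (h.up_eo.2 hn).unique h3
  have h6 : (((l + 1 : ℕ) : ℤ)) ∣ 1 := ⟨n - e, by linarith⟩
  have h7 : l + 1 ∣ 1 := by exact_mod_cast h6
  exact h.pr.one_lt.ne' (Nat.dvd_one.1 h7)


theorem Tot.trace {n : ℕ} {x : L} (hx : Le Q n x) {m : ℤ} (hm : ℓ * (m - 1) < n + t * (ℓ - 1)) :
    Le v m (Algebra.trace k L x) := by
  obtain ⟨e, he, hb⟩ := h.bound hv
  obtain ⟨l, rfl⟩ : ∃ l, ℓ = l + 1 := ⟨ℓ - 1, by have := h.pr.one_lt; omega⟩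
  rw [Nat.add_sub_cancel] at hb
  have hbZ : (t : ℤ) * l ≤ (((l + 1 : ℕ) : ℤ)) * e := by exact_mod_cast hb
  have h1 : Le Q (n + t * l) (algebraMap k L (Algebra.trace k L x)) := by
    rw [trc_sum h x]
    refine Le.sum fun j hj => ?_
    rw [Finset.mem_range] at hj
    rcases Nat.lt_or_ge (j + 1) (l + 1) with hjl | hjl
    · refine (trc_term h he hx hjl).mono ?_
      have e1 : (0 : ℤ) ≤ (j : ℤ) * t := by positivity
      linarith
    · have hjl' : j = l := by omega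
      rw [hjl']
      refine (trc_last h hx rfl).mono ?_
      linarith [mul_comm (l : ℤ) t]
  by_cases h0 : Algebra.trace k L x = 0
  · rw [h0]
    exact Le.zero
  · obtain ⟨r, hr⟩ := exists_eo (w := v) h0
    rw [(h.up_eo.2 hr).le_iff] at h1
    rw [hr.le_iff]
    have h2 : (((l + 1 : ℕ) : ℤ)) * (m - 1) < (((l + 1 : ℕ) : ℤ)) * r := by
      have e1 : ((((l + 1 : ℕ) : ℤ)) - 1) = l := by push_cast; ring
      rw [e1] at hm
      linarith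
    have h3 : m - 1 < r := lt_of_mul_lt_mul_left h2 (by positivity)
    omega


end

end Pool.Agent.Lib.MP_1a91b9_nuW.CF
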